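import Pool.Agent.MP27fa52.Defs

open MeasureTheory Set Filter Topology

set_option linter.unusedSectionVars false

namespace MP27fa52


theorem cc_pos (n : ℕ) : 0 < cc n := by
  unfold cc
  have := Real.log_pos (by norm_num : (1:ℝ) < 2)
  positivity

theorem bet_pos (n : ℕ) : 0 < bet n := by unfold bet; positivity

theorem exp_cc4 (n : ℕ) : Real.exp (cc n / 4) = 16 ^ (n+1) := by
  unfold cc
  rw [show 16 * ((n:ℝ)+1) * Real.log 2 / 4 = ((4*(n+1) : ℕ) : ℝ) * Real.log 2 by push_cast; ring,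
    Real.exp_nat_mul, Real.exp_log (by norm_num), pow_mul]
  norm_num

theorem exp_cc2 (n : ℕ) : Real.exp (cc n / 2) = 256 ^ (n+1) := by
  rw [show cc n / 2 = cc n / 4 + cc n / 4 by ring, Real.exp_add, exp_cc4, ← mul_pow]; norm_num

theorem sum_bet (n : ℕ) : ∑ i ∈ Finset.range n, bet i ≤ 1/2 := by
  have : ∀ n, ∑ i ∈ Finset.range n, bet i = 1/2 - (1/2)^(n+1) := by
    intro n
    induction n with
    | zero => simp
    | succ n ih => rw [Finset.sum_range_succ, ih, bet]; ring
  rw [this]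
  have : (0:ℝ) < (1/2)^(n+1) := by positivity
  linarith

theorem sum_bet_exp (n : ℕ) :
    1 + ∑ i ∈ Finset.range n, bet i * Real.exp (cc i / 2) ≤ 128 ^ n := by
  induction n with
  | zero => simp
  | succ n ih =>
    rw [Finset.sum_range_succ, exp_cc2]
    have h : bet n * 256 ^ (n+1) = 64 * 128 ^ n := by
      unfold bet
      rw [show (256:ℝ) = 2 * 128 by norm_num, mul_pow, pow_succ (128:ℝ), pow_succ (2:ℝ), one_div,
        inv_pow, pow_add]
      field_simp
      norm_num
    rw [h, pow_succ]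
    have : (0:ℝ) < 128 ^ n := by positivity
    linarith

/-- the growth condition making all characteristic values admissible -/
theorem growth (n : ℕ) :
    (1 + ∑ i ∈ Finset.range n, bet i * Real.exp (cc i / 2)) / (bet n / 2) ≤ Real.exp (cc n / 2) := by
  rw [div_le_iff₀ (by have := bet_pos n; positivity), exp_cc2]
  refine (sum_bet_exp n).trans ?_
  have h : (256:ℝ) ^ (n+1) * (bet n / 2) = 32 * 128 ^ n := by
    unfold bet
    rw [show (256:ℝ) = 2 * 128 by norm_num, mul_pow, pow_succ (128:ℝ), pow_succ (2:ℝ), one_div,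
      inv_pow, pow_add]
    field_simp
    norm_num
  rw [h]
  have : (0:ℝ) < 128 ^ n := by positivity
  linarith

theorem three_div_bet (n : ℕ) : 3 / bet n ≤ Real.exp (cc n / 4) := by
  rw [exp_cc4, div_le_iff₀ (bet_pos n)]
  have h : (16:ℝ) ^ (n+1) * bet n = 4 * 8 ^ n := by
    unfold bet
    rw [show (16:ℝ) = 2 * 8 by norm_num, mul_pow, pow_succ (8:ℝ), pow_succ (2:ℝ), one_div,
      inv_pow, pow_add]
    field_simp
    norm_num
  rw [h]
  have : (1:ℝ) ≤ 8 ^ n := one_le_pow₀ (by norm_num)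
  linarith

theorem aa_ge (k : ℕ) : 1 ≤ aa k := by
  cases k with
  | zero => simp [aa]
  | succ k => rw [aa]; exact Real.one_le_exp (by have := cc_pos (k+1); positivity)

theorem cc_mono (k : ℕ) : cc k ≤ cc (k+1) := by
  unfold cc
  have := Real.log_pos (by norm_num : (1:ℝ) < 2)
  push_cast
  nlinarith

theorem bot_mono (n : ℕ) : bot n ≤ bot (n+1) := by
  cases n with
  | zero => simp only [bot]; linarith [aa_ge 1]
  | succ k =>
    simp only [bot, aa]
    exact Real.exp_le_exp.2 (by linarith [cc_mono (k+1)])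

theorem norm_one_sub_le (a : ℝ) (ha : 1 ≤ a) (l : ℂ) (hl : l.re ≤ 1) :
    ‖1 - l‖ ≤ ‖(a:ℂ) - l‖ := by
  rw [Complex.norm_def, Complex.norm_def]
  apply Real.sqrt_le_sqrt
  simp only [Complex.normSq_apply, Complex.sub_re, Complex.sub_im, Complex.one_re, Complex.one_im,
    Complex.ofReal_re, Complex.ofReal_im]
  nlinarith

theorem sub_ne_zero_of_re (a : ℝ) (ha : 1 ≤ a) (l : ℂ) (hl : l.re ≤ 1/2) : (a:ℂ) - l ≠ 0 := by
  intro h
  have := congrArg Complex.re h
  simp at this
  linarith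

theorem chi_le (k : ℕ) (l : ℂ) (hl : l.re ≤ 1/2) : ‖chi k l‖ ≤ bet k := by
  unfold chi
  have hb := bet_pos k
  have h0 : 0 < ‖(aa k:ℂ) - l‖ := norm_pos_iff.2 (sub_ne_zero_of_re _ (aa_ge k) l hl)
  rw [norm_div, norm_mul, Complex.norm_real, Real.norm_of_nonneg hb.le, div_le_iff₀ h0]
  exact mul_le_mul_of_nonneg_left (norm_one_sub_le _ (aa_ge k) l (by linarith)) hb.le

theorem chi_ge (n : ℕ) (l : ℂ) (hl : l.re ≤ 1/2) (hi : bot n < l.im) : bet n / 2 ≤ ‖chi n l‖ := by
  unfold chi
  have hb := bet_pos n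
  have h0 : 0 < ‖(aa n:ℂ) - l‖ := norm_pos_iff.2 (sub_ne_zero_of_re _ (aa_ge n) l hl)
  rw [norm_div, norm_mul, Complex.norm_real, Real.norm_of_nonneg hb.le, le_div_iff₀ h0]
  have key : ‖(aa n : ℂ) - l‖ ≤ 2 * ‖1 - l‖ := by
    cases n with
    | zero =>
      simp only [aa, Complex.ofReal_one]
      linarith [norm_nonneg (1 - l)]
    | succ k =>
      simp only [bot] at hi
      have h1 : ‖(aa (k+1) : ℂ) - l‖ ≤ ‖(((aa (k+1) - 1 : ℝ)) : ℂ)‖ + ‖1 - l‖ := by
        have : (aa (k+1) : ℂ) - l = ((aa (k+1) - 1 : ℝ) : ℂ) + (1 - l) := by push_cast; ring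
        rw [this]; exact norm_add_le _ _
      rw [Complex.norm_real, Real.norm_of_nonneg (by linarith [aa_ge (k+1)])] at h1
      have h2 : |(1 - l).im| ≤ ‖1 - l‖ := Complex.abs_im_le_norm _
      simp only [Complex.sub_im, Complex.one_im, zero_sub, abs_neg] at h2
      have h3 : l.im ≤ |l.im| := le_abs_self _
      linarith
  calc bet n / 2 * ‖(aa n : ℂ) - l‖ ≤ bet n / 2 * (2 * ‖1 - l‖) :=
        mul_le_mul_of_nonneg_left key (by positivity)
    _ = bet n * ‖1 - l‖ := by ring

theorem chi_ne (n : ℕ) (l : ℂ) (hl : l.re ≤ 1/2) (hi : bot n < l.im) : chi n l ≠ 0 := by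
  have := chi_ge n l hl hi
  have hb := bet_pos n
  intro h
  rw [h, norm_zero] at this
  linarith

section
variable (T : ℕ → ℕ) (hpos : ∀ n, 1 ≤ T n) (hhalf : ∀ n, cc n / T n ≤ eps T n / 2)
include hpos

theorem eps_pos (n : ℕ) : 0 < eps T n := by
  cases n with
  | zero => simp [eps]
  | succ n =>
    simp only [eps]
    have : (0:ℝ) < T n := by exact_mod_cast hpos n
    exact div_pos (cc_pos n) this

theorem eps_mul (n : ℕ) : eps T (n+1) * T n = cc n := by
  simp only [eps]
  have : (0:ℝ) < T n := by exact_mod_cast hpos n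
  field_simp

include hhalf

theorem eps_succ (n : ℕ) : eps T (n+1) ≤ eps T n / 2 := hhalf n

theorem eps_anti : Antitone (eps T) := by
  apply antitone_nat_of_succ_le
  intro n
  have := eps_pos T hpos n
  have := hhalf n
  simp only [eps] at *
  linarith

theorem eps_le (n : ℕ) : eps T n ≤ 1/8 := by
  have := eps_anti T hpos hhalf (Nat.zero_le n)
  simpa [eps] using this

theorem norm_exp_le (i n : ℕ) (hi : i < n) (l : ℂ) (hl : |l.re| ≤ eps T n / 2) :
    ‖Complex.exp (l * T i)‖ ≤ Real.exp (cc i / 2) := by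
  rw [Complex.norm_exp]
  apply Real.exp_le_exp.2
  have h1 : eps T n ≤ eps T (i+1) := eps_anti T hpos hhalf hi
  have h2 := eps_mul T hpos i
  have hT : (0:ℝ) < T i := by exact_mod_cast hpos i
  have h3 : (l * (T i : ℂ)).re = l.re * T i := by simp
  rw [h3]
  calc l.re * T i ≤ |l.re| * T i := mul_le_mul_of_nonneg_right (le_abs_self _) hT.le
    _ ≤ eps T (i+1) / 2 * T i := mul_le_mul_of_nonneg_right (by linarith) hT.le
    _ = cc i / 2 := by rw [← h2]; ring

theorem nsum_le (n m : ℕ) (hnm : n ≤ m) (l : ℂ) (hl : |l.re| ≤ eps T m / 2) :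
    ‖∑ i ∈ Finset.range n, chi i l * Complex.exp (l * T i)‖
      ≤ ∑ i ∈ Finset.range n, bet i * Real.exp (cc i / 2) := by
  refine (_root_.norm_sum_le _ _).trans (Finset.sum_le_sum fun i hi => ?_)
  have hi' : i < m := lt_of_lt_of_le (Finset.mem_range.1 hi) hnm
  rw [norm_mul]
  have h8 := eps_le T hpos hhalf m
  have := (le_abs_self l.re).trans hl
  exact mul_le_mul (chi_le i l (by linarith)) (norm_exp_le T hpos hhalf i m hi' l hl)
    (norm_nonneg _) (bet_pos i).le

theorem zet_le (n : ℕ) (l : ℂ) (hl : |l.re| ≤ eps T n / 2) (hi : bot n < l.im) :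
    ‖zet T n l‖ ≤ Real.exp (cc n / 2) := by
  refine le_trans ?_ (growth n)
  unfold zet
  rw [norm_div]
  have h8 := eps_le T hpos hhalf n
  have := (le_abs_self l.re).trans hl
  have hb := bet_pos n
  have h1 := nsum_le T hpos hhalf n n le_rfl l hl
  apply div_le_div₀ _ _ (by positivity) (chi_ge n l (by linarith) hi)
  · have : 0 ≤ ∑ i ∈ Finset.range n, bet i * Real.exp (cc i / 2) :=
      Finset.sum_nonneg fun i _ => mul_nonneg (bet_pos i).le (Real.exp_pos _).le
    linarith
  · refine (norm_sub_le _ _).trans ?_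
    rw [norm_one]; linarith

end

/-- the free characteristic value at two levels -/
noncomputable def ZZ (T : ℕ → ℕ) (n : ℕ) (l z : ℂ) : ℂ :=
  (1 - ∑ i ∈ Finset.range n, chi i l * Complex.exp (l * T i) - chi n l * z) / chi (n+1) l

section
variable (T : ℕ → ℕ) (hpos : ∀ n, 1 ≤ T n) (hhalf : ∀ n, cc n / T n ≤ eps T n / 2)
include hpos hhalf

theorem ZZ_le (n : ℕ) (l z : ℂ) (hl : |l.re| ≤ eps T n / 2) (hi : bot (n+1) < l.im)
    (hz : ‖z‖ ≤ Real.exp (cc n / 2)) :
    ‖ZZ T n l z‖ ≤ Real.exp (cc (n+1)) := by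
  have hcc := cc_pos (n+1)
  refine le_trans ?_ ((growth (n+1)).trans (Real.exp_le_exp.2 (by linarith)))
  unfold ZZ
  rw [norm_div]
  have h8 := eps_le T hpos hhalf n
  have := (le_abs_self l.re).trans hl
  have hb := bet_pos (n+1)
  have hbn := bet_pos n
  have h1 := nsum_le T hpos hhalf n n le_rfl l hl
  apply div_le_div₀ _ _ (by positivity) (chi_ge (n+1) l (by linarith) hi)
  · have : 0 ≤ ∑ i ∈ Finset.range (n+1), bet i * Real.exp (cc i / 2) :=
      Finset.sum_nonneg fun i _ => mul_nonneg (bet_pos i).le (Real.exp_pos _).le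
    linarith
  · rw [Finset.sum_range_succ]
    have h2 : ‖chi n l * z‖ ≤ bet n * Real.exp (cc n / 2) := by
      rw [norm_mul]
      exact mul_le_mul (chi_le n l (by linarith)) hz (norm_nonneg _) hbn.le
    have h3 := norm_sub_le (1 - ∑ i ∈ Finset.range n, chi i l * Complex.exp (l * T i)) (chi n l * z)
    have h4 := norm_sub_le (1:ℂ) (∑ i ∈ Finset.range n, chi i l * Complex.exp (l * T i))
    rw [norm_one] at h4
    linarith

theorem zet_axis (n : ℕ) (y : ℝ) (hy : bot n < y) :
    1 ≤ ‖zet T n (y * Complex.I)‖ ∧ ‖zet T n (y * Complex.I)‖ ≤ Real.exp (cc n / 4) := by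
  have hb := bet_pos n
  have hre : ((y:ℂ) * Complex.I).re = 0 := by simp
  have him : ((y:ℂ) * Complex.I).im = y := by simp
  have hs : ‖∑ i ∈ Finset.range n, chi i (y * Complex.I) * Complex.exp (y * Complex.I * T i)‖ ≤ 1/2 := by
    refine le_trans ((_root_.norm_sum_le _ _).trans (Finset.sum_le_sum fun i hi => ?_)) (sum_bet n)
    rw [norm_mul, Complex.norm_exp]
    have h1 : ((y:ℂ) * Complex.I * (T i : ℂ)).re = 0 := by simp
    rw [h1, Real.exp_zero, mul_one]
    exact chi_le i _ (by rw [hre]; norm_num)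
  have hc1 := chi_le n (y * Complex.I) (by rw [hre]; norm_num)
  have hc2 := chi_ge n (y * Complex.I) (by rw [hre]; norm_num) (by rw [him]; exact hy)
  have hc0 : 0 < ‖chi n (y * Complex.I)‖ := by linarith
  unfold zet
  rw [norm_div]
  constructor
  · rw [le_div_iff₀ hc0, one_mul]
    have h1 : ‖(1:ℂ)‖ - ‖∑ i ∈ Finset.range n, chi i (y * Complex.I) * Complex.exp (y * Complex.I * T i)‖
      ≤ ‖1 - ∑ i ∈ Finset.range n, chi i (y * Complex.I) * Complex.exp (y * Complex.I * T i)‖ :=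
        norm_sub_norm_le _ _
    rw [norm_one] at h1
    have h2 : bet n ≤ 1/2 := by
      have := sum_bet (n+1)
      rw [Finset.sum_range_succ] at this
      have h3 : 0 ≤ ∑ i ∈ Finset.range n, bet i := Finset.sum_nonneg fun i _ => (bet_pos i).le
      linarith
    linarith
  · refine le_trans ?_ (three_div_bet n)
    rw [div_le_div_iff₀ hc0 hb]
    have h1 := norm_sub_le (1:ℂ) (∑ i ∈ Finset.range n, chi i (y * Complex.I) * Complex.exp (y * Complex.I * T i))
    rw [norm_one] at h1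
    nlinarith

end

end MP27fa52
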