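import Pool.Agent.MP27fa52.Chi

open MeasureTheory Set Filter Topology

namespace MP27fa52



theorem cplx_tail {c : ℂ} (hc : 0 < c.re) {τ : ℝ} (hτ : 0 < τ) :
    IntegrableOn (fun t : ℝ => if τ ≤ t then Complex.exp (-c * (t - τ)) else 0) (Ioi 0) ∧
    ∫ t in Ioi (0:ℝ), (if τ ≤ t then Complex.exp (-c * (t - τ)) else 0) = 1 / c := by
  have hfun : (fun t : ℝ => if τ ≤ t then Complex.exp (-c * (t - τ)) else 0)
      = indicator (Ici τ) (fun t : ℝ => Complex.exp (c * τ) * Complex.exp (-c * t)) := by
    funext t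
    simp only [indicator, mem_Ici]
    split_ifs
    · rw [← Complex.exp_add]
      congr 1
      ring
    · rfl
  have hneg : (-c).re < 0 := by simpa using hc
  have hI : IntegrableOn (fun t : ℝ => Complex.exp (c * τ) * Complex.exp (-c * t)) (Ici τ) := by
    rw [integrableOn_Ici_iff_integrableOn_Ioi]
    exact (integrableOn_exp_mul_complex_Ioi hneg τ).const_mul _
  rw [hfun]
  refine ⟨((integrable_indicator_iff measurableSet_Ici).2 hI).integrableOn, ?_⟩
  rw [setIntegral_indicator measurableSet_Ici]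
  have hset : Ioi (0:ℝ) ∩ Ici τ = Ici τ := by
    ext x
    simp only [mem_inter_iff, mem_Ioi, mem_Ici]
    constructor
    · exact fun h => h.2
    · exact fun h => ⟨lt_of_lt_of_le hτ h, h⟩
  rw [hset, integral_Ici_eq_integral_Ioi, integral_const_mul, integral_exp_mul_complex_Ioi hneg τ]
  have hc0 : c ≠ 0 := by
    rintro rfl
    simp at hc
  rw [mul_div_assoc', mul_neg, ← Complex.exp_add]
  have : c * τ + -c * τ = 0 := by ring
  rw [this, Complex.exp_zero]
  field_simp

theorem real_tail {b : ℝ} (hb : 0 < b) {τ : ℝ} (hτ : 0 < τ) :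
    IntegrableOn (fun t : ℝ => if τ ≤ t then Real.exp (-b * (t - τ)) else 0) (Ioi 0) ∧
    ∫ t in Ioi (0:ℝ), (if τ ≤ t then Real.exp (-b * (t - τ)) else 0) = 1 / b := by
  have h := cplx_tail (c := (b:ℂ)) (by simpa using hb) hτ
  have hfun : (fun t : ℝ => if τ ≤ t then Complex.exp (-(b:ℂ) * (t - τ)) else 0)
      = fun t : ℝ => (((if τ ≤ t then Real.exp (-b * (t - τ)) else 0 : ℝ)) : ℂ) := by
    funext t
    split_ifs
    · push_cast
      rfl
    · simp
  rw [hfun] at h
  refine ⟨?_, ?_⟩
  · exact h.1.re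
  · have h2 := h.2
    rw [show (1 / (b:ℂ)) = ((1 / b : ℝ) : ℂ) by push_cast; rfl] at h2
    have h3 : ∫ t in Ioi (0:ℝ), (((if τ ≤ t then Real.exp (-b * (t - τ)) else 0 : ℝ)) : ℂ)
      = ((∫ t in Ioi (0:ℝ), (if τ ≤ t then Real.exp (-b * (t - τ)) else 0) : ℝ) : ℂ) :=
      integral_ofReal
    rw [h3] at h2
    exact_mod_cast h2

theorem bet_hasSum : HasSum bet (1/2) := by
  have h := (hasSum_geometric_two).mul_left (1/4 : ℝ)
  have h1 : (fun n : ℕ => (1/4 : ℝ) * (1/2) ^ n) = bet := by
    funext n; unfold bet; rw [pow_add]; ring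
  rw [h1] at h
  rw [show (1/2 : ℝ) = 1/4 * 2 by norm_num]
  exact h

theorem aa_one_le (k : ℕ) : 1 ≤ aa k := by
  cases k with
  | zero => exact le_of_eq rfl
  | succ k => exact Real.one_le_exp (by have := cc_pos (k+1); linarith)

theorem T_ge {T : ℕ → ℕ} (hpos : ∀ n, 1 ≤ T n) (hbig : ∀ n, 8 * T n ≤ T (n+1)) (k : ℕ) :
    k + 1 ≤ T k := by
  induction k with
  | zero => exact hpos 0
  | succ k ih => have := hbig k; omega

theorem echo_nonneg (T : ℕ → ℕ) (k : ℕ) (t : ℝ) : 0 ≤ echo T k t := by
  unfold echo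
  split_ifs
  · exact mul_nonneg (bet_pos k).le (Real.exp_pos _).le
  · exact le_rfl

theorem echo_eq_zero {T : ℕ → ℕ} {k : ℕ} {t : ℝ} (h : t < T k) : echo T k t = 0 := by
  unfold echo
  rw [if_neg (not_le.2 h)]

theorem echo_summable {T : ℕ → ℕ} (hpos : ∀ n, 1 ≤ T n) (hbig : ∀ n, 8 * T n ≤ T (n+1)) (t : ℝ) :
    Summable (fun k => echo T k t) := by
  refine summable_of_ne_finset_zero (s := Finset.range ⌈t⌉₊) ?_
  intro k hk
  rw [Finset.mem_range, not_lt] at hk
  refine echo_eq_zero ?_
  have h1 : t ≤ (⌈t⌉₊ : ℝ) := Nat.le_ceil t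
  have h2 : ((⌈t⌉₊ : ℕ) : ℝ) ≤ k := by exact_mod_cast hk
  have h3 : ((k + 1 : ℕ) : ℝ) ≤ T k := by exact_mod_cast T_ge hpos hbig k
  push_cast at h3
  linarith

theorem echo_measurable (T : ℕ → ℕ) (k : ℕ) : Measurable (echo T k) := by
  unfold echo
  refine Measurable.ite measurableSet_Ici ?_ measurable_const
  fun_prop

theorem tsum_echo_measurable {T : ℕ → ℕ} (hpos : ∀ n, 1 ≤ T n)
    (hbig : ∀ n, 8 * T n ≤ T (n+1)) : Measurable (fun t => ∑' k, echo T k t) := by
  refine measurable_of_tendsto_metrizable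
    (f := fun (n : ℕ) (t : ℝ) => ∑ k ∈ Finset.range n, echo T k t) ?_ ?_
  · intro n
    exact Finset.measurable_fun_sum _ (fun k _ => echo_measurable T k)
  · rw [tendsto_pi_nhds]
    intro t
    exact (echo_summable hpos hbig t).hasSum.tendsto_sum_nat

theorem first_measurable : Measurable (fun t : ℝ => if 0 ≤ t then Real.exp (-t) else 0) := by
  refine Measurable.ite measurableSet_Ici ?_ measurable_const
  fun_prop

theorem tsum_echo_nonneg (T : ℕ → ℕ) (t : ℝ) : 0 ≤ ∑' k, echo T k t :=
  tsum_nonneg (fun k => echo_nonneg T k t)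

/-- facts on the function `ff T`; `phi T` enters only through its listed properties -/
theorem ff_facts (T : ℕ → ℕ) (hpos : ∀ n, 1 ≤ T n) (hbig : ∀ n, 8 * T n ≤ T (n+1))
    (hm : Measurable (phi T)) (h1 : ∀ t, 1 ≤ phi T t)
    (hsub : ∀ s t, phi T (s+t) ≤ phi T s * phi T t)
    (hexp : ∀ t, phi T t ≤ Real.exp (|t| / 4)) (hTk : ∀ k, phi T (T k) ≤ Real.exp (2 * cc k)) :
    Measurable (ff T) ∧ (∀ t < 0, ff T t = 0) ∧
    IntegrableOn (fun t => |ff T t| * phi T t) (Ioi 0) ∧
    (∀ τ > 0, IntegrableOn (fun t => |ff T (t - τ)| * phi T t) (Ioi 0)) ∧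
    (∀ μ : ℂ, 0 ≤ μ.re →
      (1/2) / ‖1 + μ‖ ≤ ‖∫ t in Ioi (0:ℝ), (ff T t : ℂ) * Complex.exp (-(μ * t))‖ ∧
      ‖∫ t in Ioi (0:ℝ), (ff T t : ℂ) * Complex.exp (-(μ * t))‖ ≤ (3/2) / ‖1 + μ‖) := by
  have hmeas : Measurable (ff T) := first_measurable.sub (tsum_echo_measurable hpos hbig)
  have hTpos : ∀ k, (0:ℝ) < T k := fun k => by
    have := hpos k
    exact_mod_cast (by omega : 0 < T k)
  have hneg : ∀ t < 0, ff T t = 0 := by
    intro t ht
    unfold ff
    rw [if_neg (not_le.2 ht)]
    have : (fun k => echo T k t) = fun _ => 0 := by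
      funext k
      exact echo_eq_zero (lt_trans ht (hTpos k))
    rw [this]
    simp
  have hphi0 : ∀ t, 0 ≤ phi T t := fun t => le_trans zero_le_one (h1 t)
  -- the weighted echo
  let C : ℝ := Real.exp (2 * cc 0) * (4/3)
  have hC1 : 4/3 ≤ C := by
    have : 1 ≤ Real.exp (2 * cc 0) := Real.one_le_exp (by have := cc_pos 0; linarith)
    show 4/3 ≤ Real.exp (2 * cc 0) * (4/3)
    linarith
  have hMk : ∀ k, Real.exp (2 * cc k) * (1 / (aa k - 1/4)) ≤ C := by
    intro k
    cases k with
    | zero =>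
      have : aa 0 = 1 := rfl
      rw [this]
      show Real.exp (2 * cc 0) * (1 / (1 - 1/4)) ≤ Real.exp (2 * cc 0) * (4/3)
      norm_num
    | succ k =>
      have ha := aa_one_le (k+1)
      have hdef : Real.exp (2 * cc (k+1)) = aa (k+1) := rfl
      rw [hdef]
      refine le_trans ?_ hC1
      rw [mul_one_div, div_le_div_iff₀ (by linarith) (by norm_num)]
      linarith
  have hechophi : ∀ k t, echo T k t * phi T t ≤
      bet k * Real.exp (2 * cc k) *
        (if (T k : ℝ) ≤ t then Real.exp (-(aa k - 1/4) * (t - T k)) else 0) := by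
    intro k t
    unfold echo
    split_ifs with h
    · have hp : phi T t ≤ Real.exp (2 * cc k) * Real.exp ((t - T k) / 4) := by
        have h2 := hsub (T k) (t - T k)
        have h3 := hexp (t - T k)
        rw [abs_of_nonneg (by linarith)] at h3
        have h4 : (T k : ℝ) + (t - T k) = t := by ring
        rw [h4] at h2
        refine le_trans h2 ?_
        exact mul_le_mul (hTk k) h3 (hphi0 _) (Real.exp_pos _).le
      have hb := (bet_pos k).le
      have he := (Real.exp_pos (-(aa k) * (t - T k))).le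
      calc bet k * Real.exp (-(aa k) * (t - T k)) * phi T t
          ≤ bet k * Real.exp (-(aa k) * (t - T k)) *
              (Real.exp (2 * cc k) * Real.exp ((t - T k) / 4)) :=
            mul_le_mul_of_nonneg_left hp (mul_nonneg hb he)
        _ = bet k * Real.exp (2 * cc k) *
              (Real.exp (-(aa k) * (t - T k)) * Real.exp ((t - T k) / 4)) := by ring
        _ = bet k * Real.exp (2 * cc k) * Real.exp (-(aa k - 1/4) * (t - T k)) := by
            rw [← Real.exp_add]
            congr 2
            ring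
    · simp
  -- integrability of the sum of echos times the weight
  have hEphi : IntegrableOn (fun t => (∑' k, echo T k t) * phi T t) (Ioi 0) := by
    refine ⟨((tsum_echo_measurable hpos hbig).mul hm).aestronglyMeasurable, ?_⟩
    rw [hasFiniteIntegral_iff_ofReal (ae_of_all _ (fun t =>
      mul_nonneg (tsum_echo_nonneg T t) (hphi0 t)))]
    have e1 : ∀ t, ENNReal.ofReal ((∑' k, echo T k t) * phi T t)
        = ∑' k, ENNReal.ofReal (echo T k t * phi T t) := by
      intro t
      rw [← tsum_mul_right]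
      exact ENNReal.ofReal_tsum_of_nonneg
        (fun k => mul_nonneg (echo_nonneg T k t) (hphi0 t))
        ((echo_summable hpos hbig t).mul_right _)
    simp_rw [e1]
    have hme : ∀ k, AEMeasurable (fun t => ENNReal.ofReal (echo T k t * phi T t))
        (volume.restrict (Ioi (0:ℝ))) :=
      fun k => ((echo_measurable T k).mul hm).ennreal_ofReal.aemeasurable
    rw [lintegral_tsum hme]
    have e2 : ∀ k, ∫⁻ t in Ioi (0:ℝ), ENNReal.ofReal (echo T k t * phi T t)
        ≤ ENNReal.ofReal (bet k * C) := by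
      intro k
      have hb : 0 < aa k - 1/4 := by have := aa_one_le k; linarith
      have ht := real_tail hb (hTpos k)
      calc ∫⁻ t in Ioi (0:ℝ), ENNReal.ofReal (echo T k t * phi T t)
          ≤ ∫⁻ t in Ioi (0:ℝ), ENNReal.ofReal (bet k * Real.exp (2 * cc k) *
              (if (T k : ℝ) ≤ t then Real.exp (-(aa k - 1/4) * (t - T k)) else 0)) :=
            lintegral_mono (fun t => ENNReal.ofReal_le_ofReal (hechophi k t))
        _ = ENNReal.ofReal (∫ t in Ioi (0:ℝ), bet k * Real.exp (2 * cc k) *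
              (if (T k : ℝ) ≤ t then Real.exp (-(aa k - 1/4) * (t - T k)) else 0)) := by
            refine (ofReal_integral_eq_lintegral_ofReal (ht.1.const_mul _) ?_).symm
            refine ae_of_all _ (fun t => ?_)
            have := (bet_pos k).le
            simp only [Pi.zero_apply]
            split_ifs <;> positivity
        _ ≤ ENNReal.ofReal (bet k * C) := by
            refine ENNReal.ofReal_le_ofReal ?_
            rw [integral_const_mul, ht.2, mul_assoc]
            exact mul_le_mul_of_nonneg_left (hMk k) (bet_pos k).le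
    have hCn : 0 ≤ C := by linarith
    have hsum : Summable (fun k => bet k * C) := bet_hasSum.summable.mul_right C
    calc ∑' k, ∫⁻ t in Ioi (0:ℝ), ENNReal.ofReal (echo T k t * phi T t)
        ≤ ∑' k, ENNReal.ofReal (bet k * C) := ENNReal.tsum_le_tsum e2
      _ = ENNReal.ofReal (∑' k, bet k * C) :=
          (ENNReal.ofReal_tsum_of_nonneg (fun k => mul_nonneg (bet_pos k).le hCn) hsum).symm
      _ < ⊤ := ENNReal.ofReal_lt_top
  have hDphi : IntegrableOn (fun t : ℝ => (if 0 ≤ t then Real.exp (-t) else 0) * phi T t)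
      (Ioi 0) := by
    have hb : IntegrableOn (fun t : ℝ => Real.exp (-(3/4) * t)) (Ioi 0) :=
      integrableOn_exp_mul_Ioi (by norm_num) 0
    refine Integrable.mono' hb (first_measurable.mul hm).aestronglyMeasurable ?_
    refine (ae_restrict_iff' measurableSet_Ioi).2 (ae_of_all _ (fun t ht => ?_))
    rw [mem_Ioi] at ht
    rw [if_pos ht.le, Real.norm_eq_abs, abs_of_nonneg (mul_nonneg (Real.exp_pos _).le (hphi0 t))]
    have h3 := hexp t
    rw [abs_of_pos ht] at h3
    calc Real.exp (-t) * phi T t ≤ Real.exp (-t) * Real.exp (t/4) :=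
          mul_le_mul_of_nonneg_left h3 (Real.exp_pos _).le
      _ = Real.exp (-(3/4) * t) := by rw [← Real.exp_add]; congr 1; ring
  have hffphi : IntegrableOn (fun t => |ff T t| * phi T t) (Ioi 0) := by
    have h2 : IntegrableOn (fun t => ff T t * phi T t) (Ioi 0) := by
      have := hDphi.sub hEphi
      refine this.congr (ae_of_all _ (fun t => ?_))
      simp only [Pi.sub_apply, ff]
      ring
    refine h2.norm.congr (ae_of_all _ (fun t => ?_))
    show ‖ff T t * phi T t‖ = |ff T t| * phi T t
    rw [norm_mul, Real.norm_eq_abs, Real.norm_eq_abs, abs_of_nonneg (hphi0 t)]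
  refine ⟨hmeas, hneg, hffphi, ?_, ?_⟩
  · intro τ hτ
    have hind : (fun t => |ff T t| * phi T t) = indicator (Ici 0) (fun t => |ff T t| * phi T t) := by
      funext t
      simp only [indicator, mem_Ici]
      split_ifs with h
      · rfl
      · rw [hneg t (not_le.1 h)]
        simp
    have hglob : Integrable (fun t => |ff T t| * phi T t) := by
      rw [hind, integrable_indicator_iff measurableSet_Ici, integrableOn_Ici_iff_integrableOn_Ioi]
      exact hffphi
    have hsh := (hglob.comp_sub_right τ).const_mul (phi T τ)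
    refine (Integrable.mono' hsh ?_ (ae_of_all _ (fun t => ?_))).integrableOn
    · exact (((hmeas.comp (measurable_id.sub_const τ)).abs).mul hm).aestronglyMeasurable
    · rw [Real.norm_eq_abs, abs_of_nonneg (mul_nonneg (abs_nonneg _) (hphi0 t))]
      have h2 := hsub τ (t - τ)
      rw [show τ + (t - τ) = t by ring] at h2
      calc |ff T (t - τ)| * phi T t ≤ |ff T (t - τ)| * (phi T τ * phi T (t - τ)) :=
            mul_le_mul_of_nonneg_left h2 (abs_nonneg _)
        _ = phi T τ * (|ff T (t - τ)| * phi T (t - τ)) := by ring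
  · intro μ hμ
    -- norms
    have hE1 : IntegrableOn (fun t => ∑' k, echo T k t) (Ioi 0) := by
      refine Integrable.mono' hEphi (tsum_echo_measurable hpos hbig).aestronglyMeasurable
        (ae_of_all _ (fun t => ?_))
      rw [Real.norm_eq_abs, abs_of_nonneg (tsum_echo_nonneg T t)]
      exact le_mul_of_one_le_right (tsum_echo_nonneg T t) (h1 t)
    have hexpμ : ∀ t : ℝ, 0 < t → ‖Complex.exp (-(μ * t))‖ ≤ 1 := by
      intro t ht
      rw [Complex.norm_exp]
      rw [Real.exp_le_one_iff]
      simp only [Complex.neg_re, Complex.mul_re, Complex.ofReal_re, Complex.ofReal_im, mul_zero,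
        sub_zero]
      nlinarith
    have hcexp : Continuous (fun t : ℝ => Complex.exp (-(μ * t))) := by fun_prop
    have hE2 : IntegrableOn (fun t : ℝ => ((∑' k, echo T k t : ℝ) : ℂ) * Complex.exp (-(μ * t)))
        (Ioi 0) := by
      refine Integrable.mono' hE1 ?_ ?_
      · exact ((Complex.measurable_ofReal.comp (tsum_echo_measurable hpos hbig)).mul
          hcexp.measurable).aestronglyMeasurable
      · refine (ae_restrict_iff' measurableSet_Ioi).2 (ae_of_all _ (fun t ht => ?_))
        rw [norm_mul, Complex.norm_real, Real.norm_eq_abs, abs_of_nonneg (tsum_echo_nonneg T t)]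
        exact mul_le_of_le_one_right (tsum_echo_nonneg T t) (hexpμ t ht)
    have h1μ : 0 < (1 + μ).re := by simp; linarith
    have h1μ0 : (1 + μ) ≠ 0 := by
      intro h
      rw [h] at h1μ
      simp at h1μ
    have hDeq : ∀ t ∈ Ioi (0:ℝ), ((if 0 ≤ t then Real.exp (-t) else 0 : ℝ) : ℂ) *
        Complex.exp (-(μ * t)) = Complex.exp (-(1 + μ) * t) := by
      intro t ht
      rw [mem_Ioi] at ht
      rw [if_pos ht.le, Complex.ofReal_exp, ← Complex.exp_add]
      congr 1
      push_cast
      ring
    have hneg1 : (-(1 + μ)).re < 0 := by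
      simp only [Complex.neg_re]
      linarith
    have hDint : IntegrableOn (fun t : ℝ => ((if 0 ≤ t then Real.exp (-t) else 0 : ℝ) : ℂ) *
        Complex.exp (-(μ * t))) (Ioi 0) :=
      (integrableOn_exp_mul_complex_Ioi hneg1 0).congr_fun (fun t ht => (hDeq t ht).symm)
        measurableSet_Ioi
    have hDval : ∫ t in Ioi (0:ℝ), ((if 0 ≤ t then Real.exp (-t) else 0 : ℝ) : ℂ) *
        Complex.exp (-(μ * t)) = 1 / (1 + μ) := by
      rw [setIntegral_congr_fun measurableSet_Ioi hDeq, integral_exp_mul_complex_Ioi hneg1 0]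
      rw [Complex.ofReal_zero, mul_zero, Complex.exp_zero, neg_div_neg_eq]
    -- each echo
    have hak : ∀ k, 0 < ((aa k : ℂ) + μ).re := by
      intro k
      have := aa_one_le k
      simp only [Complex.add_re, Complex.ofReal_re]
      linarith
    have hFk : ∀ k, (fun t : ℝ => (echo T k t : ℂ) * Complex.exp (-(μ * t))) =
        fun t : ℝ => ((bet k : ℂ) * Complex.exp (-(μ * T k))) *
          (if (T k : ℝ) ≤ t then Complex.exp (-((aa k : ℂ) + μ) * (t - (T k : ℝ))) else 0) := by
      intro k
      funext t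
      unfold echo
      split_ifs with h
      · push_cast
        rw [mul_assoc, mul_assoc, ← Complex.exp_add, ← Complex.exp_add]
        congr 2
        ring
      · simp
    have hFint : ∀ k, IntegrableOn (fun t : ℝ => (echo T k t : ℂ) * Complex.exp (-(μ * t)))
        (Ioi 0) := by
      intro k
      rw [hFk k]
      exact (cplx_tail (hak k) (hTpos k)).1.const_mul _
    have hFval : ∀ k, ∫ t in Ioi (0:ℝ), (echo T k t : ℂ) * Complex.exp (-(μ * t)) =
        (bet k : ℂ) * Complex.exp (-(μ * T k)) * (1 / ((aa k : ℂ) + μ)) := by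
      intro k
      rw [hFk k, integral_const_mul, (cplx_tail (hak k) (hTpos k)).2]
    have hechoint : ∀ k, IntegrableOn (fun t : ℝ => echo T k t) (Ioi 0) ∧
        ∫ t in Ioi (0:ℝ), echo T k t = bet k * (1 / aa k) := by
      intro k
      have ha : 0 < aa k := by have := aa_one_le k; linarith
      have ht := real_tail ha (hTpos k)
      have hfe : (fun t : ℝ => echo T k t) = fun t : ℝ => bet k *
          (if (T k : ℝ) ≤ t then Real.exp (-(aa k) * (t - T k)) else 0) := by
        funext t
        unfold echo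
        split_ifs <;> simp
      rw [hfe]
      exact ⟨ht.1.const_mul _, by rw [integral_const_mul, ht.2]⟩
    have hsumn : Summable (fun k => ∫ t in Ioi (0:ℝ),
        ‖(echo T k t : ℂ) * Complex.exp (-(μ * t))‖) := by
      refine Summable.of_nonneg_of_le (fun k => integral_nonneg (fun t => norm_nonneg _)) ?_
        bet_hasSum.summable
      intro k
      have hle : ∫ t in Ioi (0:ℝ), ‖(echo T k t : ℂ) * Complex.exp (-(μ * t))‖
          ≤ ∫ t in Ioi (0:ℝ), echo T k t := by
        refine setIntegral_mono_on (hFint k).norm (hechoint k).1 measurableSet_Ioi ?_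
        intro t ht
        rw [norm_mul, Complex.norm_real, Real.norm_eq_abs, abs_of_nonneg (echo_nonneg T k t)]
        exact mul_le_of_le_one_right (echo_nonneg T k t) (hexpμ t ht)
      refine le_trans hle ?_
      rw [(hechoint k).2]
      have ha := aa_one_le k
      refine mul_le_of_le_one_right (bet_pos k).le ?_
      rw [div_le_one (by linarith)]
      exact ha
    have hHS := hasSum_integral_of_summable_integral_norm hFint hsumn
    have hEval : ∫ t in Ioi (0:ℝ), ((∑' k, echo T k t : ℝ) : ℂ) * Complex.exp (-(μ * t)) =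
        ∑' k, (bet k : ℂ) * Complex.exp (-(μ * T k)) * (1 / ((aa k : ℂ) + μ)) := by
      have h2 := hHS.tsum_eq
      simp_rw [hFval] at h2
      rw [h2]
      congr 1
      funext t
      rw [tsum_mul_right, Complex.ofReal_tsum]
    have hval : ∫ t in Ioi (0:ℝ), (ff T t : ℂ) * Complex.exp (-(μ * t)) =
        1 / (1 + μ) - ∑' k, (bet k : ℂ) * Complex.exp (-(μ * T k)) * (1 / ((aa k : ℂ) + μ)) := by
      rw [← hDval, ← hEval, ← integral_sub hDint hE2]
      congr 1
      funext t
      simp only [ff]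
      push_cast
      ring
    have hnpos : 0 < ‖1 + μ‖ := norm_pos_iff.2 h1μ0
    have hnorm_le : ∀ k, ‖1 + μ‖ ≤ ‖(aa k : ℂ) + μ‖ := by
      intro k
      have ha := aa_one_le k
      rw [Complex.norm_def, Complex.norm_def]
      refine Real.sqrt_le_sqrt ?_
      rw [Complex.normSq_apply, Complex.normSq_apply]
      simp only [Complex.add_re, Complex.one_re, Complex.add_im, Complex.one_im,
        Complex.ofReal_re, Complex.ofReal_im]
      nlinarith
    have hterm : ∀ k, ‖(bet k : ℂ) * Complex.exp (-(μ * T k)) * (1 / ((aa k : ℂ) + μ))‖ ≤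
        bet k * (1 / ‖1 + μ‖) := by
      intro k
      rw [norm_mul, norm_mul, norm_div, norm_one, Complex.norm_real, Real.norm_eq_abs,
        abs_of_pos (bet_pos k)]
      have he : ‖Complex.exp (-(μ * T k))‖ ≤ 1 := by
        have := hexpμ (T k) (hTpos k)
        simpa using this
      have hb := (bet_pos k).le
      have hd : 1 / ‖(aa k : ℂ) + μ‖ ≤ 1 / ‖1 + μ‖ :=
        one_div_le_one_div_of_le hnpos (hnorm_le k)
      exact mul_le_mul (mul_le_of_le_one_right hb he) hd (by positivity) hb
    have hHS2 : HasSum (fun k => bet k * (1 / ‖1 + μ‖)) (1/2 * (1 / ‖1 + μ‖)) :=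
      bet_hasSum.mul_right _
    have hS : ‖∑' k, (bet k : ℂ) * Complex.exp (-(μ * T k)) * (1 / ((aa k : ℂ) + μ))‖ ≤
        1/2 * (1 / ‖1 + μ‖) := tsum_of_norm_bounded hHS2 hterm
    rw [hval]
    have hfirst : ‖1 / (1 + μ)‖ = 1 / ‖1 + μ‖ := by rw [norm_div, norm_one]
    have e1 : (1/2) / ‖1 + μ‖ = 1 / ‖1 + μ‖ - 1/2 * (1 / ‖1 + μ‖) := by ring
    have e2 : (3/2) / ‖1 + μ‖ = 1 / ‖1 + μ‖ + 1/2 * (1 / ‖1 + μ‖) := by ring
    constructor
    · rw [e1]
      have := norm_sub_norm_le (1 / (1 + μ))
        (∑' k, (bet k : ℂ) * Complex.exp (-(μ * T k)) * (1 / ((aa k : ℂ) + μ)))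
      rw [hfirst] at this
      linarith
    · rw [e2]
      have := norm_sub_le (1 / (1 + μ))
        (∑' k, (bet k : ℂ) * Complex.exp (-(μ * T k)) * (1 / ((aa k : ℂ) + μ)))
      rw [hfirst] at this
      linarith

end MP27fa52
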