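import Pool.Agent.MP27fa52.Defs

open MeasureTheory Set Filter Topology

namespace MP27fa52



lemma tl_piece (a s s' : ℝ) (ha : 1 ≤ a) (hss : s < s') (w l : ℂ) (hl : |l.re| ≤ 1/16)
    (F : ℝ → ℂ) (hF : Measurable F)
    (h1 : ∀ t : ℝ, s < t → t < s' → F t = w * Complex.exp (l * (t - s)))
    (h2 : ∀ t, s' ≤ t → ‖F t‖ ≤ Real.exp (t/4))
    (h3 : ∀ t : ℝ, s' ≤ t → ‖w * Complex.exp (l * (t - s))‖ ≤ Real.exp (t/4)) :
    IntegrableOn (fun t : ℝ => (Real.exp (-a * (t - s)) : ℂ) * F t) (Ici s) ∧
    ‖(∫ t in Ici s, (Real.exp (-a * (t - s)) : ℂ) * F t) - w / (a - l)‖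
      ≤ 8/3 * Real.exp (s - 3 * s' / 4) := by
  set G : ℝ → ℂ := fun t => w * Complex.exp (l * (t - s)) with hG
  have hre : (l - a).re < 0 := by
    rw [Complex.sub_re, Complex.ofReal_re]
    have := (abs_le.1 hl).2
    linarith
  have hne : l - a ≠ 0 := by
    intro h
    rw [h] at hre
    simp at hre
  have hGeq : ∀ t : ℝ, (Real.exp (-a * (t - s)) : ℂ) * G t =
      (w * Complex.exp (-((l - a) * s))) * Complex.exp ((l - a) * t) := by
    intro t
    simp only [hG]
    rw [Complex.ofReal_exp, mul_left_comm, mul_assoc, ← Complex.exp_add, ← Complex.exp_add]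
    congr 2
    push_cast
    ring
  have hGint : IntegrableOn (fun t : ℝ => (Real.exp (-a * (t - s)) : ℂ) * G t) (Ioi s) := by
    simp_rw [hGeq]
    exact (integrableOn_exp_mul_complex_Ioi hre s).const_mul _
  have hGval : ∫ t in Ioi s, (Real.exp (-a * (t - s)) : ℂ) * G t = w / (a - l) := by
    simp_rw [hGeq]
    rw [integral_const_mul, integral_exp_mul_complex_Ioi hre, Complex.exp_neg]
    have h4 : (a : ℂ) - l ≠ 0 := by
      intro h
      apply hne
      linear_combination -h
    have h5 := Complex.exp_ne_zero ((l - a) * s)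
    field_simp
    ring
  -- the difference
  set D : ℝ → ℂ := fun t => (Real.exp (-a * (t - s)) : ℂ) * F t -
    (Real.exp (-a * (t - s)) : ℂ) * G t with hD
  have hDm : Measurable D := by
    simp only [hD, hG]
    fun_prop
  let B : ℝ → ℝ := (Ici s').indicator (fun t => 2 * Real.exp s * Real.exp (-(3/4) * t))
  have hDB : ∀ t ∈ Ioi s, ‖D t‖ ≤ B t := by
    intro t ht
    by_cases hts : t ∈ Ici s'
    · simp only [B, indicator_of_mem hts]
      simp only [hD]
      rw [← mul_sub, norm_mul, Complex.norm_real, Real.norm_eq_abs, abs_of_pos (Real.exp_pos _)]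
      have e1 : ‖F t - G t‖ ≤ 2 * Real.exp (t/4) := by
        calc ‖F t - G t‖ ≤ ‖F t‖ + ‖G t‖ := norm_sub_le _ _
          _ ≤ _ := by have := h2 t hts; have := h3 t hts; simp only [hG]; linarith
      have e2 : Real.exp (-a * (t - s)) ≤ Real.exp (-(t - s)) := by
        apply Real.exp_le_exp.2
        have : s < t := ht
        nlinarith
      calc Real.exp (-a * (t - s)) * ‖F t - G t‖ ≤ Real.exp (-(t - s)) * (2 * Real.exp (t/4)) := by
            gcongr
        _ = 2 * Real.exp s * Real.exp (-(3/4) * t) := by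
            rw [mul_left_comm, ← Real.exp_add, mul_assoc, ← Real.exp_add]
            congr 2
            ring
    · simp only [B, indicator_of_notMem hts]
      have : F t = G t := h1 t ht (by simpa using hts)
      simp only [hD]
      rw [this]
      simp
  have hBint : IntegrableOn B (Ioi s) := by
    simp only [B]
    rw [IntegrableOn, integrable_indicator_iff measurableSet_Ici, IntegrableOn,
      Measure.restrict_restrict measurableSet_Ici, ← IntegrableOn]
    have : Ici s' ∩ Ioi s = Ici s' := by
      apply inter_eq_left.2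
      intro t ht
      exact lt_of_lt_of_le hss ht
    rw [this, integrableOn_Ici_iff_integrableOn_Ioi]
    exact (integrableOn_exp_mul_Ioi (by norm_num) s').const_mul _
  have hBval : ∫ t in Ioi s, B t = 8/3 * Real.exp (s - 3 * s' / 4) := by
    simp only [B]
    rw [setIntegral_indicator measurableSet_Ici]
    have : Ioi s ∩ Ici s' = Ici s' := by
      apply inter_eq_right.2
      intro t ht
      exact lt_of_lt_of_le hss ht
    rw [this, integral_Ici_eq_integral_Ioi, integral_const_mul, integral_exp_mul_Ioi (by norm_num),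
      sub_eq_add_neg s, Real.exp_add]
    have : -(3 * s' / 4) = -(3/4) * s' := by ring
    rw [this]
    ring
  have hDint : IntegrableOn D (Ioi s) := by
    refine Integrable.mono' hBint hDm.aestronglyMeasurable ?_
    rw [ae_restrict_iff' measurableSet_Ioi]
    exact Eventually.of_forall hDB
  have hDn : ‖∫ t in Ioi s, D t‖ ≤ 8/3 * Real.exp (s - 3 * s' / 4) := by
    rw [← hBval]
    refine norm_integral_le_of_norm_le hBint ?_
    rw [ae_restrict_iff' measurableSet_Ioi]
    exact Eventually.of_forall hDB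
  have hFint : IntegrableOn (fun t : ℝ => (Real.exp (-a * (t - s)) : ℂ) * F t) (Ioi s) := by
    refine (hDint.add hGint).congr ?_
    refine Eventually.of_forall fun t => ?_
    simp [hD]
  refine ⟨(integrableOn_Ici_iff_integrableOn_Ioi).2 hFint, ?_⟩
  rw [integral_Ici_eq_integral_Ioi, ← hGval, ← integral_sub hFint hGint]
  exact hDn

lemma tl_aa_one_le (k : ℕ) : 1 ≤ aa k := by
  cases k with
  | zero => simp [aa]
  | succ k =>
    simp only [aa]
    apply Real.one_le_exp
    unfold cc
    positivity

lemma tl_sum_bet (m : ℕ) : ∑ k ∈ Finset.range m, bet k = 1/2 - (1/2)^(m+1) := by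
  induction m with
  | zero => norm_num
  | succ m ih =>
    rw [Finset.sum_range_succ, ih]
    unfold bet
    ring

lemma tl_T_ge (T : ℕ → ℕ) (hpos : ∀ n, 1 ≤ T n) (hbig : ∀ n, 8 * T n ≤ T (n+1)) (n : ℕ) :
    8^n ≤ T n := by
  induction n with
  | zero => simpa using hpos 0
  | succ n ih =>
    have := hbig n
    rw [pow_succ]
    omega

/-- the transform of level `n` of a translate of `ff T` is tiny on its characteristic curve -/
theorem top_level (T : ℕ → ℕ) (hpos : ∀ n, 1 ≤ T n) (hdvd : ∀ n, T n ∣ T (n+1))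
    (hbig : ∀ n, 8 * T n ≤ T (n+1)) (heps0 : ∀ n, 0 < eps T n) (heps : ∀ n, eps T n ≤ 1/8)
    (hexp : ∀ t, phi T t ≤ Real.exp (|t| / 4))
    (hlow : ∀ n t, 0 ≤ t → t < (T (n+1) : ℝ) / 2 →
      cc n * mm T n t + eps T n / 2 * |rr T n t| ≤ theta T t)
    (hcc : ∀ n, cc n ≤ (T n : ℝ) / 16)
    (hchi : ∀ n (l : ℂ), |l.re| ≤ eps T n / 2 → bot n < l.im → chi n l ≠ 0)
    (hzet : ∀ n (l : ℂ), |l.re| ≤ eps T n / 2 → bot n < l.im → ‖zet T n l‖ ≤ Real.exp (cc n))
    (τ : ℝ) (hτ : 0 < τ) :
    ∀ᶠ n : ℕ in atTop, ∀ l : ℂ, |l.re| ≤ eps T n / 2 → bot n < l.im →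
      ‖KK T n (fun t => (ff T (t - τ) : ℂ)) l‖ ≤ 8 * Real.exp τ * Real.exp (-(T n : ℝ) / 8) := by
  classical
  have hTpos : ∀ n, (0:ℝ) < T n := fun n => by exact_mod_cast hpos n
  have hmono : Monotone T := monotone_nat_of_le_succ (fun n => by have := hbig n; omega)
  have hge : ∀ n, (8:ℝ)^n ≤ T n := fun n => by exact_mod_cast tl_T_ge T hpos hbig n
  have hev : ∀ᶠ n : ℕ in atTop, τ < 3/8 * (T n : ℝ) := by
    have h1 : Tendsto (fun n : ℕ => (8:ℝ)^n) atTop atTop :=
      tendsto_pow_atTop_atTop_of_one_lt (by norm_num)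
    filter_upwards [h1.eventually_gt_atTop (8/3 * τ)] with n hn
    have := hge n
    linarith
  filter_upwards [hev] with n hn l hl hlb
  have hl16 : |l.re| ≤ 1/16 := by have := heps n; linarith
  have hl16' := abs_le.1 hl16
  have hTn := hTpos n
  obtain ⟨z, hz⟩ : ∃ z, z = zet T n l := ⟨_, rfl⟩
  have hzn : ‖z‖ ≤ Real.exp (cc n) := by rw [hz]; exact hzet n l hl hlb
  obtain ⟨S, hS⟩ : ∃ S : ℝ, S = (T (n+1) : ℝ)/2 := ⟨_, rfl⟩
  have hTS : 3/2 * (T n : ℝ) ≤ S := by
    have : (8:ℝ) * T n ≤ T (n+1) := by exact_mod_cast hbig n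
    rw [hS]
    linarith
  let E : ℝ → ℂ := fun t => z ^ (mm T n t).toNat * Complex.exp (l * rr T n t)
  let F : ℝ → ℂ := (Ioo 0 S).indicator E
  have hm0 : ∀ t, 0 ≤ t → t < (T n : ℝ)/2 → mm T n t = 0 := by
    intro t ht0 ht
    unfold mm
    rw [round_eq, Int.floor_eq_iff]
    have h1 : 0 ≤ t / (T n : ℝ) := by positivity
    have h2 : t / (T n : ℝ) < 1/2 := by
      rw [div_lt_iff₀ hTn]
      linarith
    push_cast
    constructor <;> linarith
  have hm1 : ∀ t, (T n : ℝ)/2 ≤ t → t < 3/2 * (T n : ℝ) → mm T n t = 1 := by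
    intro t ht0 ht
    unfold mm
    rw [round_eq, Int.floor_eq_iff]
    have h1 : 1/2 ≤ t / (T n : ℝ) := by
      rw [le_div_iff₀ hTn]
      linarith
    have h2 : t / (T n : ℝ) < 3/2 := by
      rw [div_lt_iff₀ hTn]
      linarith
    push_cast
    constructor <;> linarith
  have hE0 : ∀ t, 0 ≤ t → t < (T n : ℝ)/2 → E t = Complex.exp (l * t) := by
    intro t ht0 ht
    simp only [E, rr, hm0 t ht0 ht]
    simp
  have hE1 : ∀ t, (T n : ℝ)/2 ≤ t → t < 3/2 * (T n : ℝ) →
      E t = z * Complex.exp (l * (t - T n)) := by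
    intro t ht0 ht
    simp only [E, rr, hm1 t ht0 ht]
    simp
  have hEn : ∀ t, 0 ≤ t → t < S → ‖E t‖ ≤ Real.exp (t/4) := by
    intro t ht0 ht
    have hmn : 0 ≤ mm T n t := by
      unfold mm
      rw [round_eq]
      apply Int.floor_nonneg.2
      positivity
    have h1 := hlow n t ht0 (by rw [← hS]; exact ht)
    have h2 := hexp t
    rw [abs_of_nonneg ht0] at h2
    refine le_trans ?_ h2
    unfold phi
    refine le_trans ?_ (Real.exp_le_exp.2 h1)
    simp only [E]
    rw [norm_mul, norm_pow, Complex.norm_exp, Real.exp_add]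
    have h3 : (l * (rr T n t : ℂ)).re = l.re * rr T n t := by
      simp
    rw [h3]
    have h4 : l.re * rr T n t ≤ eps T n / 2 * |rr T n t| := by
      calc l.re * rr T n t ≤ |l.re * rr T n t| := le_abs_self _
        _ = |l.re| * |rr T n t| := abs_mul _ _
        _ ≤ _ := by gcongr
    have h5 : ‖z‖ ^ (mm T n t).toNat ≤ Real.exp (cc n * mm T n t) := by
      calc ‖z‖ ^ (mm T n t).toNat ≤ (Real.exp (cc n)) ^ (mm T n t).toNat := by gcongr
        _ = Real.exp (((mm T n t).toNat : ℝ) * cc n) := by rw [Real.exp_nat_mul]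
        _ = _ := by
            congr 1
            have : (((mm T n t).toNat : ℤ) : ℝ) = ((mm T n t : ℤ) : ℝ) := by
              rw [Int.toNat_of_nonneg hmn]
            rw [← this]
            push_cast
            ring
    gcongr
  have hEm : Measurable E := by
    have h1 : Measurable (fun t : ℝ => mm T n t) := by
      have : (fun t : ℝ => mm T n t) = fun t : ℝ => ⌊t / (T n : ℝ) + 1/2⌋ := by
        funext t
        unfold mm
        rw [round_eq]
      rw [this]
      fun_prop
    have h2 : Measurable (fun m : ℤ => z ^ m.toNat) := measurable_from_top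
    have h3 : Measurable (fun m : ℤ => (m : ℝ)) := measurable_from_top
    have h4 : Measurable (fun t : ℝ => rr T n t) := by
      unfold rr
      exact measurable_id.sub ((h3.comp h1).mul measurable_const)
    have h5 : Measurable (fun t : ℝ => ((rr T n t : ℝ) : ℂ)) :=
      Complex.measurable_ofReal.comp h4
    exact (h2.comp h1).mul (Complex.measurable_exp.comp (measurable_const.mul h5))
  have hFm : Measurable F := hEm.indicator measurableSet_Ioo
  have hFn : ∀ t, ‖F t‖ ≤ Real.exp (t/4) := by
    intro t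
    by_cases ht : t ∈ Ioo 0 S
    · simp only [F, indicator_of_mem ht]
      exact hEn t ht.1.le ht.2
    · simp only [F, indicator_of_notMem ht, norm_zero]
      exact (Real.exp_pos _).le
  have hF0 : ∀ t, 0 < t → t < (T n : ℝ)/2 → F t = Complex.exp (l * t) := by
    intro t ht0 ht
    have : t ∈ Ioo 0 S := ⟨ht0, by linarith⟩
    simp only [F, indicator_of_mem this]
    exact hE0 t ht0.le ht
  have hF1 : ∀ t, (T n : ℝ)/2 ≤ t → t < 3/2 * (T n : ℝ) →
      F t = z * Complex.exp (l * (t - T n)) := by
    intro t ht0 ht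
    have : t ∈ Ioo 0 S := ⟨by linarith, by linarith⟩
    simp only [F, indicator_of_mem this]
    exact hE1 t ht0 ht
  -- the pieces
  have hexpn : ∀ t : ℝ, 0 ≤ t → ‖Complex.exp (l * t)‖ ≤ Real.exp (t/4) := by
    intro t ht
    rw [Complex.norm_exp]
    apply Real.exp_le_exp.2
    have : (l * (t : ℂ)).re = l.re * t := by simp
    rw [this]
    nlinarith
  have piece0 : ∀ (a s : ℝ), 1 ≤ a → 0 ≤ s → s < (T n : ℝ)/2 → 
      IntegrableOn (fun t : ℝ => (Real.exp (-a * (t - s)) : ℂ) * F t) (Ici s) ∧
      ‖(∫ t in Ici s, (Real.exp (-a * (t - s)) : ℂ) * F t) - Complex.exp (l * s) / (a - l)‖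
        ≤ 8/3 * Real.exp (s - 3 * ((T n : ℝ)/2) / 4) := by
    intro a s ha hs hsT
    have hcomb : ∀ t : ℝ, Complex.exp (l * s) * Complex.exp (l * (t - s)) =
        Complex.exp (l * t) := by
      intro t
      rw [← Complex.exp_add]
      congr 1
      ring
    refine tl_piece a s _ ha hsT _ l hl16 F hFm ?_ (fun t _ => hFn t) ?_
    · intro t ht ht2
      rw [hcomb]
      exact hF0 t (lt_of_le_of_lt hs ht) ht2
    · intro t ht
      rw [hcomb]
      exact hexpn t (by linarith)
  have piece1 : 
      IntegrableOn (fun t : ℝ => (Real.exp (-(aa n) * (t - (T n + τ))) : ℂ) * F t)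
        (Ici (T n + τ)) ∧
      ‖(∫ t in Ici ((T n : ℝ) + τ), (Real.exp (-(aa n) * (t - (T n + τ))) : ℂ) * F t) -
          (z * Complex.exp (l * τ)) / (aa n - l)‖
        ≤ 8/3 * Real.exp ((T n + τ) - 3 * (3/2 * (T n : ℝ)) / 4) := by
    have hcomb : ∀ t : ℝ, (z * Complex.exp (l * τ)) *
        Complex.exp (l * (t - ((T n + τ : ℝ) : ℂ))) = z * Complex.exp (l * (t - T n)) := by
      intro t
      rw [mul_assoc, ← Complex.exp_add]
      congr 2
      push_cast
      ring
    have := tl_piece (aa n) (T n + τ) (3/2 * T n) (tl_aa_one_le n) (by linarith)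
      (z * Complex.exp (l * τ)) l hl16 F hFm ?_ (fun t _ => hFn t) ?_
    · simpa only [Complex.ofReal_add, Complex.ofReal_natCast] using this
    · intro t ht ht2
      rw [hcomb]
      exact hF1 t (by linarith) ht2
    · intro t ht
      rw [hcomb, norm_mul, Complex.norm_exp]
      have h1 : (l * ((t:ℂ) - T n)).re = l.re * (t - T n) := by simp
      rw [h1]
      calc ‖z‖ * Real.exp (l.re * (t - T n)) ≤ Real.exp (cc n) * Real.exp (l.re * (t - T n)) := by
            gcongr
        _ = Real.exp (cc n + l.re * (t - T n)) := (Real.exp_add _ _).symm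
        _ ≤ Real.exp (t/4) := by
            apply Real.exp_le_exp.2
            have h2 := hcc n
            have h3 : 0 ≤ t - T n := by linarith
            nlinarith
  let P : ℝ → ℝ → ℂ := fun a s => ∫ t in Ici s, (Real.exp (-a * (t - s)) : ℂ) * F t
  have hPint : ∀ k ∈ Finset.range (n+1), IntegrableOn
      (fun t : ℝ => (Real.exp (-(aa k) * (t - (T k + τ))) : ℂ) * F t) (Ici (T k + τ)) := by
    intro k hk
    rcases Nat.lt_succ_iff_lt_or_eq.1 (Finset.mem_range.1 hk) with h | h
    · have h8 : (8:ℝ) * T k ≤ T n := by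
        have h1 : T (k+1) ≤ T n := hmono h
        have h2 := hbig k
        exact_mod_cast h2.trans h1
      have := (piece0 (aa k) (T k + τ) (tl_aa_one_le k) (by positivity) (by linarith)).1
      exact this
    · subst h
      exact piece1.1
  have hKK : KK T n (fun t => (ff T (t - τ) : ℂ)) l =
      P 1 τ - ∑ k ∈ Finset.range (n+1), (bet k : ℂ) * P (aa k) (T k + τ) := by
    have h1 : KK T n (fun t => (ff T (t - τ) : ℂ)) l =
        ∫ t in Ioo 0 S, (ff T (t - τ) : ℂ) * E t := by
      unfold KK HH
      simp only [E]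
      rw [hS, hz]
    rw [h1, ← integral_indicator measurableSet_Ioo]
    have h2 : ∀ t : ℝ, (Ioo 0 S).indicator (fun t => (ff T (t - τ) : ℂ) * E t) t =
        (Ici τ).indicator (fun t : ℝ => (Real.exp (-1 * (t - τ)) : ℂ) * F t) t -
        ∑ k ∈ Finset.range (n+1), (bet k : ℂ) * (Ici ((T k : ℝ) + τ)).indicator
          (fun t : ℝ => (Real.exp (-(aa k) * (t - (T k + τ))) : ℂ) * F t) t := by
      intro t
      by_cases ht : t ∈ Ioo 0 S
      · have hFE : F t = E t := by simp only [F, indicator_of_mem ht]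
        rw [indicator_of_mem ht]
        have h3 : ∑' k, echo T k (t - τ) = ∑ k ∈ Finset.range (n+1), echo T k (t - τ) := by
          apply tsum_eq_sum
          intro k hk
          unfold echo
          rw [if_neg]
          intro h
          have h4 : n + 1 ≤ k := by
            by_contra h5
            exact hk (Finset.mem_range.2 (by omega))
          have h5 : (T (n+1) : ℝ) ≤ T k := by exact_mod_cast hmono h4
          have h6 := ht.2
          have h7 := hTpos (n+1)
          rw [hS] at h6
          linarith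
        unfold ff
        rw [h3]
        push_cast
        rw [sub_mul, Finset.sum_mul]
        congr 1
        · by_cases htτ : τ ≤ t
          · rw [if_pos (by linarith), indicator_of_mem (show t ∈ Ici τ from htτ), hFE]
            congr 2
            push_cast
            ring_nf
          · rw [if_neg (by linarith), indicator_of_notMem (show t ∉ Ici τ from htτ)]
            simp
        · apply Finset.sum_congr rfl
          intro k _
          unfold echo
          by_cases htτ : (T k : ℝ) + τ ≤ t
          · rw [if_pos (by linarith), indicator_of_mem (show t ∈ Ici ((T k : ℝ) + τ) from htτ), hFE]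
            push_cast
            rw [mul_assoc]
            congr 3
            ring
          · rw [if_neg (by linarith), indicator_of_notMem (show t ∉ Ici ((T k : ℝ) + τ) from htτ)]
            simp
      · have hF0 : F t = 0 := by simp only [F, indicator_of_notMem ht]
        rw [indicator_of_notMem ht]
        have h3 : ∀ (A : Set ℝ) (g : ℝ → ℂ), A.indicator (fun t => g t * F t) t = 0 := by
          intro A g
          by_cases hA : t ∈ A
          · rw [indicator_of_mem hA, hF0, mul_zero]
          · rw [indicator_of_notMem hA]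
        simp only [h3, mul_zero, Finset.sum_const_zero, sub_zero]
    simp_rw [h2]
    rw [integral_sub, integral_finsetSum]
    · congr 1
      · rw [integral_indicator measurableSet_Ici]
      · apply Finset.sum_congr rfl
        intro k hk
        rw [integral_const_mul, integral_indicator measurableSet_Ici]
    · intro k hk
      exact ((integrable_indicator_iff measurableSet_Ici).2 (hPint k hk)).const_mul _
    · have := (piece0 1 τ le_rfl hτ.le (by linarith)).1
      exact (integrable_indicator_iff measurableSet_Ici).2 this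
    · apply integrable_finsetSum
      intro k hk
      exact ((integrable_indicator_iff measurableSet_Ici).2 (hPint k hk)).const_mul _
  -- main terms
  have hne : ∀ k, (aa k : ℂ) - l ≠ 0 := by
    intro k h
    have h1 : ((aa k : ℂ) - l).re = 0 := by rw [h]; rfl
    simp at h1
    have := tl_aa_one_le k
    linarith
  have hne1 : (1 : ℂ) - l ≠ 0 := by
    intro h
    have h1 : ((1 : ℂ) - l).re = 0 := by rw [h]; rfl
    simp at h1
    linarith
  have hmain : Complex.exp (l * τ) / (1 - l) -
      ((∑ k ∈ Finset.range n, (bet k : ℂ) * (Complex.exp (l * ((T k : ℝ) + τ : ℝ)) / (aa k - l))) +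
        (bet n : ℂ) * ((z * Complex.exp (l * τ)) / (aa n - l))) = 0 := by
    have h1 : chi n l * z = 1 - ∑ i ∈ Finset.range n, chi i l * Complex.exp (l * T i) := by
      rw [hz, zet]
      exact mul_div_cancel₀ _ (hchi n l hl hlb)
    have h2 : ∀ k, (bet k : ℂ) * (Complex.exp (l * ((T k : ℝ) + τ : ℝ)) / (aa k - l)) =
        Complex.exp (l * τ) / (1 - l) * (chi k l * Complex.exp (l * T k)) := by
      intro k
      unfold chi
      have : Complex.exp (l * ((T k : ℝ) + τ : ℝ)) =
          Complex.exp (l * τ) * Complex.exp (l * T k) := by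
        rw [← Complex.exp_add]
        congr 1
        push_cast
        ring
      rw [this]
      have := hne k
      field_simp
    have h3 : (bet n : ℂ) * ((z * Complex.exp (l * τ)) / (aa n - l)) =
        Complex.exp (l * τ) / (1 - l) * (chi n l * z) := by
      unfold chi
      have := hne n
      field_simp
    rw [Finset.sum_congr rfl (fun k _ => h2 k), ← Finset.mul_sum, h3, h1]
    ring
  -- errors
  have hbet : ∀ k, 0 < bet k := fun k => by unfold bet; positivity
  have e0 : ‖P 1 τ - Complex.exp (l * τ) / (1 - l)‖ ≤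
      8/3 * Real.exp τ * Real.exp (-(T n : ℝ) / 8) := by
    have := (piece0 1 τ le_rfl hτ.le (by linarith)).2
    simp only [P]
    rw [Complex.ofReal_one] at this
    refine this.trans ?_
    rw [mul_assoc, ← Real.exp_add]
    gcongr
    linarith
  have ek : ∀ k ∈ Finset.range n, ‖(bet k : ℂ) * P (aa k) (T k + τ) -
      (bet k : ℂ) * (Complex.exp (l * ((T k : ℝ) + τ : ℝ)) / (aa k - l))‖ ≤
      bet k * (8/3 * Real.exp τ * Real.exp (-(T n : ℝ) / 8)) := by
    intro k hk
    have h8 : (8:ℝ) * T k ≤ T n := by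
      have h1 : T (k+1) ≤ T n := hmono (Finset.mem_range.1 hk)
      have h2 := hbig k
      exact_mod_cast h2.trans h1
    have := (piece0 (aa k) (T k + τ) (tl_aa_one_le k) (by positivity) (by linarith)).2
    rw [← mul_sub, norm_mul, Complex.norm_real, Real.norm_eq_abs, abs_of_pos (hbet k)]
    refine mul_le_mul_of_nonneg_left ?_ (hbet k).le
    simp only [P]
    refine this.trans ?_
    rw [mul_assoc, ← Real.exp_add]
    gcongr
    linarith
  have en : ‖(bet n : ℂ) * P (aa n) (T n + τ) -
      (bet n : ℂ) * ((z * Complex.exp (l * τ)) / (aa n - l))‖ ≤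
      bet n * (8/3 * Real.exp τ * Real.exp (-(T n : ℝ) / 8)) := by
    rw [← mul_sub, norm_mul, Complex.norm_real, Real.norm_eq_abs, abs_of_pos (hbet n)]
    refine mul_le_mul_of_nonneg_left ?_ (hbet n).le
    simp only [P]
    have := piece1.2
    push_cast at this ⊢
    refine this.trans ?_
    rw [mul_assoc, ← Real.exp_add]
    gcongr
    linarith
  have hfin : KK T n (fun t => (ff T (t - τ) : ℂ)) l =
      (P 1 τ - Complex.exp (l * τ) / (1 - l)) -
      ((∑ k ∈ Finset.range n, ((bet k : ℂ) * P (aa k) (T k + τ) -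
        (bet k : ℂ) * (Complex.exp (l * ((T k : ℝ) + τ : ℝ)) / (aa k - l)))) +
      ((bet n : ℂ) * P (aa n) (T n + τ) -
      (bet n : ℂ) * ((z * Complex.exp (l * τ)) / (aa n - l)))) := by
    rw [hKK, Finset.sum_range_succ, Finset.sum_sub_distrib]
    linear_combination hmain
  rw [hfin]
  have hb : ∑ k ∈ Finset.range (n+1), bet k ≤ 1/2 := by
    rw [tl_sum_bet]
    have : (0:ℝ) < (1/2)^(n+1+1) := by positivity
    linarith
  have hC : 0 < 8/3 * Real.exp τ * Real.exp (-(T n : ℝ) / 8) := by positivity
  calc _ ≤ 8/3 * Real.exp τ * Real.exp (-(T n : ℝ) / 8) +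
        ((∑ k ∈ Finset.range n, bet k * (8/3 * Real.exp τ * Real.exp (-(T n : ℝ) / 8))) +
        bet n * (8/3 * Real.exp τ * Real.exp (-(T n : ℝ) / 8))) := by
        refine (norm_sub_le _ _).trans (add_le_add e0 ((norm_add_le _ _).trans (add_le_add ?_ en)))
        exact norm_sum_le_of_le _ ek
    _ = (1 + ∑ k ∈ Finset.range (n+1), bet k) *
        (8/3 * Real.exp τ * Real.exp (-(T n : ℝ) / 8)) := by
        rw [Finset.sum_range_succ, ← Finset.sum_mul]
        ring
    _ ≤ (1 + 1/2) * (8/3 * Real.exp τ * Real.exp (-(T n : ℝ) / 8)) := by gcongr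
    _ ≤ 8 * Real.exp τ * Real.exp (-(T n : ℝ) / 8) := by
        have : 0 < Real.exp τ * Real.exp (-(T n : ℝ) / 8) := by positivity
        nlinarith

end MP27fa52
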