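import Pool.Agent.MP27fa52.MainStep
import Pool.Agent.MP27fa52.FF
import Pool.Agent.MP27fa52.Top

open MeasureTheory Set Filter Topology

namespace MP27fa52

/-- downward induction -/
theorem descend {T : ℕ → ℕ} (G : Good T) {h : ℝ → ℂ} {M : ℝ} (hM : 0 < M) (H : Adm T h M)
    (n : ℕ)
    (hyp : ∀ l : ℂ, |l.re| ≤ eps T n / 4 → bot n + 1 ≤ l.im → ‖KK T n h l‖ ≤ del T n * M) :
    ‖KK T 0 h 0‖ ≤ M / 2 := by
  have key : ∀ n, (∀ l : ℂ, |l.re| ≤ eps T n / 4 → bot n + 1 ≤ l.im →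
      ‖KK T n h l‖ ≤ del T n * M) → (∀ l : ℂ, |l.re| ≤ eps T 0 / 4 → bot 0 + 1 ≤ l.im →
      ‖KK T 0 h l‖ ≤ del T 0 * M) := by
    intro n
    induction n with
    | zero => exact fun h => h
    | succ n ih => exact fun h' => ih (main_step G hM H n h')
  have := key n hyp 0 (by simp [eps]; norm_num) (by simp [bot])
  simp only [del] at this
  linarith

theorem tendsto_mul_exp_T {T : ℕ → ℕ} (hT : Tendsto (fun n => (T n : ℝ)) atTop atTop) (C : ℝ) :
    Tendsto (fun n => C * ((T n : ℝ) * Real.exp (-(T n : ℝ) / 8))) atTop (𝓝 0) := by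
  have h1 : Tendsto (fun x : ℝ => x ^ 1 * Real.exp (-x)) atTop (𝓝 0) :=
    Real.tendsto_pow_mul_exp_neg_atTop_nhds_zero 1
  have h2 : Tendsto (fun x : ℝ => x / 8) atTop atTop :=
    tendsto_id.atTop_div_const (by norm_num)
  have h3 := ((h1.comp h2).comp hT).const_mul (C * 8)
  rw [mul_zero] at h3
  refine h3.congr fun n => ?_
  simp only [Function.comp]
  rw [show -((T n : ℝ) / 8) = -(T n : ℝ) / 8 by ring]
  ring

theorem core {T : ℕ → ℕ} (G : Good T) (s : Finset ℝ) (hs : ∀ τ ∈ s, 0 < τ) (q : ℝ → ℂ) (M : ℝ)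
    (hM : 0 < M)
    (hle : ∫ t in Ioi (0:ℝ), ‖∑ τ ∈ s, q τ * (ff T (t - τ) : ℂ)‖ * phi T t ≤ M) :
    ‖KK T 0 (fun t => ∑ τ ∈ s, q τ * (ff T (t - τ) : ℂ)) 0‖ ≤ M / 2 := by
  have hpos := G.pos
  have hdvd := G.dvd
  have hhalf := G.eps_half
  obtain ⟨w1, w2, w3, w4, w5, _, _⟩ := weight_facts T hpos hdvd hhalf
  obtain ⟨f1, f2, f3, f4, _⟩ := ff_facts T hpos G.big w1 w2 w3 w4 w5
  have hTR : ∀ n, (0:ℝ) < T n := fun n => by exact_mod_cast hpos n
  have hTge : ∀ n : ℕ, (n:ℝ) ≤ T n := by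
    intro n
    have := T_ge hpos G.big n
    have h1 : n ≤ T n := by omega
    exact_mod_cast h1
  have hTt : Tendsto (fun n => (T n : ℝ)) atTop atTop :=
    tendsto_atTop_mono hTge tendsto_natCast_atTop_atTop
  set h : ℝ → ℂ := fun t => ∑ τ ∈ s, q τ * (ff T (t - τ) : ℂ) with hh
  have hmτ : ∀ τ : ℝ, Measurable (fun t => (ff T (t - τ) : ℂ)) := by
    intro τ
    exact Complex.measurable_ofReal.comp (f1.comp (measurable_id.sub_const τ))
  have hmeas : Measurable h := by
    rw [hh]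
    exact Finset.measurable_fun_sum s fun τ _ => (hmτ τ).const_mul _
  have hintτ : ∀ τ ∈ s, IntegrableOn (fun t => ‖(ff T (t - τ) : ℂ)‖ * phi T t) (Ioi 0) := by
    intro τ hτ
    have := f4 τ (hs τ hτ)
    refine this.congr_fun ?_ measurableSet_Ioi
    intro t _
    simp only
    rw [Complex.norm_real, Real.norm_eq_abs]
  have hint : IntegrableOn (fun t => ‖h t‖ * phi T t) (Ioi 0) := by
    have hsum : IntegrableOn (fun t => ∑ τ ∈ s, ‖q τ‖ * (‖(ff T (t - τ) : ℂ)‖ * phi T t)) (Ioi 0) :=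
      integrable_finsetSum s fun τ hτ => (hintτ τ hτ).const_mul _
    refine Integrable.mono' hsum ?_ ?_
    · exact (hmeas.norm.mul w1).aestronglyMeasurable
    · filter_upwards with t
      have hp : 0 ≤ phi T t := (Real.exp_pos _).le
      rw [norm_mul, norm_norm, Real.norm_of_nonneg hp, hh]
      simp only
      calc ‖∑ τ ∈ s, q τ * (ff T (t - τ) : ℂ)‖ * phi T t
          ≤ (∑ τ ∈ s, ‖q τ * (ff T (t - τ) : ℂ)‖) * phi T t :=
            mul_le_mul_of_nonneg_right (norm_sum_le _ _) hp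
        _ = ∑ τ ∈ s, ‖q τ‖ * (‖(ff T (t - τ) : ℂ)‖ * phi T t) := by
            rw [Finset.sum_mul]
            apply Finset.sum_congr rfl
            intro τ _
            rw [norm_mul]; ring
  have H : Adm T h M := ⟨hmeas.aestronglyMeasurable, hint, hle⟩
  have hcc16 : ∀ n, cc n ≤ (T n : ℝ) / 16 := by
    intro n
    have h1 := hhalf n
    have h2 := eps_le T hpos hhalf n
    rw [div_le_iff₀ (hTR n)] at h1
    have := hTR n
    nlinarith
  -- top level
  have htop : ∀ τ ∈ s, ∀ᶠ n : ℕ in atTop, ∀ l : ℂ, |l.re| ≤ eps T n / 2 → bot n < l.im →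
      ‖KK T n (fun t => (ff T (t - τ) : ℂ)) l‖ ≤ 8 * Real.exp τ * Real.exp (-(T n : ℝ) / 8) := by
    intro τ hτ
    refine top_level T hpos hdvd G.big (eps_pos T hpos) (eps_le T hpos hhalf) w4
      (fun n t h0 h1 => weight_lower1 T hpos hdvd hhalf n t h0 h1) hcc16 ?_ ?_ τ (hs τ hτ)
    · intro n l hl hi
      have h8 := eps_le T hpos hhalf n
      have := (le_abs_self l.re).trans hl
      exact chi_ne n l (by linarith) hi
    · intro n l hl hi
      have := cc_pos n
      exact (zet_le T hpos hhalf n l hl hi).trans (Real.exp_le_exp.2 (by linarith))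
  have htop' := (Filter.eventually_all_finset s).2 htop
  set C : ℝ := ∑ τ ∈ s, ‖q τ‖ * (8 * Real.exp τ) with hC
  have hsmall := (tendsto_mul_exp_T hTt C).eventually (ge_mem_nhds hM)
  obtain ⟨n, hn1, hn2, hn3⟩ := (htop'.and (hsmall.and (eventually_ge_atTop 1))).exists
  apply descend G hM H n
  intro l hl1 hl2
  have he := eps_pos T hpos n
  have hlA : |l.re| ≤ eps T n / 2 := by linarith
  have hlB : bot n < l.im := by linarith
  -- linearity
  have hlin : KK T n h l = ∑ τ ∈ s, q τ * KK T n (fun t => (ff T (t - τ) : ℂ)) l := by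
    simp only [KK_eq]
    rw [hh]
    simp only
    have : ∀ t : ℝ, (∑ τ ∈ s, q τ * (ff T (t - τ) : ℂ)) * E1 T n l (zet T n l) t
        = ∑ τ ∈ s, q τ * ((ff T (t - τ) : ℂ) * E1 T n l (zet T n l) t) := by
      intro t
      rw [Finset.sum_mul]
      apply Finset.sum_congr rfl
      intro τ _
      ring
    simp_rw [this]
    rw [integral_finsetSum]
    · apply Finset.sum_congr rfl
      intro τ _
      rw [integral_const_mul]
    · intro τ hτ
      apply Integrable.const_mul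
      have hsub : Ioo (0:ℝ) ((T (n+1) : ℝ) / 2) ⊆ Ioi 0 := fun t ht => ht.1
      refine Integrable.mono' ((hintτ τ hτ).mono_set hsub) ?_ ?_
      · exact ((hmτ τ).mul (measurable_E1 T n l _)).aestronglyMeasurable
      · rw [ae_restrict_iff' measurableSet_Ioo]
        filter_upwards with t ht
        rw [norm_mul]
        refine mul_le_mul_of_nonneg_left ?_ (norm_nonneg _)
        refine E1_le T hpos hdvd hhalf n l _ hlA ?_ t ht
        have := cc_pos n
        exact (zet_le T hpos hhalf n l hlA hlB).trans (Real.exp_le_exp.2 (by linarith))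
  rw [hlin]
  have hb : ‖∑ τ ∈ s, q τ * KK T n (fun t => (ff T (t - τ) : ℂ)) l‖
      ≤ C * Real.exp (-(T n : ℝ) / 8) := by
    refine (norm_sum_le _ _).trans ?_
    rw [hC, Finset.sum_mul]
    apply Finset.sum_le_sum
    intro τ hτ
    rw [norm_mul, mul_assoc]
    exact mul_le_mul_of_nonneg_left (hn1 τ hτ l hlA hlB) (norm_nonneg _)
  refine hb.trans ?_
  have hTn := hTR n
  have h5 : C * Real.exp (-(T n : ℝ) / 8) ≤ 1 / T n * M := by
    rw [one_div_mul_eq_div, le_div_iff₀ hTn]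
    calc _ = C * ((T n : ℝ) * Real.exp (-(T n : ℝ) / 8)) := by ring
      _ ≤ M := hn2
  refine h5.trans ?_
  obtain ⟨k, rfl⟩ : ∃ k, n = k + 1 := ⟨n - 1, by omega⟩
  simp only [del]
  have hk : (T k : ℝ) ≤ T (k+1) := by
    have := G.big k
    have : T k ≤ T (k+1) := by omega
    exact_mod_cast this
  exact mul_le_mul_of_nonneg_right (one_div_le_one_div_of_le (hTR k) hk) hM.le

end MP27fa52
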