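import Mathlib

open MeasureTheory Set Filter Topology

namespace MP27fa52

/-- amplitude of the `k`-th echo -/
noncomputable def bet (k : ℕ) : ℝ := (1/2) ^ (k+2)

/-- logarithmic size of the weight at the `k`-th period -/
noncomputable def cc (k : ℕ) : ℝ := 16 * (k+1) * Real.log 2

/-- decay rate of the `k`-th echo -/
noncomputable def aa : ℕ → ℝ
  | 0 => 1
  | (k+1) => Real.exp (2 * cc (k+1))

/-- slopes of the weight -/
noncomputable def eps (T : ℕ → ℕ) : ℕ → ℝ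
  | 0 => 1/8
  | (k+1) => cc k / T k

/-- number of the period of length `T n` -/
noncomputable def mm (T : ℕ → ℕ) (n : ℕ) (t : ℝ) : ℤ := round (t / (T n : ℝ))

/-- signed distance to the nearest multiple of `T n` -/
noncomputable def rr (T : ℕ → ℕ) (n : ℕ) (t : ℝ) : ℝ := t - mm T n t * (T n : ℝ)

/-- logarithm of the weight -/
noncomputable def theta (T : ℕ → ℕ) (t : ℝ) : ℝ := ∑' k, eps T k * |rr T k t|

/-- the weight -/
noncomputable def phi (T : ℕ → ℕ) (t : ℝ) : ℝ := Real.exp (theta T t)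

/-- the `k`-th echo -/
noncomputable def echo (T : ℕ → ℕ) (k : ℕ) (t : ℝ) : ℝ :=
  if (T k : ℝ) ≤ t then bet k * Real.exp (-(aa k) * (t - T k)) else 0

/-- the function whose translates are considered -/
noncomputable def ff (T : ℕ → ℕ) (t : ℝ) : ℝ :=
  (if 0 ≤ t then Real.exp (-t) else 0) - ∑' k, echo T k t

/-- bottom of the region of level `n` -/
noncomputable def bot : ℕ → ℝ
  | 0 => -1
  | (k+1) => aa (k+1)

noncomputable def del (T : ℕ → ℕ) : ℕ → ℝ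
  | 0 => 1/2
  | (k+1) => 1 / T k

noncomputable def stepC (n : ℕ) : ℝ := 2 * cc n + 25

/-- admissible sequences of periods -/
structure Good (T : ℕ → ℕ) : Prop where
  pos : ∀ n, 1 ≤ T n
  dvd : ∀ n, T n ∣ T (n+1)
  big : ∀ n, 8 * T n ≤ T (n+1)
  eps_half : ∀ n, cc n / T n ≤ eps T n / 2
  step : ∀ n, ∀ K : ℂ → ℂ,
    DifferentiableOn ℂ K {l | |l.re| < eps T n / 2 ∧ bot n < l.im} →
    (∀ l : ℂ, |l.re| < eps T n / 2 → bot n < l.im → ‖K l‖ ≤ 1) →
    (∀ y : ℝ, bot (n+1) + 2 ≤ y → ‖K (y * Complex.I)‖ ≤ stepC n / (eps T n * T n)) →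
    ∀ l : ℂ, |l.re| ≤ eps T n / 4 → bot n + 1 ≤ l.im → ‖K l‖ ≤ del T n

noncomputable def chi (k : ℕ) (l : ℂ) : ℂ := bet k * (1 - l) / (aa k - l)

noncomputable def zet (T : ℕ → ℕ) (n : ℕ) (l : ℂ) : ℂ :=
  (1 - ∑ i ∈ Finset.range n, chi i l * Complex.exp (l * T i)) / chi n l

noncomputable def HH (T : ℕ → ℕ) (n : ℕ) (h : ℝ → ℂ) (l z : ℂ) : ℂ :=
  ∫ t in Ioo (0:ℝ) (T (n+1) / 2), h t * (z ^ (mm T n t).toNat * Complex.exp (l * rr T n t))

noncomputable def KK (T : ℕ → ℕ) (n : ℕ) (h : ℝ → ℂ) (l : ℂ) : ℂ := HH T n h l (zet T n l)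

end MP27fa52
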