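import Mathlib

open MeasureTheory Set Filter Topology
open scoped ENNReal ComplexConjugate

namespace MP27fa52

/-- Hahn-Banach for a functional given through a linear parametrisation. -/
lemma exists_clm {V L : Type*} [AddCommGroup V] [Module ℂ V] [NormedAddCommGroup L]
    [NormedSpace ℂ L] (T : V →ₗ[ℂ] L) (l : V →ₗ[ℂ] ℂ) (C : ℝ)
    (h : ∀ v, ‖l v‖ ≤ C * ‖T v‖) :
    ∃ g : L →L[ℂ] ℂ, ∀ v, g (T v) = l v := by
  classical
  obtain ⟨s, hs⟩ := T.rangeRestrict.exists_rightInverse_of_surjective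
    (LinearMap.range_rangeRestrict T)
  have hTs : ∀ w : LinearMap.range T, T (s w) = w := by
    intro w
    have := congrArg (fun φ : LinearMap.range T →ₗ[ℂ] LinearMap.range T => φ w) hs
    simp only [LinearMap.comp_apply, LinearMap.id_apply] at this
    have h2 := congrArg (Subtype.val) this
    simpa using h2
  let l0 : LinearMap.range T →ₗ[ℂ] ℂ := l.comp s
  have hl0 : ∀ w, ‖l0 w‖ ≤ C * ‖w‖ := by
    intro w
    have := h (s w)
    rw [hTs w] at this
    exact this
  let l1 : LinearMap.range T →L[ℂ] ℂ := l0.mkContinuous C hl0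
  obtain ⟨g, hg, -⟩ := exists_extension_norm_eq (LinearMap.range T) l1
  refine ⟨g, fun v => ?_⟩
  have h1 := hg ⟨T v, LinearMap.mem_range_self T v⟩
  simp only at h1
  rw [h1]
  change l (s ⟨T v, _⟩) = l v
  have h2 : ‖l (s ⟨T v, LinearMap.mem_range_self T v⟩ - v)‖ ≤ 0 := by
    refine (h _).trans ?_
    rw [map_sub, hTs]
    simp
  have h3 : l (s ⟨T v, LinearMap.mem_range_self T v⟩ - v) = 0 := by
    simpa using h2
  rw [map_sub, sub_eq_zero] at h3
  exact h3

/-- Bounded functionals on `L¹` of a probability space are given by bounded functions. -/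
lemma exists_bounded_of_clm {Ω : Type*} [MeasurableSpace Ω] (P : Measure Ω)
    [IsProbabilityMeasure P] (g : Lp ℂ 1 P →L[ℂ] ℂ) :
    ∃ f : Ω → ℂ, AEStronglyMeasurable f P ∧ (∀ᵐ x ∂P, ‖f x‖ ≤ ‖g‖) ∧
      ∀ (φ : Ω → ℂ) (_ : MemLp φ 2 P) (h1 : MemLp φ 1 P), ∫ x, φ x * f x ∂P = g (h1.toLp φ) := by
  classical
  -- inclusion
  let incl : Lp ℂ 2 P →ₗ[ℂ] Lp ℂ 1 P :=
    { toFun := fun φ => ((Lp.memLp φ).mono_exponent (by norm_num : (1 : ℝ≥0∞) ≤ 2)).toLp φ
      map_add' := by
        intro a b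
        rw [← MemLp.toLp_add, MemLp.toLp_eq_toLp_iff]
        exact Lp.coeFn_add a b
      map_smul' := by
        intro c a
        rw [RingHom.id_apply, ← MemLp.toLp_const_smul, MemLp.toLp_eq_toLp_iff]
        exact Lp.coeFn_smul c a }
  have hincl : ∀ φ, ‖incl φ‖ ≤ 1 * ‖φ‖ := by
    intro φ
    rw [one_mul]
    change ‖MemLp.toLp (φ : Ω → ℂ)
      ((Lp.memLp φ).mono_exponent (by norm_num : (1 : ℝ≥0∞) ≤ 2))‖ ≤ _
    rw [Lp.norm_toLp, Lp.norm_def]
    refine ENNReal.toReal_mono (Lp.eLpNorm_ne_top φ) ?_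
    exact eLpNorm_le_eLpNorm_of_exponent_le (by norm_num) (Lp.aestronglyMeasurable φ)
  let inclC : Lp ℂ 2 P →L[ℂ] Lp ℂ 1 P := incl.mkContinuous 1 hincl
  let G : StrongDual ℂ (Lp ℂ 2 P) := g.comp inclC
  let h : Lp ℂ 2 P := (InnerProductSpace.toDual ℂ (Lp ℂ 2 P)).symm G
  have hG : ∀ φ : Lp ℂ 2 P, inner ℂ h φ = g (incl φ) := by
    intro φ
    have : inner ℂ h φ = G φ := InnerProductSpace.toDual_symm_apply
    rw [this]
    rfl
  let f : Ω → ℂ := fun x => conj (h x)
  have hf2 : MemLp f 2 P := by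
    have := (Lp.memLp h).star
    exact this
  -- the pairing
  have hpair : ∀ (φ : Ω → ℂ) (h2 : MemLp φ 2 P) (h1 : MemLp φ 1 P),
      ∫ x, φ x * f x ∂P = g (h1.toLp φ) := by
    intro φ h2 h1
    have e1 : incl (h2.toLp φ) = h1.toLp φ := by
      change MemLp.toLp (h2.toLp φ : Ω → ℂ)
        ((Lp.memLp (h2.toLp φ)).mono_exponent (by norm_num : (1 : ℝ≥0∞) ≤ 2)) = _
      rw [MemLp.toLp_eq_toLp_iff]
      exact h2.coeFn_toLp
    rw [← e1, ← hG, L2.inner_def]
    refine integral_congr_ae ?_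
    filter_upwards [h2.coeFn_toLp] with x hx
    rw [hx]
    simp [f, RCLike.inner_apply]
  have hfint : Integrable f P := memLp_one_iff_integrable.1 (hf2.mono_exponent (by norm_num))
  -- the bound
  have hbd : ∀ᵐ x ∂P, ‖f x‖ ≤ ‖g‖ := by
    have key : (fun x => ‖f x‖) ≤ᵐ[P] fun _ => ‖g‖ := by
      refine ae_le_of_forall_setIntegral_le hfint.norm (integrable_const _) ?_
      intro s hs _
      -- test function
      let φ : Ω → ℂ := s.indicator (fun x => conj (f x) / (‖f x‖ : ℂ))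
      have hφm : AEStronglyMeasurable φ P := by
        refine AEStronglyMeasurable.indicator ?_ hs
        have hm : AEMeasurable f P := hf2.1.aemeasurable
        exact ((Complex.continuous_conj.measurable.comp_aemeasurable hm).div
          (Complex.measurable_ofReal.comp_aemeasurable hm.norm)).aestronglyMeasurable
      have hφb : ∀ x, ‖φ x‖ ≤ s.indicator (fun _ => (1 : ℝ)) x := by
        intro x
        by_cases hx : x ∈ s
        · simp only [φ, Set.indicator_of_mem hx]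
          rw [norm_div, RCLike.norm_conj, Complex.norm_real, norm_norm]
          exact div_self_le_one _
        · simp [φ, Set.indicator_of_notMem hx]
      have hφb1 : ∀ x, ‖φ x‖ ≤ 1 := by
        intro x
        refine (hφb x).trans ?_
        by_cases hx : x ∈ s <;> simp [hx]
      have hφtop : MemLp φ ⊤ P := memLp_top_of_bound hφm 1 (Filter.Eventually.of_forall hφb1)
      have hφ2 : MemLp φ 2 P := hφtop.mono_exponent le_top
      have hφ1 : MemLp φ 1 P := hφtop.mono_exponent le_top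
      have e1 := hpair φ hφ2 hφ1
      have e2 : ∫ x, φ x * f x ∂P = ((∫ x in s, ‖f x‖ ∂P : ℝ) : ℂ) := by
        rw [← integral_indicator hs, ← integral_complex_ofReal]
        refine integral_congr_ae (Filter.Eventually.of_forall fun x => ?_)
        by_cases hx : x ∈ s
        · simp only [φ, Set.indicator_of_mem hx]
          by_cases h0 : f x = 0
          · simp [h0]
          · have hn : (‖f x‖ : ℂ) ≠ 0 := by
              exact_mod_cast (norm_ne_zero_iff.2 h0)
            rw [div_mul_eq_mul_div, Complex.conj_mul', sq]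
            field_simp
        · simp [φ, Set.indicator_of_notMem hx]
      have e3 : ‖g (hφ1.toLp φ)‖ ≤ ‖g‖ * ‖hφ1.toLp φ‖ := g.le_opNorm _
      have e4 : ‖hφ1.toLp φ‖ ≤ (P s).toReal := by
        rw [Lp.norm_toLp]
        refine ENNReal.toReal_mono (measure_ne_top _ _) ?_
        rw [eLpNorm_one_eq_lintegral_enorm]
        calc ∫⁻ x, ‖φ x‖ₑ ∂P ≤ ∫⁻ x, s.indicator (fun _ => (1 : ℝ≥0∞)) x ∂P := by
              refine lintegral_mono fun x => ?_
              by_cases hx : x ∈ s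
              · simp only [Set.indicator_of_mem hx]
                have := hφb1 x
                rw [← ofReal_norm]
                exact ENNReal.ofReal_le_one.2 this
              · simp [φ, Set.indicator_of_notMem hx]
          _ = P s := by rw [lintegral_indicator hs]; simp
      have e5 : ∫ x in s, ‖f x‖ ∂P = ‖g (hφ1.toLp φ)‖ := by
        rw [← e1, e2, Complex.norm_real, Real.norm_of_nonneg]
        exact integral_nonneg fun x => norm_nonneg _
      rw [e5]
      refine e3.trans ?_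
      rw [setIntegral_const, smul_eq_mul, mul_comm]
      exact mul_le_mul_of_nonneg_right e4 (norm_nonneg g)
    exact key
  exact ⟨f, hf2.1, hbd, hpair⟩


/-- full representation -/
lemma exists_rep {Ω : Type*} [MeasurableSpace Ω] (P : Measure Ω)
    [IsProbabilityMeasure P] (g : Lp ℂ 1 P →L[ℂ] ℂ) :
    ∃ f : Ω → ℂ, Measurable f ∧ (∀ x, ‖f x‖ ≤ ‖g‖) ∧
      ∀ (φ : Ω → ℂ) (h1 : MemLp φ 1 P), ∫ x, φ x * f x ∂P = g (h1.toLp φ) := by
  classical
  obtain ⟨f0, hf0m, hf0b, hf0⟩ := exists_bounded_of_clm P g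
  let f1 : Ω → ℂ := hf0m.mk f0
  have hf1m : Measurable f1 := hf0m.stronglyMeasurable_mk.measurable
  have hf1e : f0 =ᵐ[P] f1 := hf0m.ae_eq_mk
  let f : Ω → ℂ := fun x => if ‖f1 x‖ ≤ ‖g‖ then f1 x else 0
  have hfm : Measurable f :=
    Measurable.ite (measurableSet_le hf1m.norm measurable_const) hf1m measurable_const
  have hfb : ∀ x, ‖f x‖ ≤ ‖g‖ := by
    intro x
    simp only [f]
    split_ifs with h
    · exact h
    · rw [norm_zero]; exact norm_nonneg _
  have hfe : f0 =ᵐ[P] f := by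
    filter_upwards [hf1e, hf0b] with x h1 h2
    simp only [f]
    rw [← h1, if_pos h2]
  have hint : ∀ φ : Ω → ℂ, Integrable φ P → Integrable (fun x => φ x * f x) P := by
    intro φ hφ
    have := hφ.bdd_mul (c := ‖g‖) hfm.aestronglyMeasurable (Filter.Eventually.of_forall hfb)
    refine this.congr (Filter.Eventually.of_forall fun x => ?_)
    show f x * φ x = φ x * f x
    ring
  let Φ0 : Lp ℂ 1 P →ₗ[ℂ] ℂ :=
    { toFun := fun ψ => ∫ x, ψ x * f x ∂P
      map_add' := by
        intro a b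
        rw [← integral_add (hint _ (L1.integrable_coeFn a)) (hint _ (L1.integrable_coeFn b))]
        apply integral_congr_ae
        filter_upwards [Lp.coeFn_add a b] with x hx
        rw [hx, Pi.add_apply]
        ring
      map_smul' := by
        intro c a
        rw [RingHom.id_apply, smul_eq_mul, ← integral_const_mul]
        apply integral_congr_ae
        filter_upwards [Lp.coeFn_smul c a] with x hx
        rw [hx, Pi.smul_apply, smul_eq_mul]
        ring }
  have hΦ0 : ∀ ψ, ‖Φ0 ψ‖ ≤ ‖g‖ * ‖ψ‖ := by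
    intro ψ
    show ‖∫ x, ψ x * f x ∂P‖ ≤ ‖g‖ * ‖ψ‖
    rw [L1.norm_eq_integral_norm, ← integral_const_mul]
    apply norm_integral_le_of_norm_le ((L1.integrable_coeFn ψ).norm.const_mul _)
    filter_upwards with x
    rw [norm_mul, mul_comm]
    exact mul_le_mul_of_nonneg_right (hfb x) (norm_nonneg _)
  let Φ : Lp ℂ 1 P →L[ℂ] ℂ := Φ0.mkContinuous ‖g‖ hΦ0
  have key : ∀ ψ : Lp ℂ 1 P, Φ ψ = g ψ := by
    intro ψ
    refine Lp.induction (E := ℂ) (p := 1) (μ := P) (by norm_num) (fun ψ => Φ ψ = g ψ) ?_ ?_ ?_ ψ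
    · intro c s hs hμs
      have h1 : MemLp (s.indicator (fun _ : Ω => c)) 1 P :=
        memLp_indicator_const 1 hs c (Or.inr hμs.ne)
      have h2 : MemLp (s.indicator (fun _ : Ω => c)) 2 P :=
        memLp_indicator_const 2 hs c (Or.inr hμs.ne)
      have h3 : ((Lp.simpleFunc.indicatorConst 1 hs hμs.ne c : Lp.simpleFunc ℂ 1 P) : Lp ℂ 1 P) =
          h1.toLp _ := by
        rw [Lp.simpleFunc.coe_indicatorConst]
        rfl
      rw [h3, ← hf0 _ h2 h1]
      show ∫ x, (h1.toLp _ : Lp ℂ 1 P) x * f x ∂P = _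
      apply integral_congr_ae
      filter_upwards [h1.coeFn_toLp, hfe] with x h4 h5
      rw [h4, h5]
    · intro a b ha hb _ h1 h2
      rw [map_add, map_add, h1, h2]
    · exact isClosed_eq Φ.continuous g.continuous
  refine ⟨f, hfm, hfb, fun φ h1 => ?_⟩
  rw [← key]
  show _ = ∫ x, (h1.toLp φ : Lp ℂ 1 P) x * f x ∂P
  apply integral_congr_ae
  filter_upwards [h1.coeFn_toLp] with x h4
  rw [h4]

/-- the reference measure -/
noncomputable def PP : Measure ℝ :=
  (volume.restrict (Ioi 0)).withDensity (fun t => ENNReal.ofReal (Real.exp (-t)))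

instance : IsProbabilityMeasure PP := by
  constructor
  unfold PP
  rw [withDensity_apply _ MeasurableSet.univ, Measure.restrict_univ,
    ← ofReal_integral_eq_lintegral_ofReal]
  · rw [integral_exp_neg_Ioi_zero, ENNReal.ofReal_one]
  · exact (integrableOn_exp_neg_Ioi 0)
  · exact Filter.Eventually.of_forall fun t => (Real.exp_pos _).le

theorem int_PP (G : ℝ → ℂ) : ∫ t, G t ∂PP = ∫ t in Ioi (0:ℝ), ((Real.exp (-t) : ℝ) : ℂ) * G t := by
  unfold PP
  rw [integral_withDensity_eq_integral_toReal_smul₀ (by fun_prop)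
    (Filter.Eventually.of_forall fun t => ENNReal.ofReal_lt_top)]
  apply integral_congr_ae
  filter_upwards with t
  rw [ENNReal.toReal_ofReal (Real.exp_pos _).le, Complex.real_smul]

theorem intR_PP (G : ℝ → ℝ) : ∫ t, G t ∂PP = ∫ t in Ioi (0:ℝ), Real.exp (-t) * G t := by
  unfold PP
  rw [integral_withDensity_eq_integral_toReal_smul₀ (by fun_prop)
    (Filter.Eventually.of_forall fun t => ENNReal.ofReal_lt_top)]
  apply integral_congr_ae
  filter_upwards with t
  rw [ENNReal.toReal_ofReal (Real.exp_pos _).le, smul_eq_mul]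

theorem memLp_PP {φ : ℝ → ℝ} (hφ : Measurable φ) (hφ1 : ∀ t, 1 ≤ φ t) {h : ℝ → ℂ}
    (hm : Measurable h) (hi : IntegrableOn (fun t => ‖h t‖ * φ t) (Ioi 0)) :
    MemLp (fun t => h t * ((φ t * Real.exp t : ℝ) : ℂ)) 1 PP := by
  rw [memLp_one_iff_integrable]
  unfold PP
  rw [integrable_withDensity_iff_integrable_smul' (by fun_prop)
    (Filter.Eventually.of_forall fun t => ENNReal.ofReal_lt_top)]
  have h1 : Integrable (fun t => h t * ((φ t : ℝ) : ℂ)) (volume.restrict (Ioi 0)) := by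
    refine Integrable.mono' hi ?_ ?_
    · exact (hm.mul (Complex.measurable_ofReal.comp hφ)).aestronglyMeasurable
    · filter_upwards with t
      rw [norm_mul, Complex.norm_real, Real.norm_of_nonneg (by linarith [hφ1 t])]
  refine h1.congr ?_
  filter_upwards with t
  rw [ENNReal.toReal_ofReal (Real.exp_pos _).le, Complex.real_smul]
  have h2 : ((Real.exp (-t) : ℝ) : ℂ) * ((Real.exp t : ℝ) : ℂ) = 1 := by
    rw [← Complex.ofReal_mul, ← Real.exp_add]
    simp
  rw [Complex.ofReal_mul]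
  linear_combination (-(h t * ((φ t : ℝ) : ℂ))) * h2

/-- Hahn-Banach plus the duality `(L¹)* = L^∞`, in the concrete weighted form.  `x` is at positive
distance (in weighted `L¹(0,∞)`) from the span of the `F τ`, `τ > 0`; then some function
`g` bounded by a multiple of the weight annihilates all `F τ` but not `x`. -/
theorem duality (φ : ℝ → ℝ) (hφ : Measurable φ) (hφ1 : ∀ t, 1 ≤ φ t) (F : ℝ → ℝ → ℂ)
    (hFm : ∀ τ > 0, Measurable (F τ))
    (hFi : ∀ τ > 0, IntegrableOn (fun t => ‖F τ t‖ * φ t) (Ioi 0))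
    (x : ℝ → ℂ) (hxm : Measurable x) (hxi : IntegrableOn (fun t => ‖x t‖ * φ t) (Ioi 0))
    (d : ℝ) (hd : 0 < d)
    (hdist : ∀ (s : Finset ℝ) (q : ℝ → ℂ), (∀ τ ∈ s, 0 < τ) →
      d ≤ ∫ t in Ioi (0:ℝ), ‖x t - ∑ τ ∈ s, q τ * F τ t‖ * φ t) :
    ∃ g : ℝ → ℂ, Measurable g ∧ (∃ C : ℝ, ∀ t, ‖g t‖ ≤ C * φ t) ∧
      (∀ τ > 0, ∫ t in Ioi (0:ℝ), F τ t * g t = 0) ∧
      (∫ t in Ioi (0:ℝ), x t * g t) ≠ 0 := by
  classical
  -- transformed functions
  let w : ℝ → ℂ := fun t => ((φ t * Real.exp t : ℝ) : ℂ)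
  let E : {τ : ℝ // 0 < τ} → Lp ℂ 1 PP := fun τ =>
    (memLp_PP hφ hφ1 (hFm τ τ.2) (hFi τ τ.2)).toLp (fun t => F τ t * w t)
  let Ex : Lp ℂ 1 PP := (memLp_PP hφ hφ1 hxm hxi).toLp (fun t => x t * w t)
  let T : (({τ : ℝ // 0 < τ} →₀ ℂ) × ℂ) →ₗ[ℂ] Lp ℂ 1 PP :=
    (Finsupp.linearCombination ℂ E).coprod (LinearMap.toSpanSingleton ℂ _ Ex)
  let l : (({τ : ℝ // 0 < τ} →₀ ℂ) × ℂ) →ₗ[ℂ] ℂ := LinearMap.snd ℂ _ ℂ
  have hTv : ∀ v, T v = Finsupp.linearCombination ℂ E v.1 + v.2 • Ex := by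
    intro v
    simp [T, LinearMap.coprod_apply, LinearMap.toSpanSingleton_apply]
  have hsum : ∀ c : {τ : ℝ // 0 < τ} →₀ ℂ, ∀ᵐ t ∂PP,
      (Finsupp.linearCombination ℂ E c : ℝ → ℂ) t = (∑ τ ∈ c.support, c τ * F τ t) * w t := by
    intro c
    have h1 : Finsupp.linearCombination ℂ E c = ∑ τ ∈ c.support, c τ • E τ := by
      simp [Finsupp.linearCombination_apply, Finsupp.sum]
    rw [h1]
    have h2 : ∀ s : Finset {τ : ℝ // 0 < τ}, ∀ᵐ t ∂PP,
        ((∑ τ ∈ s, c τ • E τ : Lp ℂ 1 PP) : ℝ → ℂ) t = (∑ τ ∈ s, c τ * F τ t) * w t := by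
      intro s
      induction s using Finset.induction_on with
      | empty =>
        simp only [Finset.sum_empty, zero_mul]
        exact Lp.coeFn_zero ℂ 1 PP
      | insert a s ha ih =>
        rw [Finset.sum_insert ha]
        filter_upwards [ih, Lp.coeFn_add (c a • E a) (∑ n ∈ s, c n • E n),
          Lp.coeFn_smul (c a) (E a),
          (memLp_PP hφ hφ1 (hFm a a.2) (hFi a a.2)).coeFn_toLp] with t h1 h2 h3 h4
        rw [h2, Pi.add_apply, h1, h3, Pi.smul_apply]
        have h5 : (E a : ℝ → ℂ) t = F a t * w t := h4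
        rw [h5, Finset.sum_insert ha, smul_eq_mul]
        ring
    exact h2 c.support
  have hnorm : ∀ v, ‖T v‖ = ∫ t in Ioi (0:ℝ), ‖(∑ τ ∈ v.1.support, v.1 τ * F τ t) + v.2 * x t‖ * φ t := by
    intro v
    rw [L1.norm_eq_integral_norm]
    have h1 : ∀ᵐ t ∂PP, ‖(T v : ℝ → ℂ) t‖ =
        ‖(∑ τ ∈ v.1.support, v.1 τ * F τ t) + v.2 * x t‖ * (φ t * Real.exp t) := by
      rw [hTv v]
      filter_upwards [hsum v.1, Lp.coeFn_add (Finsupp.linearCombination ℂ E v.1) (v.2 • Ex),
        Lp.coeFn_smul v.2 Ex, (memLp_PP hφ hφ1 hxm hxi).coeFn_toLp] with t h1 h2 h3 h4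
      have h5 : (Ex : ℝ → ℂ) t = x t * w t := h4
      rw [h2, Pi.add_apply, h1, h3, Pi.smul_apply, h5, smul_eq_mul]
      have h6 : (∑ τ ∈ v.1.support, v.1 τ * F τ t) * w t + v.2 * (x t * w t) =
          ((∑ τ ∈ v.1.support, v.1 τ * F τ t) + v.2 * x t) * w t := by ring
      rw [h6, norm_mul]
      congr 1
      show ‖((φ t * Real.exp t : ℝ) : ℂ)‖ = φ t * Real.exp t
      rw [Complex.norm_real, Real.norm_of_nonneg]
      exact mul_nonneg (by linarith [hφ1 t]) (Real.exp_pos t).le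
    rw [integral_congr_ae h1, intR_PP]
    apply integral_congr_ae
    filter_upwards with t
    have h2 : Real.exp (-t) * Real.exp t = 1 := by
      rw [← Real.exp_add]; simp
    linear_combination (‖(∑ τ ∈ v.1.support, v.1 τ * F τ t) + v.2 * x t‖ * φ t) * h2
  obtain ⟨g, hg⟩ := exists_clm T l (1 / d) (by
    intro v
    show ‖v.2‖ ≤ 1 / d * ‖T v‖
    by_cases hv : v.2 = 0
    · rw [hv, norm_zero]
      positivity
    · have hvn : 0 < ‖v.2‖ := norm_pos_iff.2 hv
      have h1 := hdist (Finset.image (Subtype.val : {τ : ℝ // 0 < τ} → ℝ) v.1.support)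
        (fun τ => if h : 0 < τ then -(v.1 ⟨τ, h⟩) / v.2 else 0) (by
          intro τ hτ
          obtain ⟨τ', _, rfl⟩ := Finset.mem_image.1 hτ
          exact τ'.2)
      have h2 : ‖T v‖ = ‖v.2‖ * ∫ t in Ioi (0:ℝ), ‖x t - ∑ τ ∈ Finset.image (Subtype.val : {τ : ℝ // 0 < τ} → ℝ) v.1.support,
          (if h : 0 < τ then -(v.1 ⟨τ, h⟩) / v.2 else 0) * F τ t‖ * φ t := by
        rw [hnorm v, ← integral_const_mul]
        apply integral_congr_ae
        filter_upwards with t
        rw [Finset.sum_image (fun a _ b _ h => Subtype.ext h), ← mul_assoc, ← norm_mul]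
        congr 2
        rw [mul_sub, Finset.mul_sum, sub_eq_add_neg, add_comm, ← Finset.sum_neg_distrib]
        congr 1
        apply Finset.sum_congr rfl
        intro τ _
        rw [dif_pos τ.2]
        field_simp
      rw [h2, one_div, ← mul_assoc, mul_comm d⁻¹, mul_assoc]
      calc ‖v.2‖ = ‖v.2‖ * (d⁻¹ * d) := by rw [inv_mul_cancel₀ hd.ne', mul_one]
        _ ≤ _ := by
          apply mul_le_mul_of_nonneg_left _ hvn.le
          exact mul_le_mul_of_nonneg_left h1 (by positivity))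
  obtain ⟨f, hfm, hfb, hf⟩ := exists_rep PP g
  have hpair : ∀ (h : ℝ → ℂ) (hm : Measurable h) (hi : IntegrableOn (fun t => ‖h t‖ * φ t) (Ioi 0)),
      ∫ t in Ioi (0:ℝ), h t * (((φ t : ℝ) : ℂ) * f t) =
        g ((memLp_PP hφ hφ1 hm hi).toLp (fun t => h t * w t)) := by
    intro h hm hi
    rw [← hf, int_PP]
    apply integral_congr_ae
    filter_upwards with t
    have h2 : ((Real.exp (-t) : ℝ) : ℂ) * ((Real.exp t : ℝ) : ℂ) = 1 := by
      rw [← Complex.ofReal_mul, ← Real.exp_add]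
      simp
    show h t * (((φ t : ℝ) : ℂ) * f t) =
      ((Real.exp (-t) : ℝ) : ℂ) * (h t * ((φ t * Real.exp t : ℝ) : ℂ) * f t)
    rw [Complex.ofReal_mul]
    linear_combination (-(h t * ((φ t : ℝ) : ℂ) * f t)) * h2
  refine ⟨fun t => ((φ t : ℝ) : ℂ) * f t, (Complex.measurable_ofReal.comp hφ).mul hfm,
    ⟨‖g‖, fun t => ?_⟩, fun τ hτ => ?_, ?_⟩
  · rw [norm_mul, Complex.norm_real, Real.norm_of_nonneg (by linarith [hφ1 t]), mul_comm]
    exact mul_le_mul_of_nonneg_right (hfb t) (by linarith [hφ1 t])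
  · rw [hpair (F τ) (hFm τ hτ) (hFi τ hτ)]
    have h1 := hg (Finsupp.single ⟨τ, hτ⟩ 1, 0)
    rw [hTv] at h1
    simp only [Finsupp.linearCombination_single, one_smul, zero_smul, add_zero] at h1
    exact h1
  · rw [hpair x hxm hxi]
    have h1 := hg (0, 1)
    rw [hTv] at h1
    simp only [map_zero, zero_add, one_smul] at h1
    have h2 : g Ex = 1 := h1
    show g Ex ≠ 0
    rw [h2]
    exact one_ne_zero

end MP27fa52
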