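import Mathlib

open MeasureTheory Set Filter Topology

namespace MP27fa52

theorem re_aux (L : ℝ) (u : ℂ) :
    (((L / 2 : ℝ) : ℂ) * ((1 - u) * (1 - u))).re = L / 2 * ((1 - u.re) ^ 2 - u.im ^ 2) := by
  rw [Complex.re_ofReal_mul, Complex.mul_re, Complex.sub_re, Complex.one_re, Complex.sub_im,
    Complex.one_im]
  ring

theorem hd_pos {F : ℂ → ℂ} {L : ℝ} (hL : 0 ≤ L) (hd : DifferentiableOn ℂ F (Metric.closedBall 0 1))
    (h1 : ∀ u : ℂ, ‖u‖ ≤ 1 → ‖F u‖ ≤ 1)
    (h2 : ∀ q : ℝ, |q| ≤ 1 → ‖F (q * Complex.I)‖ ≤ Real.exp (-L)) {p : ℝ} (hp0 : 0 ≤ p)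
    (hp : p ≤ 5 / 6) : ‖F p‖ ≤ Real.exp (-(L / 72)) := by
  rcases hp0.eq_or_lt with rfl | hpos
  · have h3 := h2 0 (by norm_num)
    rw [Complex.ofReal_zero, zero_mul] at h3
    rw [Complex.ofReal_zero]
    exact h3.trans (Real.exp_le_exp.2 (by linarith))
  · set U : Set ℂ := Metric.ball 0 1 ∩ {u | 0 < u.re} with hU
    have hUo : IsOpen U := Metric.isOpen_ball.inter (isOpen_lt continuous_const Complex.continuous_re)
    have hcl : closure U ⊆ Metric.closedBall 0 1 ∩ {u | 0 ≤ u.re} := by
      apply closure_minimal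
      · rintro u ⟨hu1, hu2⟩
        exact ⟨Metric.ball_subset_closedBall hu1, show (0 : ℝ) ≤ u.re from le_of_lt hu2⟩
      · exact Metric.isClosed_closedBall.inter (isClosed_le continuous_const Complex.continuous_re)
    set G : ℂ → ℂ := fun u => F u * Complex.exp (((L / 2 : ℝ) : ℂ) * ((1 - u) * (1 - u))) with hG
    have hGn : ∀ u, ‖G u‖ = ‖F u‖ * Real.exp (L / 2 * ((1 - u.re) ^ 2 - u.im ^ 2)) := by
      intro u
      rw [hG]
      simp only
      rw [norm_mul, Complex.norm_exp, re_aux]
    have hGd : DiffContOnCl ℂ G U := by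
      apply DifferentiableOn.diffContOnCl
      have h3 : DifferentiableOn ℂ F (closure U) := hd.mono fun u hu => (hcl hu).1
      exact h3.mul (Differentiable.differentiableOn (by fun_prop))
    have hbd : Bornology.IsBounded U := Metric.isBounded_ball.subset inter_subset_left
    have hfr : ∀ u ∈ frontier U, ‖G u‖ ≤ 1 := by
      intro u hu
      have hu1 := hcl hu.1
      have hu2 : u ∉ U := by
        have h3 := hu.2
        rwa [hUo.interior_eq] at h3
      obtain ⟨h3, h4⟩ := hu1
      rw [mem_closedBall_zero_iff] at h3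
      have h4' : 0 ≤ u.re := h4
      rw [hGn]
      have hnsq : ‖u‖ ^ 2 = u.re ^ 2 + u.im ^ 2 := by
        rw [Complex.sq_norm, Complex.normSq_apply]; ring
      by_cases h5 : ‖u‖ < 1
      · have h6 : u.re = 0 := by
          by_contra h7
          exact hu2 ⟨mem_ball_zero_iff.2 h5, lt_of_le_of_ne h4' (Ne.symm h7)⟩
        have h7 : u = (u.im : ℂ) * Complex.I := by
          apply Complex.ext <;> simp [h6]
        have h8 : |u.im| ≤ 1 := (Complex.abs_im_le_norm u).trans h3
        have h9 := h2 u.im h8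
        rw [← h7] at h9
        rw [h6]
        calc ‖F u‖ * Real.exp (L / 2 * ((1 - 0) ^ 2 - u.im ^ 2))
            ≤ Real.exp (-L) * Real.exp (L / 2 * ((1 - 0) ^ 2 - u.im ^ 2)) := by gcongr
          _ = Real.exp (-L + L / 2 * ((1 - 0) ^ 2 - u.im ^ 2)) := by rw [Real.exp_add]
          _ ≤ Real.exp 0 := by
              apply Real.exp_le_exp.2
              nlinarith [sq_nonneg u.im]
          _ = 1 := Real.exp_zero
      · have h6 : ‖u‖ = 1 := le_antisymm h3 (not_lt.1 h5)
        rw [h6] at hnsq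
        have h7 : u.re ≤ 1 := by nlinarith [sq_nonneg u.im]
        have h8 : L / 2 * ((1 - u.re) ^ 2 - u.im ^ 2) ≤ 0 := by
          have h9 : (1 - u.re) ^ 2 - u.im ^ 2 = -(2 * u.re * (1 - u.re)) := by nlinarith
          rw [h9]
          have : 0 ≤ 2 * u.re * (1 - u.re) := by
            have : 0 ≤ 1 - u.re := by linarith
            positivity
          nlinarith
        calc ‖F u‖ * Real.exp (L / 2 * ((1 - u.re) ^ 2 - u.im ^ 2)) ≤ 1 * 1 := by
              gcongr
              · exact h1 u h3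
              · exact Real.exp_le_one_iff.2 h8
          _ = 1 := one_mul 1
    have hpU : (p : ℂ) ∈ U := by
      refine ⟨?_, ?_⟩
      · rw [mem_ball_zero_iff, Complex.norm_real, Real.norm_of_nonneg hp0]
        linarith
      · simpa using hpos
    have h3 := Complex.norm_le_of_forall_mem_frontier_norm_le hbd hGd hfr (subset_closure hpU)
    rw [hGn, Complex.ofReal_re, Complex.ofReal_im, ← le_div_iff₀ (Real.exp_pos _), one_div,
      ← Real.exp_neg] at h3
    refine h3.trans (Real.exp_le_exp.2 ?_)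
    have h4 : (1 / 6 : ℝ) ^ 2 ≤ (1 - p) ^ 2 := by
      apply pow_le_pow_left₀ (by norm_num); linarith
    nlinarith

theorem hd {F : ℂ → ℂ} {L : ℝ} (hL : 0 ≤ L) (hd : DifferentiableOn ℂ F (Metric.closedBall 0 1))
    (h1 : ∀ u : ℂ, ‖u‖ ≤ 1 → ‖F u‖ ≤ 1)
    (h2 : ∀ q : ℝ, |q| ≤ 1 → ‖F (q * Complex.I)‖ ≤ Real.exp (-L)) {p : ℝ}
    (hp : |p| ≤ 5 / 6) : ‖F p‖ ≤ Real.exp (-(L / 72)) := by
  rcases le_total 0 p with h | h
  · exact hd_pos hL hd h1 h2 h ((le_abs_self p).trans hp)
  · have h3 := hd_pos (F := fun u => F (-u)) hL (hd.comp (by fun_prop) (fun u hu => by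
      rw [mem_closedBall_zero_iff] at hu ⊢
      rwa [norm_neg])) (fun u hu => h1 _ (by rwa [norm_neg])) (fun q hq => by
        have := h2 (-q) (by rwa [abs_neg])
        rwa [Complex.ofReal_neg, neg_mul] at this) (p := -p) (by linarith)
        ((neg_le_abs p).trans hp)
    simpa using h3

theorem im_sin_aux (A b x y : ℝ) :
    (Complex.sin ((A : ℂ) * (((x : ℂ) + (y : ℂ) * Complex.I) - (b : ℂ) * Complex.I))).im =
      Real.cos (A * x) * Real.sinh (A * (y - b)) := by
  have e : (A : ℂ) * (((x : ℂ) + (y : ℂ) * Complex.I) - (b : ℂ) * Complex.I) =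
      ((A * x : ℝ) : ℂ) + ((A * (y - b) : ℝ) : ℂ) * Complex.I := by
    push_cast; ring
  rw [e, Complex.sin_add_mul_I]
  rw [← Complex.ofReal_sin, ← Complex.ofReal_cosh, ← Complex.ofReal_cos, ← Complex.ofReal_sinh,
    ← Complex.ofReal_mul, ← Complex.ofReal_mul, Complex.add_im, Complex.ofReal_im, zero_add,
    Complex.im_ofReal_mul, Complex.I_im, mul_one]

/-- Propagation of smallness in a half strip: a function bounded by `1` on the half strip
`|re| < w`, `im > y0` which is small on the half line `i[Y,∞)` is small on the smaller half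
strip `|re| ≤ w/2`, `im ≥ y0+1`. -/
theorem lemS (w y0 Y δ : ℝ) (hw : 0 < w) (hδ : 0 < δ) :
    ∃ η > 0, ∀ K : ℂ → ℂ,
      DifferentiableOn ℂ K {l | |l.re| < w ∧ y0 < l.im} →
      (∀ l : ℂ, |l.re| < w → y0 < l.im → ‖K l‖ ≤ 1) →
      (∀ y : ℝ, Y ≤ y → ‖K (y * Complex.I)‖ ≤ η) →
      ∀ l : ℂ, |l.re| ≤ w / 2 → y0 + 1 ≤ l.im → ‖K l‖ ≤ δ := by
  set Y' : ℝ := max Y (y0 + 1) with hY'
  have hY1 : Y ≤ Y' := le_max_left _ _
  have hY2 : y0 + 1 ≤ Y' := le_max_right _ _
  set Y1 : ℝ := Y' + w with hY1def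
  set b : ℝ := y0 + 1 / 2 with hb
  set s : ℝ := 3 * w / 4 with hs
  set A : ℝ := Real.pi / (2 * s) with hA
  have hs0 : 0 < s := by rw [hs]; linarith
  have hA0 : 0 < A := by have := Real.pi_pos; positivity
  have hSh : 0 < Real.sinh (A * (Y1 - b)) := Real.sinh_pos_iff.2 (by
    apply mul_pos hA0; rw [hY1def, hb]; linarith)
  have hSh2 : 0 < Real.sinh (A * (1 / 2)) := Real.sinh_pos_iff.2 (by positivity)
  set α : ℝ := Real.sinh (A * (1 / 2)) / (144 * Real.sinh (A * (Y1 - b))) with hα
  have hα0 : 0 < α := by positivity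
  have hα1 : α ≤ 1 / 72 := by
    rw [hα, div_le_iff₀ (by positivity)]
    have h1 : Real.sinh (A * (1 / 2)) ≤ Real.sinh (A * (Y1 - b)) := by
      apply Real.sinh_le_sinh.2
      apply mul_le_mul_of_nonneg_left _ hA0.le
      rw [hY1def, hb]; linarith
    linarith
  set L : ℝ := |Real.log δ| / α with hL
  have hL0 : 0 ≤ L := by positivity
  have hLδ : Real.exp (-(L * α)) ≤ δ := by
    rw [hL, div_mul_cancel₀ _ hα0.ne']
    calc Real.exp (-|Real.log δ|) ≤ Real.exp (Real.log δ) :=
          Real.exp_le_exp.2 (neg_abs_le _)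
      _ = δ := Real.exp_log hδ
  refine ⟨Real.exp (-L), Real.exp_pos _, ?_⟩
  intro K hKd hK1 hKs
  -- step 1
  have step1 : ∀ y : ℝ, Y1 ≤ y → ∀ σ : ℝ, |σ| ≤ s →
      ‖K ((σ : ℂ) + y * Complex.I)‖ ≤ Real.exp (-(L / 72)) := by
    intro y hy σ hσ
    set R : ℝ := 9 * w / 10 with hR
    have hR0 : 0 < R := by rw [hR]; linarith
    set F : ℂ → ℂ := fun u => K ((y : ℂ) * Complex.I + (R : ℂ) * u) with hF
    have hre : ∀ u : ℂ, ((y : ℂ) * Complex.I + (R : ℂ) * u).re = R * u.re := by
      intro u; simp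
    have him : ∀ u : ℂ, ((y : ℂ) * Complex.I + (R : ℂ) * u).im = y + R * u.im := by
      intro u; simp
    have hmem : ∀ u : ℂ, ‖u‖ ≤ 1 → |((y : ℂ) * Complex.I + (R : ℂ) * u).re| < w ∧
        y0 < ((y : ℂ) * Complex.I + (R : ℂ) * u).im := by
      intro u hu
      rw [hre, him]
      have h1 := (Complex.abs_re_le_norm u).trans hu
      have h2 := abs_le.1 ((Complex.abs_im_le_norm u).trans hu)
      refine ⟨?_, ?_⟩
      · rw [abs_mul, abs_of_pos hR0]
        calc R * |u.re| ≤ R * 1 := by gcongr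
          _ < w := by rw [hR]; linarith
      · have h3 : -R ≤ R * u.im := by nlinarith [h2.1]
        rw [hY1def] at hy
        linarith
    have h3 := hd (F := F) (L := L) (p := σ / R) hL0 ?_ ?_ ?_ ?_
    · have e : (y : ℂ) * Complex.I + (R : ℂ) * ((σ / R : ℝ) : ℂ) = (σ : ℂ) + y * Complex.I := by
        rw [← Complex.ofReal_mul, mul_div_cancel₀ _ hR0.ne', add_comm]
      simp only [hF] at h3
      rwa [e] at h3
    · apply DifferentiableOn.comp hKd (by fun_prop)
      intro u hu
      rw [mem_closedBall_zero_iff] at hu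
      exact hmem u hu
    · intro u hu
      obtain ⟨a1, a2⟩ := hmem u hu
      exact hK1 _ a1 a2
    · intro q hq
      have h4 := hKs (y + R * q) (by
        have h5 := abs_le.1 hq
        have : -R ≤ R * q := by nlinarith [h5.1]
        rw [hY1def] at hy
        linarith)
      have e : (y : ℂ) * Complex.I + (R : ℂ) * ((q : ℂ) * Complex.I) =
          ((y + R * q : ℝ) : ℂ) * Complex.I := by push_cast; ring
      simp only [hF]
      rw [e]
      exact h4
    · rw [abs_div, abs_of_pos hR0, div_le_iff₀ hR0, hR]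
      rw [hs] at hσ
      linarith
  intro l hlre hlim
  by_cases hly : Y1 ≤ l.im
  · have h1 := step1 l.im hly l.re (hlre.trans (by rw [hs]; linarith))
    rw [Complex.re_add_im] at h1
    refine h1.trans (le_trans (Real.exp_le_exp.2 ?_) hLδ)
    nlinarith
  · push Not at hly
    set U : Set ℂ := {z | |z.re| < s ∧ b < z.im ∧ z.im < Y1} with hU
    have hUo : IsOpen U := by
      apply IsOpen.inter (isOpen_lt (continuous_abs.comp Complex.continuous_re) continuous_const)
      exact (isOpen_lt continuous_const Complex.continuous_im).inter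
        (isOpen_lt Complex.continuous_im continuous_const)
    have hcl : closure U ⊆ {z | |z.re| ≤ s ∧ b ≤ z.im ∧ z.im ≤ Y1} := by
      apply closure_minimal
      · rintro u ⟨hu1, hu2, hu3⟩
        exact ⟨hu1.le, hu2.le, hu3.le⟩
      · apply IsClosed.inter (isClosed_le (continuous_abs.comp Complex.continuous_re)
          continuous_const)
        exact (isClosed_le continuous_const Complex.continuous_im).inter
          (isClosed_le Complex.continuous_im continuous_const)
    set Λ : ℝ := (L / 72) / Real.sinh (A * (Y1 - b)) with hΛ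
    have hΛ0 : 0 ≤ Λ := by positivity
    set G : ℂ → ℂ := fun z => K z *
      Complex.exp (-(Complex.I * Λ * Complex.sin ((A : ℂ) * (z - (b : ℂ) * Complex.I)))) with hG
    have hGn : ∀ z : ℂ, ‖G z‖ = ‖K z‖ *
        Real.exp (Λ * (Real.cos (A * z.re) * Real.sinh (A * (z.im - b)))) := by
      intro z
      rw [hG]
      simp only
      rw [norm_mul, Complex.norm_exp, ← im_sin_aux, Complex.re_add_im]
      congr 2
      simp [mul_assoc]
    have hsub : closure U ⊆ {l : ℂ | |l.re| < w ∧ y0 < l.im} := by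
      intro z hz
      obtain ⟨a1, a2, a3⟩ := hcl hz
      refine ⟨lt_of_le_of_lt a1 (by rw [hs]; linarith), lt_of_lt_of_le (by rw [hb]; linarith) a2⟩
    have hGd : DiffContOnCl ℂ G U := by
      apply DifferentiableOn.diffContOnCl
      exact (hKd.mono hsub).mul (Differentiable.differentiableOn (by fun_prop))
    have hbd : Bornology.IsBounded U := by
      rw [isBounded_iff_forall_norm_le]
      refine ⟨s + (|b| + |Y1|), ?_⟩
      rintro z ⟨a1, a2, a3⟩
      refine (Complex.norm_le_abs_re_add_abs_im z).trans ?_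
      have h3 : |z.im| ≤ |b| + |Y1| := by
        rw [abs_le]
        constructor
        · have := neg_abs_le b
          have := abs_nonneg Y1
          linarith
        · have := le_abs_self Y1
          have := abs_nonneg b
          linarith
      linarith
    have hAs : A * s = Real.pi / 2 := by
      rw [hA]; field_simp
    have hcos : ∀ x : ℝ, |x| ≤ s → 0 ≤ Real.cos (A * x) := by
      intro x hx
      apply Real.cos_nonneg_of_mem_Icc
      have h3 : |A * x| ≤ Real.pi / 2 := by
        rw [abs_mul, abs_of_pos hA0, ← hAs]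
        gcongr
      have h4 := abs_le.1 h3
      exact ⟨by linarith [h4.1], h4.2⟩
    have hfr : ∀ z ∈ frontier U, ‖G z‖ ≤ 1 := by
      intro z hz
      obtain ⟨a1, a2, a3⟩ := hcl hz.1
      have hz2 : z ∉ U := by
        have h3 := hz.2
        rwa [hUo.interior_eq] at h3
      obtain ⟨c1, c2⟩ := hsub hz.1
      have hK := hK1 z c1 c2
      rw [hGn]
      by_cases h1 : |z.re| = s
      · have h2 : Real.cos (A * z.re) = 0 := by
          rw [← Real.cos_abs, abs_mul, abs_of_pos hA0, h1, hAs, Real.cos_pi_div_two]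
        rw [h2]
        simpa using hK
      · by_cases h2 : z.im = b
        · rw [h2, sub_self, mul_zero, Real.sinh_zero]
          simpa using hK
        · have h3 : z.im = Y1 := by
            by_contra h4
            exact hz2 ⟨lt_of_le_of_ne a1 h1, lt_of_le_of_ne a2 (Ne.symm h2), lt_of_le_of_ne a3 h4⟩
          have h4 := step1 Y1 le_rfl z.re a1
          rw [← h3, Complex.re_add_im] at h4
          rw [h3]
          have h5 : Λ * (Real.cos (A * z.re) * Real.sinh (A * (Y1 - b))) ≤ L / 72 := by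
            have h6 : Λ * Real.sinh (A * (Y1 - b)) = L / 72 := by
              rw [hΛ]; field_simp
            have h7 := Real.cos_le_one (A * z.re)
            have h8 : 0 ≤ Λ * Real.sinh (A * (Y1 - b)) := by positivity
            calc Λ * (Real.cos (A * z.re) * Real.sinh (A * (Y1 - b)))
                = Real.cos (A * z.re) * (Λ * Real.sinh (A * (Y1 - b))) := by ring
              _ ≤ 1 * (Λ * Real.sinh (A * (Y1 - b))) := by gcongr
              _ = L / 72 := by rw [one_mul, h6]
          calc ‖K z‖ * Real.exp (Λ * (Real.cos (A * z.re) * Real.sinh (A * (Y1 - b))))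
              ≤ Real.exp (-(L / 72)) * Real.exp (L / 72) := by gcongr
            _ = 1 := by rw [← Real.exp_add, neg_add_cancel, Real.exp_zero]
    have hlU : l ∈ U := by
      refine ⟨lt_of_le_of_lt hlre (by rw [hs]; linarith), lt_of_lt_of_le (by rw [hb]; linarith) hlim,
        hly⟩
    have h3 := Complex.norm_le_of_forall_mem_frontier_norm_le hbd hGd hfr (subset_closure hlU)
    rw [hGn, ← le_div_iff₀ (Real.exp_pos _), one_div, ← Real.exp_neg] at h3
    refine h3.trans (le_trans (Real.exp_le_exp.2 ?_) hLδ)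
    have h4 : 1 / 2 ≤ Real.cos (A * l.re) := by
      rw [← Real.cos_abs, abs_mul, abs_of_pos hA0, ← Real.cos_pi_div_three]
      apply Real.cos_le_cos_of_nonneg_of_le_pi (by positivity)
      · have := Real.pi_pos; linarith
      · have h5 : A * (w / 2) = Real.pi / 3 := by
          rw [hA, hs]; field_simp; norm_num
        rw [← h5]
        gcongr
    have h5 : Real.sinh (A * (1 / 2)) ≤ Real.sinh (A * (l.im - b)) := by
      apply Real.sinh_le_sinh.2
      apply mul_le_mul_of_nonneg_left _ hA0.le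
      rw [hb]; linarith
    have h6 : L * α = Λ * (1 / 2 * Real.sinh (A * (1 / 2))) := by
      rw [hα, hΛ]; field_simp; ring
    rw [h6]
    apply neg_le_neg
    gcongr

end MP27fa52
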