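import Pool.Agent.MP27fa52.Chi
import Pool.Agent.MP27fa52.HalfStrip

open MeasureTheory Set Filter Topology

namespace MP27fa52


def PPr (n : ℕ) (ε δ : ℝ) (x : ℕ) : Prop :=
  cc n / x ≤ ε / 2 ∧ ∀ K : ℂ → ℂ,
    DifferentiableOn ℂ K {l | |l.re| < ε / 2 ∧ bot n < l.im} →
    (∀ l : ℂ, |l.re| < ε / 2 → bot n < l.im → ‖K l‖ ≤ 1) →
    (∀ y : ℝ, bot (n+1) + 2 ≤ y → ‖K (y * Complex.I)‖ ≤ stepC n / (ε * x)) →
    ∀ l : ℂ, |l.re| ≤ ε / 4 → bot n + 1 ≤ l.im → ‖K l‖ ≤ δ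

theorem exists_PPr (n : ℕ) (ε δ : ℝ) (hε : 0 < ε) (hδ : 0 < δ) :
    ∃ N0 : ℕ, ∀ x ≥ N0, PPr n ε δ x := by
  obtain ⟨η, hη, H⟩ := lemS (ε/2) (bot n) (bot (n+1) + 2) δ (by positivity) hδ
  have h1 : Tendsto (fun x : ℕ => cc n / (x:ℝ)) atTop (𝓝 0) :=
    tendsto_const_div_atTop_nhds_zero_nat (cc n)
  have h2 : Tendsto (fun x : ℕ => stepC n / ε / (x:ℝ)) atTop (𝓝 0) :=
    tendsto_const_div_atTop_nhds_zero_nat (stepC n / ε)
  have e1 := h1.eventually (ge_mem_nhds (show (0:ℝ) < ε/2 by positivity))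
  have e2 := h2.eventually (ge_mem_nhds hη)
  obtain ⟨N0, hN0⟩ := eventually_atTop.1 (e1.and e2)
  refine ⟨N0, fun x hx => ⟨(hN0 x hx).1, ?_⟩⟩
  intro K hK hb hs l hl1 hl2
  refine H K hK hb ?_ l (by linarith) hl2
  intro y hy
  refine (hs y hy).trans ?_
  rw [← div_div]
  exact (hN0 x hx).2

open Classical in
noncomputable def N0 (n : ℕ) (ε δ : ℝ) : ℕ :=
  if h : 0 < ε ∧ 0 < δ then (exists_PPr n ε δ h.1 h.2).choose else 0

theorem N0_spec (n : ℕ) (ε δ : ℝ) (hε : 0 < ε) (hδ : 0 < δ) (x : ℕ) (hx : N0 n ε δ ≤ x) :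
    PPr n ε δ x := by
  unfold N0 at hx
  rw [dif_pos ⟨hε, hδ⟩] at hx
  exact (exists_PPr n ε δ hε hδ).choose_spec x hx

noncomputable def TT : ℕ → ℕ
  | 0 => max 1 (N0 0 (1/8) (1/2))
  | (n+1) => TT n * max 8 (N0 (n+1) (cc n / TT n) (1 / TT n))

theorem TT_pos : ∀ n, 1 ≤ TT n := by
  intro n
  induction n with
  | zero => simp [TT]
  | succ n ih =>
    rw [TT]
    calc 1 = 1 * 1 := rfl
      _ ≤ _ := Nat.mul_le_mul ih (le_trans (by norm_num) (le_max_left _ _))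

theorem exists_good : ∃ T, Good T := by
  have hpos := TT_pos
  have hposR : ∀ n, (0:ℝ) < TT n := fun n => by exact_mod_cast hpos n
  have key : ∀ n, PPr n (eps TT n) (del TT n) (TT n) := by
    intro n
    cases n with
    | zero =>
      refine N0_spec 0 _ _ (by simp [eps]) (by simp [del]) _ ?_
      rw [TT]; simp only [eps, del]; exact le_max_right _ _
    | succ n =>
      refine N0_spec (n+1) _ _ ?_ ?_ _ ?_
      · simp only [eps]; exact div_pos (cc_pos n) (hposR n)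
      · simp only [del]; exact one_div_pos.2 (hposR n)
      · rw [TT]; simp only [eps, del]
        calc N0 (n+1) (cc n / TT n) (1 / TT n) ≤ max 8 (N0 (n+1) (cc n / TT n) (1 / TT n)) := le_max_right _ _
          _ ≤ _ := Nat.le_mul_of_pos_left _ (hpos n)
  refine ⟨TT, hpos, ?_, ?_, fun n => (key n).1, fun n => (key n).2⟩
  · intro n; rw [TT]; exact Dvd.intro _ rfl
  · intro n; rw [TT, mul_comm]; exact Nat.mul_le_mul le_rfl (le_max_left _ _)

end MP27fa52
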