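import Pool.Agent.MP27fa52.Step
import Pool.Agent.MP27fa52.Exists

open MeasureTheory Set Filter Topology

namespace MP27fa52

theorem cc_ge (n : ℕ) : 11 ≤ cc n := by
  unfold cc
  have h1 : (0.6931471803:ℝ) < Real.log 2 := Real.log_two_gt_d9
  have h2 : (0:ℝ) ≤ n := Nat.cast_nonneg n
  nlinarith

/-- a logarithm of `z` at scale `T` close to `i y` -/
theorem exists_log (T : ℝ) (hT : 0 < T) (z : ℂ) (hz : z ≠ 0) (y : ℝ) :
    ∃ l : ℂ, Complex.exp (l * T) = z ∧ l.re = Real.log ‖z‖ / T ∧ |l.im - y| ≤ Real.pi / T := by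
  set k : ℤ := round ((y * T - z.arg) / (2 * Real.pi)) with hk
  have hpi := Real.pi_pos
  refine ⟨(Complex.log z + k * (2 * Real.pi * Complex.I)) / T, ?_, ?_, ?_⟩
  · rw [div_mul_cancel₀ _ (by exact_mod_cast hT.ne'), Complex.exp_add, Complex.exp_log hz,
      Complex.exp_int_mul_two_pi_mul_I, mul_one]
  · rw [Complex.div_ofReal_re]
    congr 1
    simp [Complex.log_re]
  · rw [Complex.div_ofReal_im]
    have h1 : (Complex.log z + k * (2 * Real.pi * Complex.I)).im = z.arg + k * (2 * Real.pi) := by
      simp [Complex.log_im]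
    rw [h1]
    have h2 := abs_sub_round ((y * T - z.arg) / (2 * Real.pi))
    rw [← hk] at h2
    have h3 : (z.arg + k * (2 * Real.pi)) / T - y
        = -(((y * T - z.arg) / (2 * Real.pi) - k) * (2 * Real.pi)) / T := by
      field_simp
      ring
    rw [h3, abs_div, abs_neg, abs_mul, abs_of_pos hT, abs_of_pos (by positivity : 0 < 2 * Real.pi)]
    gcongr
    calc _ ≤ 1/2 * (2 * Real.pi) := mul_le_mul_of_nonneg_right h2 (by positivity)
      _ = Real.pi := by ring

theorem main_step {T : ℕ → ℕ} (G : Good T) {h : ℝ → ℂ} {M : ℝ} (hM : 0 < M) (H : Adm T h M)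
    (n : ℕ)
    (hyp : ∀ l : ℂ, |l.re| ≤ eps T (n+1) / 4 → bot (n+1) + 1 ≤ l.im →
      ‖KK T (n+1) h l‖ ≤ del T (n+1) * M) :
    ∀ l : ℂ, |l.re| ≤ eps T n / 4 → bot n + 1 ≤ l.im → ‖KK T n h l‖ ≤ del T n * M := by
  have hpos := G.pos
  have hdvd := G.dvd
  have hhalf := G.eps_half
  have he := eps_pos T hpos n
  have he8 := eps_le T hpos hhalf n
  have hTn : (0:ℝ) < T n := by exact_mod_cast hpos n
  have hcc := cc_ge n
  have hTe : 2 * cc n ≤ eps T n * T n := by
    have := hhalf n
    rw [div_le_iff₀ hTn] at this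
    linarith
  have hT4 : 16 * cc n ≤ T n := by nlinarith
  have hpi4 := Real.pi_lt_d2
  have hpi0 := Real.pi_pos
  have main := G.step n (fun l => KK T n h l / M)
    ((KK_diff T hpos hdvd hhalf H n).div_const _) ?_ ?_
  · intro l h1 h2
    have := main l h1 h2
    rw [norm_div, Complex.norm_real, Real.norm_of_nonneg hM.le, div_le_iff₀ hM] at this
    exact this
  · intro l h1 h2
    rw [norm_div, Complex.norm_real, Real.norm_of_nonneg hM.le, div_le_one hM]
    exact KK_bound T hpos hdvd hhalf H n l h1.le h2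
  · intro y hy
    have hby : bot n < y := by
      have := bot_mono n
      linarith
    set c : ℂ := y * Complex.I with hc
    have hcre : c.re = 0 := by simp [hc]
    have hcim : c.im = y := by simp [hc]
    set z := zet T n c with hz
    obtain ⟨hz1, hz2⟩ := zet_axis T hpos hhalf n y hby
    have hz0 : z ≠ 0 := by
      intro h0
      rw [← hc, ← hz, h0, norm_zero] at hz1
      linarith
    have hz3 : ‖z‖ ≤ Real.exp (cc n / 2) := hz2.trans (Real.exp_le_exp.2 (by linarith))
    obtain ⟨l, hl1, hl2, hl3⟩ := exists_log (T n) hTn z hz0 y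
    have hlog0 : 0 ≤ Real.log ‖z‖ := Real.log_nonneg hz1
    have hlog1 : Real.log ‖z‖ ≤ cc n / 4 := by
      rw [Real.log_le_iff_le_exp (by linarith)]
      exact hz2
    have hlre0 : 0 ≤ l.re := by rw [hl2]; positivity
    have hlre1 : l.re ≤ eps T (n+1) / 4 := by
      rw [hl2]
      simp only [eps]
      rw [div_le_iff₀ hTn]
      calc Real.log ‖z‖ ≤ cc n / 4 := hlog1
        _ = cc n / T n / 4 * T n := by field_simp
    have hpiT : Real.pi / T n ≤ 1 := by
      rw [div_le_one hTn]; linarith
    have hlim : bot (n+1) + 1 ≤ l.im := by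
      have := (abs_le.1 hl3).1
      linarith
    -- distance
    have hdist : dist l c ≤ (cc n / 4 + Real.pi) / T n := by
      rw [dist_eq_norm]
      refine (Complex.norm_le_abs_re_add_abs_im _).trans ?_
      rw [Complex.sub_re, Complex.sub_im, hcre, hcim, sub_zero, abs_of_nonneg hlre0, hl2, add_div]
      have : Real.log ‖z‖ / T n ≤ cc n / 4 / T n := div_le_div_of_nonneg_right hlog1 hTn.le
      linarith
    have hdist2 : dist l c < eps T n / 2 := by
      refine hdist.trans_lt ?_
      rw [div_lt_iff₀ hTn]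
      nlinarith
    have hball : Metric.ball c (eps T n / 2) ⊆ {l : ℂ | |l.re| < eps T n / 2 ∧ bot (n+1) < l.im} := by
      intro w hw
      rw [Metric.mem_ball, dist_eq_norm] at hw
      have h1 := Complex.abs_re_le_norm (w - c)
      have h2 := Complex.abs_im_le_norm (w - c)
      rw [Complex.sub_re, hcre, sub_zero] at h1
      rw [Complex.sub_im, hcim] at h2
      have h3 := (abs_le.1 (h2.trans hw.le)).1
      exact ⟨h1.trans_lt hw, by linarith⟩
    set J : ℂ → ℂ := fun l => JJ T n h l z / M with hJ
    have hJd : DifferentiableOn ℂ J (Metric.ball c (eps T n / 2)) :=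
      ((JJ_diff T hpos hdvd hhalf H n z hz1 hz3).mono hball).div_const _
    have hJb : ∀ w ∈ Metric.ball c (eps T n / 2), ‖J w‖ ≤ 1 := by
      intro w hw
      have hw' := hball hw
      rw [hJ]
      simp only
      rw [norm_div, Complex.norm_real, Real.norm_of_nonneg hM.le, div_le_one hM]
      exact JJ_bound T hpos hdvd hhalf H n w z hw'.1.le hw'.2 hz1 hz3
    have hcball : c ∈ Metric.ball c (eps T n / 2) := Metric.mem_ball_self (by positivity)
    have hmaps : MapsTo J (Metric.ball c (eps T n / 2)) (Metric.closedBall (J c) 3) := by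
      intro w hw
      rw [Metric.mem_closedBall, dist_eq_norm]
      have h1 := hJb w hw
      have h2 := hJb c hcball
      have h3 := norm_sub_le (J w) (J c)
      linarith
    have hlip := Complex.dist_le_div_mul_dist_of_mapsTo_ball hJd hmaps hdist2
    have hJl : ‖J l‖ ≤ 1 / T n := by
      rw [hJ]
      simp only
      have h1 : JJ T n h l z = KK T (n+1) h l := by
        rw [← hl1]; exact JJ_curve T hpos hdvd hhalf n h l
      rw [h1, norm_div, Complex.norm_real, Real.norm_of_nonneg hM.le, div_le_iff₀ hM]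
      have := hyp l (by rw [abs_of_nonneg hlre0]; exact hlre1) hlim
      simpa [del] using this
    have hchi : chi n c ≠ 0 := chi_ne n c (by rw [hcre]; norm_num) (by rw [hcim]; exact hby)
    have hJc : J c = KK T n h c / M := by
      rw [hJ]
      simp only
      congr 1
      have hb : T (n+1) ≤ T (n+2) := by
        have := G.big (n+1)
        have h3 : T (n+1+1) = T (n+2) := rfl
        omega
      exact JJ_zero T hpos hdvd hhalf n h c hchi hb
    change ‖KK T n h c / M‖ ≤ _
    rw [← hJc]
    have h1 : ‖J c‖ ≤ ‖J l‖ + dist (J l) (J c) := by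
      rw [dist_eq_norm]
      have := norm_sub_le (J l) (J l - J c)
      rw [sub_sub_cancel] at this
      exact this
    have h2 : 3 / (eps T n / 2) * dist l c ≤ 3 / (eps T n / 2) * ((cc n / 4 + Real.pi) / T n) :=
      mul_le_mul_of_nonneg_left hdist (by positivity)
    calc ‖J c‖ ≤ 1 / T n + 3 / (eps T n / 2) * ((cc n / 4 + Real.pi) / T n) := by linarith
      _ = (eps T n + 6 * (cc n / 4 + Real.pi)) / (eps T n * T n) := by
        field_simp
        ring
      _ ≤ stepC n / (eps T n * T n) := by
        unfold stepC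
        apply div_le_div_of_nonneg_right _ (by positivity)
        linarith

end MP27fa52
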