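import Pool.Agent.MP27fa52.Core
import Pool.Agent.MP27fa52.Duality
import Pool.Agent.MP6c344.Package

open MeasureTheory Set Filter Topology

namespace MP27fa52

theorem dist_pos {T : ℕ → ℕ} (G : Good T) (s : Finset ℝ) (q : ℝ → ℂ) (hs : ∀ τ ∈ s, 0 < τ) :
    (1/10 : ℝ) ≤ ∫ t in Ioi (0:ℝ), ‖(Ioo (0:ℝ) (1/2)).indicator (fun _ => (1:ℂ)) t
      - ∑ τ ∈ s, q τ * (ff T (t - τ) : ℂ)‖ * phi T t := by
  have hpos := G.pos
  have hdvd := G.dvd
  have hhalf := G.eps_half
  obtain ⟨w1, w2, w3, w4, w5, _, _⟩ := weight_facts T hpos hdvd hhalf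
  obtain ⟨f1, f2, f3, f4, _⟩ := ff_facts T hpos G.big w1 w2 w3 w4 w5
  have hTR : ∀ n, (1:ℝ) ≤ T n := fun n => by exact_mod_cast hpos n
  set x : ℝ → ℂ := fun t => (Ioo (0:ℝ) (1/2)).indicator (fun _ => (1:ℂ)) t with hx
  set h : ℝ → ℂ := fun t => ∑ τ ∈ s, q τ * (ff T (t - τ) : ℂ) with hh
  have hxm : Measurable x := measurable_const.indicator measurableSet_Ioo
  have hhm : Measurable h := by
    rw [hh]
    refine Finset.measurable_fun_sum s fun τ _ => ?_
    exact (Complex.measurable_ofReal.comp (f1.comp (measurable_id.sub_const τ))).const_mul _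
  have hp0 : ∀ t, 0 ≤ phi T t := fun t => (Real.exp_pos _).le
  -- integrability
  have hxn : ∀ t ∈ Ioi (0:ℝ), ‖x t‖ * phi T t = (Ioo (0:ℝ) (1/2)).indicator (phi T) t := by
    intro t _
    rw [hx]
    by_cases ht : t ∈ Ioo (0:ℝ) (1/2)
    · simp only [indicator_of_mem ht, norm_one, one_mul]
    · simp only [indicator_of_notMem ht, norm_zero, zero_mul]
  have hphib : ∀ t ∈ Ioo (0:ℝ) (1/2), phi T t ≤ 6/5 := by
    intro t ht
    refine (w4 t).trans ?_
    rw [abs_of_pos ht.1]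
    have h1 : t / 4 ≤ 1/8 := by linarith [ht.2]
    have h2 : Real.exp (1/8) ≤ 6/5 := by
      have h4 := Real.exp_bound' (x := 1/8) (by norm_num) (by norm_num) (n := 2) (by norm_num)
      refine h4.trans ?_
      norm_num [Finset.sum_range_succ, Nat.factorial]
    exact (Real.exp_le_exp.2 h1).trans h2
  have hphiI : IntegrableOn (phi T) (Ioo (0:ℝ) (1/2)) := by
    refine Measure.integrableOn_of_bounded (M := 6/5) (by simp) w1.aestronglyMeasurable ?_
    rw [ae_restrict_iff' measurableSet_Ioo]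
    filter_upwards with t ht
    rw [Real.norm_of_nonneg (hp0 t)]
    exact hphib t ht
  have hxI : IntegrableOn (fun t => ‖x t‖ * phi T t) (Ioi 0) := by
    refine IntegrableOn.congr_fun ?_ (fun t ht => (hxn t ht).symm) measurableSet_Ioi
    rw [← integrable_indicator_iff measurableSet_Ioi, indicator_indicator,
      inter_eq_right.2 (fun t ht => ht.1), integrable_indicator_iff measurableSet_Ioo]
    exact hphiI
  have hxle : ∫ t in Ioi (0:ℝ), ‖x t‖ * phi T t ≤ 3/5 := by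
    rw [setIntegral_congr_fun measurableSet_Ioi hxn,
      setIntegral_indicator measurableSet_Ioo, inter_eq_right.2 (fun t ht => ht.1)]
    calc ∫ t in Ioo (0:ℝ) (1/2), phi T t ≤ ∫ t in Ioo (0:ℝ) (1/2), (6/5 : ℝ) :=
          setIntegral_mono_on hphiI (by simp) measurableSet_Ioo hphib
      _ = 3/5 := by simp; norm_num
  have hhI : IntegrableOn (fun t => ‖h t‖ * phi T t) (Ioi 0) := by
    have hsum : IntegrableOn (fun t => ∑ τ ∈ s, ‖q τ‖ * (|ff T (t - τ)| * phi T t)) (Ioi 0) :=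
      integrable_finsetSum s fun τ hτ => (f4 τ (hs τ hτ)).const_mul _
    refine Integrable.mono' hsum ?_ ?_
    · exact (hhm.norm.mul w1).aestronglyMeasurable
    · filter_upwards with t
      rw [norm_mul, norm_norm, Real.norm_of_nonneg (hp0 t), hh]
      simp only
      calc ‖∑ τ ∈ s, q τ * (ff T (t - τ) : ℂ)‖ * phi T t
          ≤ (∑ τ ∈ s, ‖q τ * (ff T (t - τ) : ℂ)‖) * phi T t :=
            mul_le_mul_of_nonneg_right (norm_sum_le _ _) (hp0 t)
        _ = ∑ τ ∈ s, ‖q τ‖ * (|ff T (t - τ)| * phi T t) := by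
            rw [Finset.sum_mul]
            apply Finset.sum_congr rfl
            intro τ _
            rw [norm_mul, Complex.norm_real, Real.norm_eq_abs]; ring
  have hdI : IntegrableOn (fun t => ‖x t - h t‖ * phi T t) (Ioi 0) := by
    refine Integrable.mono' (hxI.add hhI) ((hxm.sub hhm).norm.mul w1).aestronglyMeasurable ?_
    filter_upwards with t
    rw [norm_mul, norm_norm, Real.norm_of_nonneg (hp0 t)]
    simp only [Pi.add_apply]
    rw [← add_mul]
    exact mul_le_mul_of_nonneg_right (norm_sub_le _ _) (hp0 t)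
  set N : ℝ := ∫ t in Ioi (0:ℝ), ‖x t - h t‖ * phi T t with hN
  change (1/10 : ℝ) ≤ N
  have hN0 : 0 ≤ N := integral_nonneg fun t => mul_nonneg (norm_nonneg _) (hp0 t)
  have hhle : ∫ t in Ioi (0:ℝ), ‖h t‖ * phi T t ≤ 3/5 + N := by
    calc ∫ t in Ioi (0:ℝ), ‖h t‖ * phi T t
        ≤ ∫ t in Ioi (0:ℝ), (‖x t‖ * phi T t + ‖x t - h t‖ * phi T t) := by
          refine integral_mono hhI (hxI.add hdI) fun t => ?_
          simp only
          rw [← add_mul]
          refine mul_le_mul_of_nonneg_right ?_ (hp0 t)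
          have := norm_sub_le (x t) (x t - h t)
          rwa [sub_sub_cancel] at this
      _ = (∫ t in Ioi (0:ℝ), ‖x t‖ * phi T t) + N := integral_add hxI hdI
      _ ≤ 3/5 + N := by linarith
  have h1 := core G s hs q (3/5 + N) (by linarith) hhle
  -- the difference
  have Hd : Adm T (fun t => x t - h t) N :=
    ⟨(hxm.sub hhm).aestronglyMeasurable, hdI, le_rfl⟩
  have Hx : Adm T x (3/5) := ⟨hxm.aestronglyMeasurable, hxI, hxle⟩
  have Hh : Adm T h (3/5 + N) := ⟨hhm.aestronglyMeasurable, hhI, hhle⟩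
  have he := eps_pos T hpos 0
  have h0re : |(0:ℂ).re| ≤ eps T 0 / 2 := by simp; positivity
  have h0im : bot 0 < (0:ℂ).im := by simp [bot]
  have h2 := KK_bound T hpos hdvd hhalf Hd 0 0 h0re h0im
  have hE : ∀ t ∈ Ioo (0:ℝ) ((T 1 : ℝ) / 2), ‖E1 T 0 0 (zet T 0 0) t‖ ≤ phi T t := by
    intro t ht
    refine E1_le T hpos hdvd hhalf 0 0 _ h0re ?_ t ht
    have := cc_pos 0
    exact (zet_le T hpos hhalf 0 0 h0re h0im).trans (Real.exp_le_exp.2 (by linarith))
  have hsub : Ioo (0:ℝ) ((T 1 : ℝ) / 2) ⊆ Ioi 0 := fun t ht => ht.1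
  have hxE : IntegrableOn (fun t => x t * E1 T 0 0 (zet T 0 0) t) (Ioo (0:ℝ) ((T 1 : ℝ) / 2)) := by
    refine Integrable.mono' (hxI.mono_set hsub)
      (hxm.mul (measurable_E1 T 0 0 _)).aestronglyMeasurable ?_
    rw [ae_restrict_iff' measurableSet_Ioo]
    filter_upwards with t ht
    rw [norm_mul]
    exact mul_le_mul_of_nonneg_left (hE t ht) (norm_nonneg _)
  have hhE : IntegrableOn (fun t => h t * E1 T 0 0 (zet T 0 0) t) (Ioo (0:ℝ) ((T 1 : ℝ) / 2)) := by
    refine Integrable.mono' (hhI.mono_set hsub)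
      (hhm.mul (measurable_E1 T 0 0 _)).aestronglyMeasurable ?_
    rw [ae_restrict_iff' measurableSet_Ioo]
    filter_upwards with t ht
    rw [norm_mul]
    exact mul_le_mul_of_nonneg_left (hE t ht) (norm_nonneg _)
  have h3 : KK T 0 (fun t => x t - h t) 0 = KK T 0 x 0 - KK T 0 h 0 := by
    rw [KK_eq, KK_eq, KK_eq, ← integral_sub hxE hhE]
    congr 1
    ext t
    ring
  have h4 : KK T 0 x 0 = 1/2 := by
    rw [KK_eq]
    have hT8 : 8 * (T 0 : ℝ) ≤ T 1 := by exact_mod_cast G.big 0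
    have hT0 := hTR 0
    have hsub2 : Ioo (0:ℝ) (1/2) ⊆ Ioo (0:ℝ) ((T (0+1) : ℝ) / 2) := by
      apply Ioo_subset_Ioo le_rfl
      simp only [zero_add]
      linarith
    have : ∀ t ∈ Ioo (0:ℝ) ((T (0+1) : ℝ) / 2), x t * E1 T 0 0 (zet T 0 0) t
        = (Ioo (0:ℝ) (1/2)).indicator (fun _ => (1:ℂ)) t := by
      intro t _
      rw [hx]
      by_cases ht : t ∈ Ioo (0:ℝ) (1/2)
      · simp only [indicator_of_mem ht]
        unfold E1
        rw [mm_zero T hpos 0 t ht.1.le (by linarith [ht.2])]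
        simp
      · simp only [indicator_of_notMem ht, zero_mul]
    rw [setIntegral_congr_fun measurableSet_Ioo this, setIntegral_indicator measurableSet_Ioo,
      inter_eq_right.2 hsub2]
    simp
  rw [h3, h4] at h2
  have h5 : ‖(1/2 : ℂ)‖ ≤ ‖(1/2 : ℂ) - KK T 0 h 0‖ + ‖KK T 0 h 0‖ := by
    have := norm_add_le ((1/2 : ℂ) - KK T 0 h 0) (KK T 0 h 0)
    rwa [sub_add_cancel] at this
  have h6 : ‖(1/2 : ℂ)‖ = 1/2 := by
    rw [show (1/2 : ℂ) = ((1/2 : ℝ) : ℂ) by norm_num, Complex.norm_real]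
    norm_num
  rw [h6] at h5
  have h7 : ‖KK T 0 h 0‖ ≤ (3/5 + N) / 2 := h1
  linarith

theorem ff_ne_zero {T : ℕ → ℕ} (hpos : ∀ n, 1 ≤ T n) (t : ℝ) (h0 : 0 ≤ t) (h1 : t < 1) :
    (ff T t : ℂ) ≠ 0 := by
  have : ff T t = Real.exp (-t) := by
    unfold ff
    rw [if_pos h0]
    have h2 : (fun k => echo T k t) = fun _ => 0 := by
      funext k
      refine echo_eq_zero (lt_of_lt_of_le h1 ?_)
      exact_mod_cast hpos k
    rw [h2]
    simp
  rw [this]
  exact_mod_cast (Real.exp_pos _).ne'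

/-- a continuous weight `φ ≥ 1` on `ℝ` of subexponential growth, a function `f` nonvanishing near
`0` whose Laplace transform has no zero on the closed half plane, and a nonzero `g`
annihilating all right translates of `f` -/
theorem semisimple_package :
    ∃ (φ : ℝ → ℝ) (f g : ℝ → ℂ), Continuous φ ∧ (∀ t, 1 ≤ φ t) ∧
      (∀ s t, φ (s+t) ≤ φ s * φ t) ∧
      Tendsto (fun t => Real.log (φ t) / t) atTop (𝓝 0) ∧
      Measurable f ∧ (∀ t < 0, f t = 0) ∧ (∀ t, 0 ≤ t → t < 1 → f t ≠ 0) ∧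
      IntegrableOn (fun t => ‖f t‖ * φ t) (Ioi 0) ∧
      (∀ z : ℂ, 0 ≤ z.re → ∫ t in Ioi (0:ℝ), f t * Complex.exp (-(z * t)) ≠ 0) ∧
      Measurable g ∧ (∃ C : ℝ, ∀ t, ‖g t‖ ≤ C * φ t) ∧
      (∀ τ > 0, ∫ t in Ioi (0:ℝ), f t * g (t + τ) = 0) ∧
      (∫ t in Ioi (0:ℝ), MP6c344.xx t * g t) ≠ 0 := by
  obtain ⟨T, G⟩ := exists_good
  have hpos := G.pos
  have hdvd := G.dvd
  have hhalf := G.eps_half
  obtain ⟨w1, w2, w3, w4, w5, w6, w7⟩ := weight_facts T hpos hdvd hhalf
  obtain ⟨f1, f2, f3, f4, f5⟩ := ff_facts T hpos G.big w1 w2 w3 w4 w5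
  have hc : Continuous (phi T) := Real.continuous_exp.comp (wf_theta_cont hpos hhalf)
  obtain ⟨g, g1, ⟨C, g2⟩, g3, g4⟩ := duality (phi T) w1 w2 (fun τ t => (ff T (t - τ) : ℂ))
    (fun τ _ => Complex.measurable_ofReal.comp (f1.comp (measurable_id.sub_const τ)))
    (fun τ hτ => by
      refine (f4 τ hτ).congr_fun ?_ measurableSet_Ioi
      intro t _
      simp only
      rw [Complex.norm_real, Real.norm_eq_abs])
    MP6c344.xx MP6c344.xx_meas (MP6c344.xx_int hc) (1/10) (by norm_num)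
    (fun s q hs => dist_pos G s q hs)
  refine ⟨phi T, fun t => (ff T t : ℂ), g, hc, w2, w3, w6, Complex.measurable_ofReal.comp f1,
    ?_, fun t h0 h1 => ff_ne_zero hpos t h0 h1, ?_, ?_, g1, ⟨C, g2⟩, ?_, g4⟩
  · intro t ht
    simp only [f2 t ht, Complex.ofReal_zero]
  · refine f3.congr_fun ?_ measurableSet_Ioi
    intro t _
    simp only
    rw [Complex.norm_real, Real.norm_eq_abs]
  · intro z hz h0
    have := (f5 z hz).1
    rw [h0, norm_zero] at this
    have hne : 0 < ‖1 + z‖ := by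
      rw [norm_pos_iff]
      intro h1
      have := congrArg Complex.re h1
      simp at this
      linarith
    have h3 : 0 < (1/2 : ℝ) / ‖1 + z‖ := by positivity
    linarith
  · intro τ hτ
    rw [MP6c344.shift_integral (ff T) f2 g τ hτ]
    exact g3 τ hτ

end MP27fa52
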