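import Pool.Agent.MP27fa52.Defs

open MeasureTheory Set Filter Topology

namespace MP27fa52


theorem wf_cc_pos (k : ℕ) : 0 < cc k := by
  unfold cc
  have := Real.log_pos (show (1:ℝ) < 2 by norm_num)
  positivity

theorem wf_T_pos {T : ℕ → ℕ} (hpos : ∀ n, 1 ≤ T n) (n : ℕ) : (0:ℝ) < T n := by
  exact_mod_cast hpos n

theorem wf_eps_pos {T : ℕ → ℕ} (hpos : ∀ n, 1 ≤ T n) (k : ℕ) : 0 < eps T k := by
  cases k with
  | zero => unfold eps; norm_num
  | succ k => exact div_pos (wf_cc_pos k) (wf_T_pos hpos k)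

theorem wf_eps_succ {T : ℕ → ℕ} (hhalf : ∀ n, cc n / T n ≤ eps T n / 2) (k : ℕ) :
    eps T (k+1) ≤ eps T k / 2 := hhalf k

theorem wf_eps_mul {T : ℕ → ℕ} (hpos : ∀ n, 1 ≤ T n) (k : ℕ) : eps T (k+1) * T k = cc k := by
  have h := (wf_T_pos hpos k).ne'
  show cc k / T k * T k = cc k
  field_simp

theorem wf_eps_geom {T : ℕ → ℕ} (hhalf : ∀ n, cc n / T n ≤ eps T n / 2) (n k : ℕ) :
    eps T (k + n) ≤ eps T n * (1/2) ^ k := by
  induction k with
  | zero => simp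
  | succ k ih =>
    have h1 := wf_eps_succ hhalf (k + n)
    have h2 : k + 1 + n = k + n + 1 := by ring
    rw [h2, pow_succ]
    linarith

theorem wf_sum_geom (a : ℝ) : Summable (fun k : ℕ => a * (1/2 : ℝ) ^ k) :=
  summable_geometric_two.mul_left a

theorem wf_tsum_geom (a : ℝ) : ∑' k : ℕ, a * (1/2 : ℝ) ^ k = 2 * a := by
  rw [tsum_mul_left, tsum_geometric_two]
  ring

theorem wf_eps_summable {T : ℕ → ℕ} (hpos : ∀ n, 1 ≤ T n)
    (hhalf : ∀ n, cc n / T n ≤ eps T n / 2) (n : ℕ) : Summable (fun k => eps T (k + n)) :=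
  Summable.of_nonneg_of_le (fun k => (wf_eps_pos hpos _).le) (wf_eps_geom hhalf n)
    (wf_sum_geom _)

theorem wf_eps_tsum {T : ℕ → ℕ} (hpos : ∀ n, 1 ≤ T n)
    (hhalf : ∀ n, cc n / T n ≤ eps T n / 2) (n : ℕ) : ∑' k, eps T (k + n) ≤ 2 * eps T n := by
  rw [← wf_tsum_geom]
  exact Summable.tsum_le_tsum (wf_eps_geom hhalf n) (wf_eps_summable hpos hhalf n) (wf_sum_geom _)

theorem wf_rr_dist {T : ℕ → ℕ} (hpos : ∀ n, 1 ≤ T n) (k : ℕ) (t : ℝ) (z : ℤ) :
    |rr T k t| ≤ |t - z * T k| := by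
  have hT := wf_T_pos hpos k
  have h := round_le (t / (T k : ℝ)) z
  have e : ∀ y : ℝ, |t - y * T k| = |t / (T k : ℝ) - y| * T k := by
    intro y
    rw [← abs_of_pos hT, ← abs_mul, abs_of_pos hT]
    congr 1
    field_simp
  unfold rr mm
  rw [e, e]
  exact mul_le_mul_of_nonneg_right h hT.le

theorem wf_rr_abs {T : ℕ → ℕ} (hpos : ∀ n, 1 ≤ T n) (k : ℕ) (t : ℝ) : |rr T k t| ≤ |t| := by
  have h := wf_rr_dist hpos k t 0
  simpa using h

theorem wf_rr_half {T : ℕ → ℕ} (hpos : ∀ n, 1 ≤ T n) (k : ℕ) (t : ℝ) :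
    |rr T k t| ≤ T k / 2 := by
  have hT := wf_T_pos hpos k
  have h := abs_sub_round (t / (T k : ℝ))
  have e : ∀ y : ℝ, |t - y * T k| = |t / (T k : ℝ) - y| * T k := by
    intro y
    rw [← abs_of_pos hT, ← abs_mul, abs_of_pos hT]
    congr 1
    field_simp
  unfold rr mm
  rw [e]
  calc |t / (T k : ℝ) - round (t / (T k : ℝ))| * T k ≤ 1 / 2 * T k :=
        mul_le_mul_of_nonneg_right h hT.le
    _ = T k / 2 := by ring

theorem wf_rr_add {T : ℕ → ℕ} (hpos : ∀ n, 1 ≤ T n) (k : ℕ) (s t : ℝ) :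
    |rr T k (s + t)| ≤ |rr T k s| + |rr T k t| := by
  have h := wf_rr_dist hpos k (s + t) (mm T k s + mm T k t)
  refine le_trans h ?_
  have e : s + t - ((mm T k s + mm T k t : ℤ) : ℝ) * T k = rr T k s + rr T k t := by
    unfold rr
    push_cast
    ring
  rw [e]
  exact abs_add_le _ _

theorem wf_dvd {T : ℕ → ℕ} (hdvd : ∀ n, T n ∣ T (n+1)) {k j : ℕ} (h : k ≤ j) : T k ∣ T j := by
  induction j, h using Nat.le_induction with
  | base => exact dvd_rfl
  | succ j _ ih => exact ih.trans (hdvd j)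

theorem wf_rr_T {T : ℕ → ℕ} (hpos : ∀ n, 1 ≤ T n) (hdvd : ∀ n, T n ∣ T (n+1)) {k j : ℕ}
    (h : k ≤ j) : |rr T k (T j)| = 0 := by
  obtain ⟨c, hc⟩ := wf_dvd hdvd h
  have h1 := wf_rr_dist hpos k (T j) c
  have e : ((T j : ℕ) : ℝ) - ((c : ℤ) : ℝ) * T k = 0 := by
    rw [hc]
    push_cast
    ring
  rw [e, abs_zero] at h1
  exact le_antisymm h1 (abs_nonneg _)

theorem wf_summable {T : ℕ → ℕ} (hpos : ∀ n, 1 ≤ T n)
    (hhalf : ∀ n, cc n / T n ≤ eps T n / 2) (t : ℝ) :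
    Summable (fun k => eps T k * |rr T k t|) := by
  have h0 := wf_eps_summable hpos hhalf 0
  simp only [add_zero] at h0
  exact Summable.of_nonneg_of_le (fun k => mul_nonneg (wf_eps_pos hpos _).le (abs_nonneg _))
    (fun k => mul_le_mul_of_nonneg_left (wf_rr_abs hpos k t) (wf_eps_pos hpos _).le)
    (h0.mul_right |t|)

theorem wf_theta_nonneg {T : ℕ → ℕ} (hpos : ∀ n, 1 ≤ T n) (t : ℝ) : 0 ≤ theta T t :=
  tsum_nonneg (fun k => mul_nonneg (wf_eps_pos hpos _).le (abs_nonneg _))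

/-- splitting bound -/
theorem wf_theta_split {T : ℕ → ℕ} (hpos : ∀ n, 1 ≤ T n)
    (hhalf : ∀ n, cc n / T n ≤ eps T n / 2) (t : ℝ) (n : ℕ) :
    theta T t ≤ ∑ k ∈ Finset.range n, eps T k * |rr T k t| + 2 * eps T n * |t| := by
  have hs := wf_summable hpos hhalf t
  have h1 : theta T t = ∑ k ∈ Finset.range n, eps T k * |rr T k t| +
      ∑' k, eps T (k + n) * |rr T (k + n) t| := (hs.sum_add_tsum_nat_add n).symm
  rw [h1]
  have hs2 : Summable (fun k => eps T (k + n) * |rr T (k + n) t|) :=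
    (summable_nat_add_iff n).2 hs
  have h2 : ∑' k, eps T (k + n) * |rr T (k + n) t| ≤ ∑' k, eps T (k + n) * |t| :=
    Summable.tsum_le_tsum
      (fun k => mul_le_mul_of_nonneg_left (wf_rr_abs hpos _ t) (wf_eps_pos hpos _).le)
      hs2 ((wf_eps_summable hpos hhalf n).mul_right _)
  rw [tsum_mul_right] at h2
  have h3 := mul_le_mul_of_nonneg_right (wf_eps_tsum hpos hhalf n) (abs_nonneg t)
  linarith

theorem wf_theta_le {T : ℕ → ℕ} (hpos : ∀ n, 1 ≤ T n)
    (hhalf : ∀ n, cc n / T n ≤ eps T n / 2) (t : ℝ) : theta T t ≤ |t| / 4 := by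
  have h := wf_theta_split hpos hhalf t 0
  rw [Finset.range_zero, Finset.sum_empty, zero_add] at h
  have : eps T 0 = 1/8 := rfl
  rw [this] at h
  linarith

theorem wf_theta_add {T : ℕ → ℕ} (hpos : ∀ n, 1 ≤ T n)
    (hhalf : ∀ n, cc n / T n ≤ eps T n / 2) (s t : ℝ) :
    theta T (s + t) ≤ theta T s + theta T t := by
  have hs := wf_summable hpos hhalf s
  have ht := wf_summable hpos hhalf t
  have hst := wf_summable hpos hhalf (s + t)
  unfold theta
  rw [← hs.tsum_add ht]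
  apply Summable.tsum_le_tsum _ hst (hs.add ht)
  intro k
  rw [← mul_add]
  exact mul_le_mul_of_nonneg_left (wf_rr_add hpos k s t) (wf_eps_pos hpos _).le

theorem wf_theta_cont {T : ℕ → ℕ} (hpos : ∀ n, 1 ≤ T n)
    (hhalf : ∀ n, cc n / T n ≤ eps T n / 2) : Continuous (theta T) := by
  have : LipschitzWith 1 (theta T) := by
    apply LipschitzWith.of_le_add
    intro x y
    have h1 := wf_theta_add hpos hhalf (x - y) y
    have h2 := wf_theta_le hpos hhalf (x - y)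
    rw [sub_add_cancel] at h1
    rw [Real.dist_eq]
    have := abs_nonneg (x - y)
    linarith
  exact this.continuous

theorem wf_theta_T {T : ℕ → ℕ} (hpos : ∀ n, 1 ≤ T n) (hdvd : ∀ n, T n ∣ T (n+1))
    (hhalf : ∀ n, cc n / T n ≤ eps T n / 2) (k : ℕ) : theta T (T k) ≤ 2 * cc k := by
  have h := wf_theta_split hpos hhalf (T k) (k + 1)
  have h0 : ∑ j ∈ Finset.range (k + 1), eps T j * |rr T j (T k)| = 0 := by
    apply Finset.sum_eq_zero
    intro j hj
    rw [wf_rr_T hpos hdvd (by have := Finset.mem_range.1 hj; omega), mul_zero]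
  rw [h0, zero_add, abs_of_pos (wf_T_pos hpos k), mul_assoc, wf_eps_mul hpos] at h
  exact h

theorem wf_theta_lim {T : ℕ → ℕ} (hpos : ∀ n, 1 ≤ T n)
    (hhalf : ∀ n, cc n / T n ≤ eps T n / 2) (ε : ℝ) (hε : 0 < ε) :
    ∃ R : ℝ, 0 < R ∧ ∀ t : ℝ, R ≤ |t| → |theta T t / t| < ε := by
  obtain ⟨N, hN⟩ : ∃ N : ℕ, 2 * eps T N < ε / 2 := by
    have h1 : Tendsto (fun n : ℕ => 2 * ((1/8 : ℝ) * (1/2) ^ n)) atTop (𝓝 (2 * (1/8 * 0))) :=
      ((tendsto_pow_atTop_nhds_zero_of_lt_one (by norm_num) (by norm_num)).const_mul _).const_mul _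
    have h2 : 2 * (1/8 * 0) < ε / 2 := by simp [hε]
    obtain ⟨N, hN⟩ := (h1.eventually (gt_mem_nhds h2)).exists
    refine ⟨N, lt_of_le_of_lt ?_ hN⟩
    have := wf_eps_geom hhalf 0 N
    have h3 : eps T 0 = 1/8 := rfl
    rw [add_zero, h3] at this
    linarith
  obtain ⟨A, hA⟩ : ∃ A : ℝ, A = ∑ k ∈ Finset.range N, eps T k * (T k / 2) := ⟨_, rfl⟩
  have hA0 : 0 ≤ A := by
    rw [hA]
    apply Finset.sum_nonneg
    intro k _
    have h1 := wf_eps_pos hpos k
    have h2 := wf_T_pos hpos k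
    positivity
  have hb : ∀ t, theta T t ≤ A + 2 * eps T N * |t| := by
    intro t
    have h := wf_theta_split hpos hhalf t N
    have h2 : ∑ k ∈ Finset.range N, eps T k * |rr T k t| ≤ A := by
      rw [hA]
      apply Finset.sum_le_sum
      intro k _
      exact mul_le_mul_of_nonneg_left (wf_rr_half hpos k t) (wf_eps_pos hpos _).le
    linarith
  refine ⟨2 * A / ε + 1, by positivity, ?_⟩
  intro t ht
  have ht0 : 0 < |t| := lt_of_lt_of_le (by positivity) ht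
  rw [abs_div, abs_of_nonneg (wf_theta_nonneg hpos t), div_lt_iff₀ ht0]
  have h1 := hb t
  have h2 : A < ε / 2 * |t| := by
    have : ε / 2 * (2 * A / ε + 1) ≤ ε / 2 * |t| := mul_le_mul_of_nonneg_left ht (by positivity)
    have h3 : ε / 2 * (2 * A / ε + 1) = A + ε / 2 := by
      field_simp
    linarith
  have h3 : 2 * eps T N * |t| ≤ ε / 2 * |t| := mul_le_mul_of_nonneg_right hN.le ht0.le
  linarith

/-- basic facts on the weight -/
theorem weight_facts (T : ℕ → ℕ) (hpos : ∀ n, 1 ≤ T n) (hdvd : ∀ n, T n ∣ T (n+1))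
    (hhalf : ∀ n, cc n / T n ≤ eps T n / 2) :
    Measurable (phi T) ∧ (∀ t, 1 ≤ phi T t) ∧ (∀ s t, phi T (s+t) ≤ phi T s * phi T t) ∧
    (∀ t, phi T t ≤ Real.exp (|t| / 4)) ∧ (∀ k, phi T (T k) ≤ Real.exp (2 * cc k)) ∧
    Tendsto (fun t => Real.log (phi T t) / t) atTop (𝓝 0) ∧
    Tendsto (fun t => Real.log (phi T t) / t) atBot (𝓝 0) := by
  refine ⟨(Real.continuous_exp.comp (wf_theta_cont hpos hhalf)).measurable, ?_, ?_, ?_, ?_, ?_, ?_⟩
  · intro t
    exact Real.one_le_exp (wf_theta_nonneg hpos t)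
  · intro s t
    unfold phi
    rw [← Real.exp_add]
    exact Real.exp_le_exp.2 (wf_theta_add hpos hhalf s t)
  · intro t
    exact Real.exp_le_exp.2 (wf_theta_le hpos hhalf t)
  · intro k
    exact Real.exp_le_exp.2 (wf_theta_T hpos hdvd hhalf k)
  · rw [Metric.tendsto_nhds]
    intro ε hε
    obtain ⟨R, hR, hRt⟩ := wf_theta_lim hpos hhalf ε hε
    filter_upwards [eventually_ge_atTop R] with t ht
    rw [Real.dist_eq, sub_zero]
    unfold phi
    rw [Real.log_exp]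
    exact hRt t (le_trans ht (le_abs_self t))
  · rw [Metric.tendsto_nhds]
    intro ε hε
    obtain ⟨R, hR, hRt⟩ := wf_theta_lim hpos hhalf ε hε
    filter_upwards [eventually_le_atBot (-R)] with t ht
    rw [Real.dist_eq, sub_zero]
    unfold phi
    rw [Real.log_exp]
    exact hRt t (le_trans (by linarith) (neg_le_abs t))

theorem wf_rr_small {T : ℕ → ℕ} (hpos : ∀ n, 1 ≤ T n) (n : ℕ) (t : ℝ) (ht0 : 0 ≤ t)
    (ht : t < (T n : ℝ) / 2) : rr T n t = t := by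
  have hT := wf_T_pos hpos n
  have h1 : round (t / (T n : ℝ)) = 0 := by
    rw [round_eq_zero_iff]
    constructor
    · have : 0 ≤ t / (T n : ℝ) := by positivity
      linarith
    · rw [div_lt_iff₀ hT]
      linarith
  unfold rr mm
  rw [h1]
  simp

/-- lower bound for the weight, one level -/
theorem weight_lower1 (T : ℕ → ℕ) (hpos : ∀ n, 1 ≤ T n) (hdvd : ∀ n, T n ∣ T (n+1))
    (hhalf : ∀ n, cc n / T n ≤ eps T n / 2) (n : ℕ) (t : ℝ) (ht0 : 0 ≤ t)
    (ht : t < (T (n+1) : ℝ) / 2) :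
    cc n * mm T n t + eps T n / 2 * |rr T n t| ≤ theta T t := by
  have hs := wf_summable hpos hhalf t
  have h1 : ∑ k ∈ ({n, n+1} : Finset ℕ), eps T k * |rr T k t| ≤ theta T t :=
    hs.sum_le_tsum _ (fun k _ => mul_nonneg (wf_eps_pos hpos _).le (abs_nonneg _))
  rw [Finset.sum_pair (by omega), wf_rr_small hpos (n+1) t ht0 ht, abs_of_nonneg ht0] at h1
  have h2 : t = mm T n t * T n + rr T n t := by
    unfold rr
    ring
  have h3 := wf_eps_mul hpos n
  have h4 : eps T (n+1) * t = cc n * mm T n t + eps T (n+1) * rr T n t := by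
    rw [← h3]
    nth_rw 1 [h2]
    ring
  have h5 : -|rr T n t| ≤ rr T n t := neg_abs_le _
  have h6 := wf_eps_succ hhalf n
  have h7 := wf_eps_pos hpos (n+1)
  have h8 := abs_nonneg (rr T n t)
  have h9 : eps T (n+1) * (-|rr T n t|) ≤ eps T (n+1) * rr T n t :=
    mul_le_mul_of_nonneg_left h5 h7.le
  have h10 : eps T (n+1) * |rr T n t| ≤ eps T n / 2 * |rr T n t| :=
    mul_le_mul_of_nonneg_right h6 h8
  linarith

/-- lower bound for the weight, two levels -/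
theorem weight_lower2 (T : ℕ → ℕ) (hpos : ∀ n, 1 ≤ T n) (hdvd : ∀ n, T n ∣ T (n+1))
    (hhalf : ∀ n, cc n / T n ≤ eps T n / 2) (n : ℕ) (t : ℝ) (ht0 : 0 ≤ t)
    (ht : t < (T (n+2) : ℝ) / 2) :
    cc (n+1) * mm T (n+1) t
      + cc n / 2 * |((mm T n t - ((T (n+1) / T n : ℕ) : ℤ) * mm T (n+1) t : ℤ) : ℝ)|
      + eps T n / 2 * |rr T n t| ≤ theta T t := by
  have hs := wf_summable hpos hhalf t
  have h1 : ∑ k ∈ ({n, n+1, n+2} : Finset ℕ), eps T k * |rr T k t| ≤ theta T t :=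
    hs.sum_le_tsum _ (fun k _ => mul_nonneg (wf_eps_pos hpos _).le (abs_nonneg _))
  rw [Finset.sum_insert (by simp), Finset.sum_pair (by omega),
    wf_rr_small hpos (n+2) t ht0 ht, abs_of_nonneg ht0] at h1
  obtain ⟨r, hr⟩ : ∃ r, r = rr T n t := ⟨_, rfl⟩
  obtain ⟨R, hR⟩ : ∃ R, R = rr T (n+1) t := ⟨_, rfl⟩
  obtain ⟨M, hM⟩ : ∃ M : ℝ, M = mm T (n+1) t := ⟨_, rfl⟩
  obtain ⟨m, hm⟩ : ∃ m : ℝ, m = mm T n t := ⟨_, rfl⟩
  have h2 : t = m * T n + r := by
    rw [hm, hr]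
    unfold rr
    ring
  have h2' : t = M * T (n+1) + R := by
    rw [hM, hR]
    unfold rr
    ring
  obtain ⟨c, hc⟩ := hdvd n
  have hdiv : T (n+1) / T n = c := by
    rw [hc]
    exact Nat.mul_div_cancel_left c (hpos n)
  have hcast : ((mm T n t - ((T (n+1) / T n : ℕ) : ℤ) * mm T (n+1) t : ℤ) : ℝ) = m - c * M := by
    rw [hdiv, hm, hM]
    push_cast
    ring
  rw [hcast, ← hr, ← hM]
  rw [← hr, ← hR] at h1
  have hcR : (T (n+1) : ℝ) = T n * c := by
    rw [hc]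
    push_cast
    ring
  have hRm : (m - c * M) * T n = R - r := by
    have h3 : m * T n + r = M * T (n+1) + R := by rw [← h2, ← h2']
    rw [hcR] at h3
    linarith
  have h3 := wf_eps_mul hpos n
  have h3' : eps T (n+2) * T (n+1) = cc (n+1) := wf_eps_mul hpos (n+1)
  have h4 : eps T (n+2) * t = cc (n+1) * M + eps T (n+2) * R := by
    rw [← h3']
    nth_rw 1 [h2']
    ring
  have e1 := wf_eps_succ hhalf n
  have e2 : eps T (n+2) ≤ eps T (n+1) / 2 := wf_eps_succ hhalf (n+1)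
  have p0 := wf_eps_pos hpos n
  have p1 := wf_eps_pos hpos (n+1)
  have p2 := wf_eps_pos hpos (n+2)
  have h5 : eps T (n+2) * (-|R|) ≤ eps T (n+2) * R :=
    mul_le_mul_of_nonneg_left (neg_abs_le _) p2.le
  have h6 : eps T (n+2) * |R| ≤ eps T (n+1) / 2 * |R| :=
    mul_le_mul_of_nonneg_right e2 (abs_nonneg _)
  have hT := wf_T_pos hpos n
  have h7 : |m - c * M| * T n ≤ |R| + |r| := by
    rw [← abs_of_pos hT, ← abs_mul, hRm]
    exact abs_sub _ _
  have h8 : cc n / 2 * |m - c * M| ≤ eps T (n+1) / 2 * (|R| + |r|) := by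
    calc cc n / 2 * |m - c * M| = eps T (n+1) / 2 * (|m - c * M| * T n) := by
          rw [← h3]
          ring
      _ ≤ eps T (n+1) / 2 * (|R| + |r|) := mul_le_mul_of_nonneg_left h7 (by positivity)
  have h9 : eps T (n+1) * |r| ≤ eps T n / 2 * |r| :=
    mul_le_mul_of_nonneg_right e1 (abs_nonneg _)
  have h10 : 0 ≤ eps T n * |r| := mul_nonneg p0.le (abs_nonneg _)
  linarith

end MP27fa52
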