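import Pool.Agent.MP27fa52.Chi
import Pool.Agent.MP27fa52.Weight
import Pool.Agent.MP27fa52.Param

open MeasureTheory Set Filter Topology

set_option linter.unusedSectionVars false

namespace MP27fa52

section
variable (T : ℕ → ℕ) (hpos : ∀ n, 1 ≤ T n) (hdvd : ∀ n, T n ∣ T (n+1))
  (hhalf : ∀ n, cc n / T n ≤ eps T n / 2)

theorem measurable_mm (n : ℕ) : Measurable (mm T n) := by
  unfold mm
  simp_rw [round_eq]
  exact Int.measurable_floor.comp (by fun_prop)

theorem measurable_rr (n : ℕ) : Measurable (rr T n) := by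
  unfold rr
  have h1 : Measurable (fun t => ((mm T n t : ℤ) : ℝ)) :=
    (measurable_of_countable (fun k : ℤ => (k : ℝ))).comp (measurable_mm T n)
  exact measurable_id.sub (h1.mul_const _)

include hpos in
theorem mm_nonneg (n : ℕ) (t : ℝ) (ht : 0 ≤ t) : 0 ≤ mm T n t := by
  have hT : (0:ℝ) < T n := by exact_mod_cast hpos n
  unfold mm
  rw [round_eq]
  exact Int.floor_nonneg.2 (by positivity)

include hpos in
theorem mm_zero (n : ℕ) (t : ℝ) (ht : 0 ≤ t) (ht2 : t < (T n : ℝ) / 2) : mm T n t = 0 := by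
  have hT : (0:ℝ) < T n := by exact_mod_cast hpos n
  unfold mm
  rw [round_eq_zero_iff]
  constructor
  · have : 0 ≤ t / (T n : ℝ) := by positivity
    linarith
  · rw [div_lt_iff₀ hT]; linarith

include hpos in
theorem mm_pos' (n : ℕ) (t : ℝ) (ht2 : (T n : ℝ) / 2 ≤ t) : 0 < mm T n t := by
  have hT : (0:ℝ) < T n := by exact_mod_cast hpos n
  unfold mm
  rw [round_eq]
  have h1 : (1:ℝ) ≤ t / (T n : ℝ) + 1/2 := by
    have : 1/2 ≤ t / (T n : ℝ) := by rw [le_div_iff₀ hT]; linarith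
    linarith
  have h2 : (1:ℤ) ≤ ⌊t / (T n : ℝ) + 1/2⌋ := Int.le_floor.2 (by exact_mod_cast h1)
  omega

/-- kernel of the transform of level `n` -/
noncomputable def E1 (n : ℕ) (l z : ℂ) (t : ℝ) : ℂ :=
  z ^ (mm T n t).toNat * Complex.exp (l * rr T n t)

/-- kernel of the two level transform -/
noncomputable def E2 (n : ℕ) (l Z z : ℂ) (t : ℝ) : ℂ :=
  Z ^ (mm T (n+1) t).toNat *
    z ^ (mm T n t - ((T (n+1) / T n : ℕ) : ℤ) * mm T (n+1) t) * Complex.exp (l * rr T n t)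

theorem measurable_E1 (n : ℕ) (l z : ℂ) : Measurable (E1 T n l z) := by
  unfold E1
  have h1 : Measurable (fun t => z ^ (mm T n t).toNat) :=
    (measurable_of_countable (fun k : ℤ => z ^ k.toNat)).comp (measurable_mm T n)
  have h2 : Measurable (fun t => Complex.exp (l * rr T n t)) := by
    have := measurable_rr T n
    fun_prop
  exact h1.mul h2

theorem measurable_E2 (n : ℕ) (l Z z : ℂ) : Measurable (E2 T n l Z z) := by
  unfold E2
  have h0 : Measurable (fun t => Z ^ (mm T (n+1) t).toNat) :=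
    (measurable_of_countable (fun k : ℤ => Z ^ k.toNat)).comp (measurable_mm T (n+1))
  have h1 : Measurable (fun t => z ^ (mm T n t - ((T (n+1) / T n : ℕ) : ℤ) * mm T (n+1) t)) := by
    have : Measurable (fun t => (mm T n t, mm T (n+1) t)) :=
      (measurable_mm T n).prodMk (measurable_mm T (n+1))
    exact (measurable_of_countable
      (fun p : ℤ × ℤ => z ^ (p.1 - ((T (n+1) / T n : ℕ) : ℤ) * p.2))).comp this
  have h2 : Measurable (fun t => Complex.exp (l * rr T n t)) := by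
    have := measurable_rr T n
    fun_prop
  exact (h0.mul h1).mul h2

theorem norm_exp_rr (n : ℕ) (l : ℂ) (t : ℝ) (e : ℝ) (hl : |l.re| ≤ e) :
    ‖Complex.exp (l * rr T n t)‖ ≤ Real.exp (e * |rr T n t|) := by
  rw [Complex.norm_exp]
  apply Real.exp_le_exp.2
  have : (l * (rr T n t : ℂ)).re = l.re * rr T n t := by simp
  rw [this]
  calc l.re * rr T n t ≤ |l.re * rr T n t| := le_abs_self _
    _ = |l.re| * |rr T n t| := abs_mul _ _
    _ ≤ e * |rr T n t| := mul_le_mul_of_nonneg_right hl (abs_nonneg _)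

theorem pow_toNat_le (m : ℤ) (hm : 0 ≤ m) (z : ℂ) (c : ℝ) (hz : ‖z‖ ≤ Real.exp c) :
    ‖z ^ m.toNat‖ ≤ Real.exp (c * m) := by
  rw [norm_pow]
  calc ‖z‖ ^ m.toNat ≤ (Real.exp c) ^ m.toNat := pow_le_pow_left₀ (norm_nonneg _) hz _
    _ = Real.exp (c * m) := by
      rw [← Real.exp_nat_mul]
      congr 1
      have : ((m.toNat : ℕ) : ℝ) = (m : ℝ) := by
        have := Int.toNat_of_nonneg hm
        exact_mod_cast this
      rw [this]; ring

theorem zpow_norm_le (m : ℤ) (z : ℂ) (c : ℝ) (hc : 0 ≤ c) (hz1 : 1 ≤ ‖z‖) (hz : ‖z‖ ≤ Real.exp c) :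
    ‖z ^ m‖ ≤ Real.exp (c * |(m:ℝ)|) := by
  rw [norm_zpow]
  rcases le_total 0 m with h | h
  · obtain ⟨k, rfl⟩ := Int.eq_ofNat_of_zero_le h
    rw [zpow_natCast]
    calc ‖z‖ ^ k ≤ (Real.exp c) ^ k := pow_le_pow_left₀ (norm_nonneg _) hz _
      _ = Real.exp (c * |((k:ℤ):ℝ)|) := by
        rw [← Real.exp_nat_mul]
        congr 1
        rw [abs_of_nonneg (by positivity)]
        push_cast; ring
  · calc ‖z‖ ^ m ≤ 1 := zpow_le_one_of_nonpos₀ hz1 h
      _ ≤ Real.exp (c * |(m:ℝ)|) := Real.one_le_exp (by positivity)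

include hpos hdvd hhalf

theorem E1_le (n : ℕ) (l z : ℂ) (hl : |l.re| ≤ eps T n / 2) (hz : ‖z‖ ≤ Real.exp (cc n)) (t : ℝ)
    (ht : t ∈ Ioo (0:ℝ) ((T (n+1) : ℝ) / 2)) : ‖E1 T n l z t‖ ≤ phi T t := by
  unfold E1 phi
  rw [norm_mul]
  have h1 := pow_toNat_le (mm T n t) (mm_nonneg T hpos n t ht.1.le) z (cc n) hz
  have h2 := norm_exp_rr T n l t _ hl
  calc _ ≤ Real.exp (cc n * mm T n t) * Real.exp (eps T n / 2 * |rr T n t|) :=
        mul_le_mul h1 h2 (norm_nonneg _) (Real.exp_pos _).le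
    _ = Real.exp (cc n * mm T n t + eps T n / 2 * |rr T n t|) := (Real.exp_add _ _).symm
    _ ≤ _ := Real.exp_le_exp.2 (weight_lower1 T hpos hdvd hhalf n t ht.1.le ht.2)

theorem E2_le (n : ℕ) (l Z z : ℂ) (hl : |l.re| ≤ eps T n / 2) (hZ : ‖Z‖ ≤ Real.exp (cc (n+1)))
    (hz1 : 1 ≤ ‖z‖) (hz : ‖z‖ ≤ Real.exp (cc n / 2)) (t : ℝ)
    (ht : t ∈ Ioo (0:ℝ) ((T (n+2) : ℝ) / 2)) : ‖E2 T n l Z z t‖ ≤ phi T t := by
  unfold E2 phi
  rw [norm_mul, norm_mul]
  have hcc := cc_pos n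
  have h1 := pow_toNat_le (mm T (n+1) t) (mm_nonneg T hpos (n+1) t ht.1.le) Z (cc (n+1)) hZ
  have h3 := zpow_norm_le (mm T n t - ((T (n+1) / T n : ℕ) : ℤ) * mm T (n+1) t) z (cc n / 2)
    (by positivity) hz1 hz
  have h2 := norm_exp_rr T n l t _ hl
  calc _ ≤ Real.exp (cc (n+1) * mm T (n+1) t) *
        Real.exp (cc n / 2 * |((mm T n t - ((T (n+1) / T n : ℕ) : ℤ) * mm T (n+1) t : ℤ) : ℝ)|) *
        Real.exp (eps T n / 2 * |rr T n t|) := by gcongr
    _ = Real.exp (cc (n+1) * mm T (n+1) t +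
        cc n / 2 * |((mm T n t - ((T (n+1) / T n : ℕ) : ℤ) * mm T (n+1) t : ℤ) : ℝ)| +
        eps T n / 2 * |rr T n t|) := by rw [Real.exp_add, Real.exp_add]
    _ ≤ _ := Real.exp_le_exp.2 (weight_lower2 T hpos hdvd hhalf n t ht.1.le ht.2)

end


/-- hypotheses on the test function -/
structure Adm (T : ℕ → ℕ) (h : ℝ → ℂ) (M : ℝ) : Prop where
  meas : AEStronglyMeasurable h (volume.restrict (Ioi (0:ℝ)))
  int : IntegrableOn (fun t => ‖h t‖ * phi T t) (Ioi 0)
  le : ∫ t in Ioi (0:ℝ), ‖h t‖ * phi T t ≤ M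

theorem Adm.bound {T : ℕ → ℕ} {h : ℝ → ℂ} {M : ℝ} (H : Adm T h M) (b : ℝ) (E : ℝ → ℂ)
    (hE : ∀ t ∈ Ioo (0:ℝ) b, ‖E t‖ ≤ phi T t) :
    ‖∫ t in Ioo (0:ℝ) b, h t * E t‖ ≤ M := by
  have hsub : Ioo (0:ℝ) b ⊆ Ioi 0 := fun t ht => ht.1
  have hint : IntegrableOn (fun t => ‖h t‖ * phi T t) (Ioo 0 b) := H.int.mono_set hsub
  refine le_trans ?_ H.le
  refine le_trans (norm_integral_le_of_norm_le hint ?_) ?_
  · rw [ae_restrict_iff' measurableSet_Ioo]
    filter_upwards with t ht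
    rw [norm_mul]
    exact mul_le_mul_of_nonneg_left (hE t ht) (norm_nonneg _)
  · refine setIntegral_mono_set H.int ?_ hsub.eventuallyLE
    filter_upwards with t
    exact mul_nonneg (norm_nonneg _) (Real.exp_pos _).le

theorem Adm.nonneg {T : ℕ → ℕ} {h : ℝ → ℂ} {M : ℝ} (H : Adm T h M) : 0 ≤ M :=
  le_trans (integral_nonneg fun t => mul_nonneg (norm_nonneg _) (Real.exp_pos _).le) H.le

section
variable (T : ℕ → ℕ) (hpos : ∀ n, 1 ≤ T n) (hdvd : ∀ n, T n ∣ T (n+1))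
  (hhalf : ∀ n, cc n / T n ≤ eps T n / 2)

/-- two level transform -/
noncomputable def JJ (n : ℕ) (h : ℝ → ℂ) (l z : ℂ) : ℂ :=
  ∫ t in Ioo (0:ℝ) ((T (n+2) : ℝ) / 2), h t * E2 T n l (ZZ T n l z) z t

theorem KK_eq (n : ℕ) (h : ℝ → ℂ) (l : ℂ) :
    KK T n h l = ∫ t in Ioo (0:ℝ) ((T (n+1) : ℝ) / 2), h t * E1 T n l (zet T n l) t := rfl

include hpos hdvd hhalf

theorem KK_bound {h : ℝ → ℂ} {M : ℝ} (H : Adm T h M) (n : ℕ) (l : ℂ)
    (hl : |l.re| ≤ eps T n / 2) (hi : bot n < l.im) : ‖KK T n h l‖ ≤ M := by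
  rw [KK_eq]
  apply H.bound
  intro t ht
  refine E1_le T hpos hdvd hhalf n l _ hl ?_ t ht
  refine (zet_le T hpos hhalf n l hl hi).trans (Real.exp_le_exp.2 ?_)
  have := cc_pos n
  linarith

theorem JJ_bound {h : ℝ → ℂ} {M : ℝ} (H : Adm T h M) (n : ℕ) (l z : ℂ)
    (hl : |l.re| ≤ eps T n / 2) (hi : bot (n+1) < l.im)
    (hz1 : 1 ≤ ‖z‖) (hz : ‖z‖ ≤ Real.exp (cc n / 2)) : ‖JJ T n h l z‖ ≤ M := by
  unfold JJ
  apply H.bound
  intro t ht
  exact E2_le T hpos hdvd hhalf n l _ z hl (ZZ_le T hpos hhalf n l z hl hi hz) hz1 hz t ht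

theorem region_open (e b : ℝ) : IsOpen {l : ℂ | |l.re| < e ∧ b < l.im} := by
  exact (isOpen_lt (Complex.continuous_re.abs) continuous_const).inter
    (isOpen_lt continuous_const Complex.continuous_im)

omit hdvd in
theorem zet_diff (n : ℕ) :
    DifferentiableOn ℂ (zet T n) {l : ℂ | |l.re| < eps T n / 2 ∧ bot n < l.im} := by
  unfold zet
  have h8 := eps_le T hpos hhalf n
  have hc : ∀ k, DifferentiableOn ℂ (chi k) {l : ℂ | |l.re| < eps T n / 2 ∧ bot n < l.im} := by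
    intro k
    unfold chi
    apply DifferentiableOn.div
    · fun_prop
    · fun_prop
    · intro l hl
      have := (le_abs_self l.re).trans_lt hl.1
      exact sub_ne_zero_of_re _ (aa_ge k) l (by linarith)
  apply DifferentiableOn.div
  · apply DifferentiableOn.sub (by fun_prop)
    apply DifferentiableOn.fun_sum
    intro i _
    exact (hc i).mul (by fun_prop)
  · exact hc n
  · intro l hl
    have := (le_abs_self l.re).trans_lt hl.1
    exact chi_ne n l (by linarith) hl.2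

omit hdvd in
theorem ZZ_diff (n : ℕ) (z : ℂ) :
    DifferentiableOn ℂ (fun l => ZZ T n l z) {l : ℂ | |l.re| < eps T n / 2 ∧ bot (n+1) < l.im} := by
  unfold ZZ
  have h8 := eps_le T hpos hhalf n
  have hc : ∀ k, DifferentiableOn ℂ (chi k) {l : ℂ | |l.re| < eps T n / 2 ∧ bot (n+1) < l.im} := by
    intro k
    unfold chi
    apply DifferentiableOn.div
    · fun_prop
    · fun_prop
    · intro l hl
      have := (le_abs_self l.re).trans_lt hl.1
      exact sub_ne_zero_of_re _ (aa_ge k) l (by linarith)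
  apply DifferentiableOn.div
  · apply DifferentiableOn.sub
    · apply DifferentiableOn.sub (by fun_prop)
      apply DifferentiableOn.fun_sum
      intro i _
      exact (hc i).mul (by fun_prop)
    · exact (hc n).mul (by fun_prop)
  · exact hc (n+1)
  · intro l hl
    have := (le_abs_self l.re).trans_lt hl.1
    exact chi_ne (n+1) l (by linarith) hl.2

theorem KK_diff {h : ℝ → ℂ} {M : ℝ} (H : Adm T h M) (n : ℕ) :
    DifferentiableOn ℂ (KK T n h) {l : ℂ | |l.re| < eps T n / 2 ∧ bot n < l.im} := by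
  have hsub : Ioo (0:ℝ) ((T (n+1) : ℝ) / 2) ⊆ Ioi 0 := fun t ht => ht.1
  have := diffOn_integral (region_open T hpos hdvd hhalf (eps T n / 2) (bot n))
    (volume.restrict (Ioo (0:ℝ) ((T (n+1) : ℝ) / 2)))
    (fun l t => h t * E1 T n l (zet T n l) t) (fun t => ‖h t‖ * phi T t)
    (H.int.mono_set hsub) ?_ ?_ ?_
  · exact this
  · intro l _
    exact (H.meas.mono_measure (Measure.restrict_mono hsub le_rfl)).mul
      (measurable_E1 T n l _).aestronglyMeasurable
  · filter_upwards with t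
    unfold E1
    have := zet_diff T hpos hhalf n
    exact ((this.pow _).mul (by fun_prop)).const_mul _
  · rw [ae_restrict_iff' measurableSet_Ioo]
    filter_upwards with t ht l hl
    rw [norm_mul]
    refine mul_le_mul_of_nonneg_left ?_ (norm_nonneg _)
    refine E1_le T hpos hdvd hhalf n l _ hl.1.le ?_ t ht
    refine (zet_le T hpos hhalf n l hl.1.le hl.2).trans (Real.exp_le_exp.2 ?_)
    have := cc_pos n
    linarith

theorem JJ_diff {h : ℝ → ℂ} {M : ℝ} (H : Adm T h M) (n : ℕ) (z : ℂ)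
    (hz1 : 1 ≤ ‖z‖) (hz : ‖z‖ ≤ Real.exp (cc n / 2)) :
    DifferentiableOn ℂ (fun l => JJ T n h l z) {l : ℂ | |l.re| < eps T n / 2 ∧ bot (n+1) < l.im} := by
  have hsub : Ioo (0:ℝ) ((T (n+2) : ℝ) / 2) ⊆ Ioi 0 := fun t ht => ht.1
  have := diffOn_integral (region_open T hpos hdvd hhalf (eps T n / 2) (bot (n+1)))
    (volume.restrict (Ioo (0:ℝ) ((T (n+2) : ℝ) / 2)))
    (fun l t => h t * E2 T n l (ZZ T n l z) z t) (fun t => ‖h t‖ * phi T t)
    (H.int.mono_set hsub) ?_ ?_ ?_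
  · exact this
  · intro l _
    exact (H.meas.mono_measure (Measure.restrict_mono hsub le_rfl)).mul
      (measurable_E2 T n l _ _).aestronglyMeasurable
  · filter_upwards with t
    unfold E2
    have := ZZ_diff T hpos hhalf n z
    exact (((this.pow _).mul_const _).mul (by fun_prop)).const_mul _
  · rw [ae_restrict_iff' measurableSet_Ioo]
    filter_upwards with t ht l hl
    rw [norm_mul]
    refine mul_le_mul_of_nonneg_left ?_ (norm_nonneg _)
    exact E2_le T hpos hdvd hhalf n l _ z hl.1.le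
      (ZZ_le T hpos hhalf n l z hl.1.le hl.2 hz) hz1 hz t ht

/-- on the characteristic curve the two level transform is the transform of level `n+1` -/
theorem JJ_curve (n : ℕ) (h : ℝ → ℂ) (l : ℂ) :
    JJ T n h l (Complex.exp (l * T n)) = KK T (n+1) h l := by
  rw [KK_eq]
  unfold JJ
  have hZ : ZZ T n l (Complex.exp (l * T n)) = zet T (n+1) l := by
    unfold ZZ zet
    rw [Finset.sum_range_succ]
    congr 1
    ring
  rw [hZ]
  congr 1
  ext t
  congr 1
  unfold E1 E2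
  rw [mul_assoc]
  congr 1
  rw [← Complex.exp_int_mul, ← Complex.exp_add]
  congr 1
  unfold rr
  have hN : ((T (n+1) / T n : ℕ) : ℂ) * (T n : ℂ) = T (n+1) := by
    rw [← Nat.cast_mul, Nat.div_mul_cancel (hdvd n)]
  generalize T (n+1) / T n = N at hN ⊢
  push_cast
  linear_combination (-(l * (mm T (n+1) t : ℂ))) * hN

theorem JJ_zero (n : ℕ) (h : ℝ → ℂ) (l : ℂ) (hchi : chi n l ≠ 0) (hbig : T (n+1) ≤ T (n+2)) :
    JJ T n h l (zet T n l) = KK T n h l := by
  rw [KK_eq]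
  unfold JJ
  have hZ : ZZ T n l (zet T n l) = 0 := by
    unfold ZZ zet
    rw [mul_div_cancel₀ _ hchi]
    simp
  rw [hZ]
  have hTT : (T (n+1) : ℝ) ≤ T (n+2) := by exact_mod_cast hbig
  have hsub : Ioo (0:ℝ) ((T (n+1) : ℝ) / 2) ⊆ Ioo (0:ℝ) ((T (n+2) : ℝ) / 2) :=
    Ioo_subset_Ioo le_rfl (by linarith)
  rw [setIntegral_eq_of_subset_of_forall_sdiff_eq_zero (s := Ioo (0:ℝ) ((T (n+1) : ℝ) / 2))
    (t := Ioo (0:ℝ) ((T (n+2) : ℝ) / 2))
    (f := fun t => h t * E2 T n l 0 (zet T n l) t) measurableSet_Ioo hsub]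
  · symm
    apply setIntegral_congr_fun measurableSet_Ioo
    intro t ht
    simp only
    congr 1
    unfold E1 E2
    have h1 : mm T (n+1) t = 0 := mm_zero T hpos (n+1) t ht.1.le ht.2
    have h2 := mm_nonneg T hpos n t ht.1.le
    rw [h1]
    simp only [Int.toNat_zero, pow_zero, one_mul, mul_zero, sub_zero]
    congr 1
    conv_rhs => rw [← Int.toNat_of_nonneg h2]
    rw [zpow_natCast]
  · intro t ht
    have h1 : (T (n+1) : ℝ) / 2 ≤ t := by
      by_contra hcon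
      exact ht.2 ⟨ht.1.1, by linarith⟩
    have h2 := mm_pos' T hpos (n+1) t h1
    unfold E2
    rw [zero_pow (by omega)]
    ring

end

end MP27fa52
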